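import Pool.Agent.P.MP_0ff3a5_nt.Hole
import Pool.Agent.P.MP_0ff3a5_nt.Cert

/-! For almost every base near the golden ratio the digit sums have small gaps. -/

namespace Pool.Agent.P.MP_0ff3a5_nt
open Finset Filter MeasureTheory Topology

lemma null_win {η : ℝ} (hη : 0 < η) (b : ℝ) (A : ℕ) : ∃ ω > 0, ∀ α0 α1, Loc α0 b η → α0 ≤ α1 →
    α1 - α0 ≤ ω → ∀ m0, volume {α | α0 ≤ α ∧ α ≤ α1 ∧ Loc α b η ∧ Sep α A m0 ∧
      ¬ Gap α (3 / 8)} = 0 := by
  obtain ⟨T, hT1, hT⟩ := loc_br hη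
  set C : ℝ := 16 / η + 1 with hC
  have hC0 : 0 < C := by positivity
  obtain ⟨h, hh, hh1⟩ := (((tendsto_pow_atTop_atTop_of_one_lt (one_lt_two (α := ℝ))
    ).eventually_ge_atTop (4 * C)).and (eventually_ge_atTop 1)).exists
  set L := (A + 1) * (h * T) + 1 with hL
  have hTL : T < L := by
    have : T ≤ h * T := Nat.le_mul_of_pos_left _ hh1
    have : h * T ≤ (A + 1) * (h * T) := Nat.le_mul_of_pos_left _ (by omega)
    omega
  set Λ : ℝ := 8 * (2 * (L + 2) * 2 ^ (L + 2)) with hΛ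
  have hΛ0 : 0 < Λ := by positivity
  set ε1 : ℝ := 1 / 200 / 2 ^ (L + 1) with hε1
  have hε10 : 0 < ε1 := by positivity
  set ε : ℝ := min (ε1 / (12000 * 2 ^ T)) (η / 2) with hε
  have hε0 : 0 < ε := by positivity
  have e3 : 2 ^ (L + 1) * ε1 ≤ 1 / 200 := by rw [hε1]; apply le_of_eq; field_simp
  have e4 : 12000 * 2 ^ T * ε ≤ ε1 := by
    have : ε ≤ ε1 / (12000 * 2 ^ T) := min_le_left _ _
    rwa [le_div_iff₀ (by positivity), mul_comm] at this
  have e1 : ε ≤ η / 2 := min_le_right _ _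
  have e5 : ε1 ≤ 1 := by
    have : (1 : ℝ) ≤ 2 ^ (L + 1) := one_le_pow₀ (by norm_num)
    nlinarith
  refine ⟨η / Λ, by positivity, fun α0 α1 h0 h01 hω m0 => ?_⟩
  rw [le_div_iff₀ hΛ0, mul_comm] at hω
  obtain ⟨b1, b2, b3, b4⟩ := h0.bounds
  have b5 := h0.h1
  have e2 : ε ≤ 1 / 16 := by linarith
  have main : ∀ k n0 : ℕ, volume {α | (α0 ≤ α ∧ α ≤ α1 ∧ Loc α b η ∧
      HP α b η (3 / 8 + k * ε) ε n0 ∧ Br α η b (η / 2) T) ∧ Sep α A m0} = 0 := by
    intro k n0
    set u : ℝ := 3 / 8 + k * ε with hu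
    have hu' : 3 / 8 ≤ u := by have : 0 ≤ (k : ℝ) * ε := by positivity
                               linarith
    set S : ℝ → Prop := fun α => (α0 ≤ α ∧ α ≤ α1 ∧ Loc α b η ∧ HP α b η u ε n0 ∧
      Br α η b (η / 2) T) ∧ Sep α A m0 with hS
    have t32 : (1 : ℝ) < 3 / 2 := by norm_num
    have ev3 : ∀ᶠ i : ℕ in atTop,
        2000 * (((i : ℝ) + L + 1) * (2 * 2 ^ n0 + 4 * (i + L + 1))) ≤ (3 / 2) ^ i := by
      filter_upwards [(tendsto_pow_const_div_const_pow_of_one_lt 2 t32).eventually_lt_const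
        (show (0 : ℝ) < 1 / 40000 by norm_num), eventually_ge_atTop (L + 1),
        eventually_ge_atTop (2 ^ n0)] with i a1 a2 a3
      rw [div_lt_iff₀ (by positivity)] at a1
      have a4 : (L : ℝ) + 1 ≤ i := by exact_mod_cast a2
      have a5 : (2 : ℝ) ^ n0 ≤ i := by exact_mod_cast a3
      have a6 : ((i : ℝ) + L + 1) * (2 * 2 ^ n0 + 4 * (i + L + 1)) ≤ (2 * i) * (10 * i) := by
        gcongr <;> linarith
      nlinarith
    have ev4 := (tendsto_pow_atTop_atTop_of_one_lt t32).eventually_ge_atTop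
      (2 * ((n0 : ℝ) + 1) * 2 ^ (n0 + 1) / ε)
    obtain ⟨i0, hi0⟩ := eventually_atTop.1 (ev3.and (ev4.and ((eventually_ge_atTop 4).and
      (eventually_gt_atTop n0))))
    obtain ⟨B, hB0, hB⟩ := codeH_base (S := S) (u := u) (fun α h => h.1.2.2.1) hε0 hε10
      (hi0 i0 le_rfl).2.2.2
    have codes : ∀ j : ℕ, CodeH S b η u ε ε1 n0 (i0 + j * L) (B * (C * α1 ^ L) ^ j) := by
      intro j
      induction j with
      | zero => simpa using hB
      | succ j ih =>
        obtain ⟨c1, c2, c3, c4⟩ := hi0 (i0 + j * L) (by omega)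
        rw [div_le_iff₀ hε0] at c2
        have := codeH_step (fun α h => h.1) h0 (by linarith) hω hu' hε0 e1 e2 e3 e4 hTL c4.le c3
          c1 (by linarith) ih
        rwa [show i0 + j * L + L = i0 + (j + 1) * L by ring, mul_assoc, ← pow_succ] at this
    refine null_of_real (measure_ne_top_of_subset (s := Set.Icc α0 α1)
      (fun t ht => ⟨ht.1.1, ht.1.2.1⟩) (by simp)) (C := B * 2) ?_
    filter_upwards [eventually_ge_atTop (m0 + 1)] with j hj
    obtain ⟨r, hr⟩ : ∃ r, j * h = r + 1 := ⟨j * h - 1, by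
      have : 1 ≤ j * h := Nat.mul_pos (by omega) hh1
      omega⟩
    set m := (r + 1) * T with hm
    have hjm : j ≤ m := by
      have : j ≤ j * h := Nat.le_mul_of_pos_right _ hh1
      have : r + 1 ≤ m := Nat.le_mul_of_pos_right _ (by omega)
      omega
    have hLm : j * L = A * m + m + j := by rw [hm, ← hr, hL]; ring
    set K := i0 + j * L with hKd
    obtain ⟨ι, _, hι, f, hf⟩ := codes j
    have hp : 0 < α0 ^ K := pow_pos (by linarith) _
    have hn0 := (hi0 i0 le_rfl).2.2.2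
    have fin := code_bound_real (κ := Fin (r + 1) → Bool) (fun p : VH S b η u K => p.1.1) f
      (r := 1 / α0 ^ K) (by positivity) (fun p q e => by
        have a1 := (hf p q e).1
        have a2 : α0 ^ K ≤ p.1.1 ^ K := by gcongr; exact p.2.1.1.1
        rw [le_div_iff₀ hp, abs_sub_comm]
        nlinarith [abs_nonneg (q.1.1 - p.1.1)])
      {α | S α} (by
        intro α hα
        have P := hα.1.2.2.1.par
        have h1 := P.h1
        obtain ⟨x, x1, x2⟩ := (hα.1.2.2.2.1 (K + m) (by omega)).1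
        obtain ⟨g, hg, hg'⟩ := hα.1.2.2.2.2.many P r K x1
        refine ⟨fun c => ⟨(α, x - val α (g c)), hα, (hg' c).2.mono (by linarith) P.hμ.le,
          x2.desc (by omega) (hg' c).1⟩, fun _ => rfl, fun c d e => hg ?_⟩
        by_contra hne
        obtain ⟨-, W, -, -, a1⟩ := hf _ _ e
        simp only at a1
        rw [show x - val α (g c) - val α W - (x - val α (g d) - val α W) =
          val α (g d) - val α (g c) by ring, abs_sub_comm] at a1
        have a9 := hα.2.shift (by linarith) (by omega : m0 ≤ m) (hg' c).1 (hg' d).1 hne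
        have a10 : α ^ (A * m) ≤ α ^ K := pow_le_pow_right₀ h1.le (by omega)
        have a12 : 0 < α ^ (A * m) := pow_pos (by linarith) _
        nlinarith)
    simp only [Fintype.card_fun, Fintype.card_bool, Fintype.card_fin, ← hr] at fin
    push_cast at fin
    change (2 : ℝ) ^ j * (volume {α | S α}).toReal ≤ B * 2
    set v := (volume {α | S α}).toReal
    have hv : 0 ≤ v := ENNReal.toReal_nonneg
    have c1 : (2 * (2 * C)) ^ j ≤ (2 : ℝ) ^ (j * h) := by
      rw [mul_comm j h, pow_mul]; gcongr; linarith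
    have c0 : α1 ^ L ≤ 2 * α0 ^ L := by
      refine seg_pow (by linarith) (by linarith) ?_
      rw [abs_of_nonneg (by linarith)]
      have : (L : ℝ) ≤ Λ := by
        have : (1 : ℝ) ≤ 2 ^ (L + 2) := one_le_pow₀ (by norm_num)
        have : (0 : ℝ) ≤ L := Nat.cast_nonneg _
        nlinarith
      nlinarith
    have c2 : (α0 ^ L) ^ j ≤ α0 ^ K := by
      rw [← pow_mul]; exact pow_le_pow_right₀ (by linarith) (by rw [mul_comm]; omega)
    have c3 : (Fintype.card ι : ℝ) * (2 * (1 / α0 ^ K)) ≤ (2 * C) ^ j * (B * 2) := by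
      have : 0 ≤ α1 ^ L := pow_nonneg (by linarith) _
      calc _ ≤ B * (C * α1 ^ L) ^ j * (2 * (1 / α0 ^ K)) := by gcongr
        _ ≤ B * (C * (2 * α0 ^ L)) ^ j * (2 * (1 / α0 ^ K)) := by gcongr
        _ = (2 * C) ^ j * (B * (2 * ((α0 ^ L) ^ j / α0 ^ K))) := by
          rw [show C * (2 * α0 ^ L) = (2 * C) * α0 ^ L by ring, mul_pow (2 * C)]; ring
        _ ≤ (2 * C) ^ j * (B * (2 * 1)) := by
          gcongr
          rwa [div_le_one hp]
        _ = _ := by ring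
    have c4 : (2 * C) ^ j * (2 ^ j * v) ≤ (2 * C) ^ j * (B * 2) := by
      calc _ = (2 * (2 * C)) ^ j * v := by rw [mul_pow 2 (2 * C)]; ring
        _ ≤ 2 ^ (j * h) * v := by gcongr
        _ ≤ _ := fin.trans c3
    exact le_of_mul_le_mul_left c4 (by positivity)
  refine measure_mono_null (fun α hα => ?_)
    (measure_iUnion_null fun k : ℕ => measure_iUnion_null fun n0 : ℕ => main k n0)
  obtain ⟨a1, a2, a3, a4, a5⟩ := hα
  obtain ⟨k, n0, hk⟩ := exists_HP a3 a5 hε0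
  exact Set.mem_iUnion.2 ⟨k, Set.mem_iUnion.2 ⟨n0, ⟨a1, a2, a3, hk, hT α b a3⟩, a4⟩⟩

lemma ae_gap : ∀ᵐ α : ℝ, 1543 / 1000 < α → α ^ 2 < α + 1 → Gap α (3 / 8) := by
  have key : ∀ A : ℕ, volume {α : ℝ | 1543 / 1000 < α ∧ α ^ 2 < α + 1 ∧ (∃ m0, Sep α A m0) ∧
      ¬ Gap α (3 / 8)} = 0 := by
    intro A
    refine measure_null_of_locally_null _ fun x hx => ?_
    obtain ⟨x1, x2, -, -⟩ := hx
    set η := (x + 1 - x ^ 2) / 16 with hη
    have hη0 : 0 < η := by linarith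
    have h0 : 0 < x - 1 := by linarith
    set b := 1 / (x - 1) - 5 / 4 * η with hb
    have hb' : (x - 1) * b = 1 - (x - 1) * (5 / 4 * η) := by rw [hb]; field_simp
    obtain ⟨ω, hω, H⟩ := null_win hη0 b A
    have ev : ∀ᶠ α in 𝓝 x, Loc α b η := by
      have a1 : ∀ᶠ α in 𝓝 x, 1543 / 1000 < α := lt_mem_nhds x1
      have a2 : ∀ᶠ α in 𝓝 x, 8 * η < α + 1 - α ^ 2 :=
        ContinuousAt.eventually_lt (f := fun _ => 8 * η) (g := fun α : ℝ => α + 1 - α ^ 2)
          (by fun_prop) (by fun_prop) (by linarith)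
      have a3 : ∀ᶠ α in 𝓝 x, (α - 1) * (b + η) < 1 :=
        ContinuousAt.eventually_lt (f := fun α : ℝ => (α - 1) * (b + η)) (g := fun _ => 1)
          (by fun_prop) (by fun_prop) (by nlinarith)
      have a4 : ∀ᶠ α in 𝓝 x, 1 < (α - 1) * (b + 3 / 2 * η) :=
        ContinuousAt.eventually_lt (g := fun α : ℝ => (α - 1) * (b + 3 / 2 * η)) (f := fun _ => 1)
          (by fun_prop) (by fun_prop) (by nlinarith)
      filter_upwards [a1, a2, a3, a4] with α a1 a2 a3 a4 using ⟨a1.le, hη0, a2.le, a3.le, a4.le⟩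
    obtain ⟨δ, hδ, hδ'⟩ := Metric.eventually_nhds_iff.1 ev
    set e := min δ ω / 2 with he
    have e0 : 0 < e := by positivity
    have e1 : e ≤ δ / 2 := by rw [he]; gcongr; exact min_le_left _ _
    have e2 : e ≤ ω / 2 := by rw [he]; gcongr; exact min_le_right _ _
    have loc : ∀ α, x - e ≤ α → α ≤ x + e → Loc α b η := fun α a1 a2 =>
      hδ' (by rw [Real.dist_eq, abs_lt]; constructor <;> linarith)
    refine ⟨_, inter_mem_nhdsWithin _ (Icc_mem_nhds (show x - e < x by linarith)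
      (show x < x + e by linarith)), ?_⟩
    refine measure_mono_null (fun α hα => ?_) (measure_iUnion_null fun m0 : ℕ =>
      H (x - e) (x + e) (loc _ le_rfl (by linarith)) (by linarith) (by linarith) m0)
    obtain ⟨⟨-, -, ⟨m0, a3⟩, a4⟩, a5, a6⟩ := hα
    exact Set.mem_iUnion.2 ⟨m0, a5, a6, loc α a5 a6, a3, a4⟩
  filter_upwards [ae_sep, ae_all_iff.2 fun A => measure_eq_zero_iff_ae_notMem.1 (key A)]
    with α h1 h2 a1 a2
  obtain ⟨A, hA⟩ := h1 (by linarith)
  by_contra hc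
  exact h2 A ⟨a1, a2, hA, hc⟩

lemma good_of_gap {α g : ℝ} (h1 : 1 < α) (h0 : 0 ≤ g) (hg : g * (α ^ 2 - α) < 2 - α)
    (H : Gap α g) {A m0 : ℕ} (hS : Sep α A m0) : ∀ᵐ t : ℝ, 0 < t → Good t α := by
  obtain ⟨a, b, μ, T, P, h2⟩ := par_of_gap h1 h0 hg H
  exact partA P h2 hS

theorem ae_ae_good : ∀ᵐ α : ℝ, 1 < α → α ^ 2 < α + 1 → ∀ᵐ t : ℝ, 0 < t → Good t α := by
  filter_upwards [ae_sep, ae_gap] with α h1 h2 a1 a2
  obtain ⟨A, m0, hS⟩ := h1 a1
  by_cases hc : α ≤ 39 / 25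
  · obtain ⟨g, g0, g1, g2⟩ := gap_small a1 hc
    exact good_of_gap a1 g0 g1 g2 hS
  · refine good_of_gap a1 (by norm_num) ?_ (h2 (by linarith) a2) hS
    have : α < 1.6181 := by nlinarith
    nlinarith

end Pool.Agent.P.MP_0ff3a5_nt
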