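import Mathlib

/-! Real model: descending along digit sets. -/

namespace Pool.Agent.P.MP_0ff3a5_nt
open Finset

/-- `x` lies in the bulk window of level `n`. -/
def Blk (α a b : ℝ) (n : ℕ) (x : ℝ) : Prop := a * α ^ n ≤ x ∧ x ≤ b * α ^ n

/-- value of a digit set -/
noncomputable def val (α : ℝ) (F : Finset ℕ) : ℝ := ∑ k ∈ F, α ^ k

/-- admissible window parameters -/
structure Par (α a b μ : ℝ) : Prop where
  h1 : 1 < α
  h2 : α < 2
  ha : 0 < a
  hμ : 0 < μ
  lo : μ ≤ (α - 1) * a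
  hi : (α - 1) * b ≤ 1 - μ
  wide : a + 1 + 2 * μ ≤ b
  mul : α * a ≤ b

lemma Blk.mono {α a b μ : ℝ} (hα : 0 ≤ α) (hμ : 0 ≤ μ) {n : ℕ} {x : ℝ}
    (h : Blk α (a + μ) (b - μ) n x) : Blk α a b n x := by
  have hp : 0 ≤ μ * α ^ n := by positivity
  obtain ⟨h1, h2⟩ := h
  constructor <;> nlinarith

lemma val_union {α : ℝ} {F G : Finset ℕ} (h : Disjoint F G) :
    val α (F ∪ G) = val α F + val α G := sum_union h

lemma val_empty (α : ℝ) : val α ∅ = 0 := rfl

lemma val_singleton (α : ℝ) (k : ℕ) : val α {k} = α ^ k := sum_singleton _ _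

lemma disj_Ico {F G : Finset ℕ} {i m n : ℕ} (hF : F ⊆ Ico m n) (hG : G ⊆ Ico i m) :
    Disjoint F G := by
  rw [disjoint_left]
  intro k hk hk'
  have := mem_Ico.1 (hF hk)
  have := mem_Ico.1 (hG hk')
  omega

lemma union_Ico {F G : Finset ℕ} {i m n : ℕ} (h1 : i ≤ m) (h2 : m ≤ n) (hF : F ⊆ Ico m n)
    (hG : G ⊆ Ico i m) : F ∪ G ⊆ Ico i n := by
  intro k hk
  rcases mem_union.1 hk with hk | hk
  · have := mem_Ico.1 (hF hk); exact mem_Ico.2 ⟨by omega, by omega⟩
  · have := mem_Ico.1 (hG hk); exact mem_Ico.2 ⟨by omega, by omega⟩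

lemma Par.step {α a b μ : ℝ} (P : Par α a b μ) (n : ℕ) {x : ℝ} (hx : Blk α a b (n + 1) x) :
    ∃ F ⊆ Ico n (n + 1), Blk α (a + μ) (b - μ) n (x - val α F) := by
  have hp : 0 < α ^ n := pow_pos (by linarith [P.h1]) n
  obtain ⟨h1, h2⟩ := hx
  rw [pow_succ] at h1 h2
  have l := P.lo; have hi := P.hi; have w := P.wide
  by_cases h : x ≤ (b - μ) * α ^ n
  · refine ⟨∅, empty_subset _, ?_, ?_⟩
    · rw [val_empty]; nlinarith
    · rw [val_empty]; linarith
  · refine ⟨{n}, by simp, ?_, ?_⟩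
    · rw [val_singleton]; nlinarith
    · rw [val_singleton]; nlinarith

lemma Par.one {α a b μ : ℝ} (P : Par α a b μ) {i n : ℕ} (h : i < n) {x : ℝ}
    (hx : Blk α a b n x) : ∃ F ⊆ Ico i n, Blk α (a + μ) (b - μ) i (x - val α F) := by
  induction n, h using Nat.le_induction generalizing x with
  | base => exact P.step i hx
  | succ n hn ih =>
    obtain ⟨F, hF, hb⟩ := P.step n hx
    obtain ⟨G, hG, hb'⟩ := ih (hb.mono (by linarith [P.h1]) P.hμ.le)
    refine ⟨F ∪ G, union_Ico (by omega) (by omega) hF hG, ?_⟩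
    rw [val_union (disj_Ico hF hG), ← sub_sub]; exact hb'

lemma Par.one' {α a b μ : ℝ} (P : Par α a b μ) {i n : ℕ} (h : i ≤ n) {x : ℝ}
    (hx : Blk α (a + μ) (b - μ) n x) :
    ∃ F ⊆ Ico i n, Blk α (a + μ) (b - μ) i (x - val α F) := by
  rcases h.eq_or_lt with rfl | h
  · exact ⟨∅, empty_subset _, by simpa [val_empty] using hx⟩
  · exact P.one h (hx.mono (by linarith [P.h1]) P.hμ.le)

/-- Two descents from `x` (level `n`) to level `i` which split exactly at level `m`. -/
def Split (α a b μ : ℝ) (i m n : ℕ) (x : ℝ) : Prop :=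
  ∃ F ⊆ Ico i n, ∃ F' ⊆ Ico i n, m ∉ F ∧ m ∈ F' ∧ (∀ k, m < k → (k ∈ F ↔ k ∈ F')) ∧
    Blk α (a + μ) (b - μ) i (x - val α F) ∧ Blk α (a + μ) (b - μ) i (x - val α F')

/-- a switch node at level `m+1` gives a split -/
lemma Par.split {α a b μ : ℝ} (P : Par α a b μ) {i m n : ℕ} (him : i ≤ m) (hmn : m < n) {x : ℝ}
    {G : Finset ℕ} (hG : G ⊆ Ico (m + 1) n)
    (h1 : (a + μ + 1) * α ^ m ≤ x - val α G) (h2 : x - val α G ≤ (b - μ) * α ^ m) :
    Split α a b μ i m n x := by
  have hp : 0 < α ^ m := pow_pos (by linarith [P.h1]) m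
  have b1 : Blk α (a + μ) (b - μ) m (x - val α G) := ⟨by nlinarith, h2⟩
  have b2 : Blk α (a + μ) (b - μ) m (x - val α G - α ^ m) := ⟨by nlinarith, by nlinarith⟩
  obtain ⟨H, hH, c1⟩ := P.one' him b1
  obtain ⟨H', hH', c2⟩ := P.one' him b2
  have hG' : G ⊆ Ico m n := hG.trans (Ico_subset_Ico (by omega) le_rfl)
  have hm : ({m} : Finset ℕ) ⊆ Ico m (m + 1) := by simp
  have hG2 : G ∪ {m} ⊆ Ico m n := union_Ico (by omega) (by omega) hG hm
  refine ⟨G ∪ H, union_Ico him hmn.le hG' hH, (G ∪ {m}) ∪ H', union_Ico him hmn.le hG2 hH',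
    ?_, by simp, ?_, ?_, ?_⟩
  · intro h
    rcases mem_union.1 h with h | h
    · have := mem_Ico.1 (hG h); omega
    · have := mem_Ico.1 (hH h); omega
  · intro k hk
    have e1 : k ∉ H := fun h => by have := mem_Ico.1 (hH h); omega
    have e2 : k ∉ H' := fun h => by have := mem_Ico.1 (hH' h); omega
    have e3 : k ≠ m := by omega
    simp [e1, e2, e3]
  · rw [val_union (disj_Ico hG' hH), ← sub_sub]; exact c1
  · rw [val_union (disj_Ico hG2 hH'), val_union (disj_Ico hG hm), val_singleton, ← sub_sub,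
      ← sub_sub]
    exact c2

/-- branching within `T` levels -/
def Br (α a b μ : ℝ) (T : ℕ) : Prop :=
  ∀ i n, i + T ≤ n → ∀ x, Blk α a b n x → ∃ m, n ≤ m + T ∧ Split α a b μ i m n x

/-- splitting at every level that is deep enough -/
def Two (α a b μ : ℝ) (T : ℕ) : Prop :=
  ∀ i m n, i ≤ m → m + T < n → ∀ x, Blk α a b n x → Split α a b μ i m n x

lemma Two.br {α a b μ : ℝ} {T : ℕ} (h : Two α a b μ T) : Br α a b μ (T + 1) := by
  intro i n hin x hx
  exact ⟨n - T - 1, by omega, h i _ n (by omega) (by omega) x hx⟩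

/-- exponentially many descents -/
lemma Br.many {α a b μ : ℝ} (P : Par α a b μ) {T : ℕ} (h : Br α a b μ T) (r : ℕ) (i : ℕ) {x : ℝ}
    (hx : Blk α a b (i + (r + 1) * T) x) :
    ∃ g : (Fin (r + 1) → Bool) → Finset ℕ, Function.Injective g ∧
      ∀ c, g c ⊆ Ico i (i + (r + 1) * T) ∧ Blk α (a + μ) (b - μ) i (x - val α (g c)) := by
  have h0 : (0 : ℝ) ≤ α := by linarith [P.h1]
  induction r generalizing i with
  | zero =>
    obtain ⟨m, -, F, hF, F', hF', m1, m2, -, b1, b2⟩ := h i _ (by omega) x hx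
    refine ⟨fun c => if c 0 then F' else F, ?_, fun c => ?_⟩
    · intro c d hcd
      funext j
      have : j = 0 := Fin.ext (by have := j.2; simp only [Fin.val_zero]; omega)
      subst this
      have hne : F ≠ F' := fun e => m1 (e ▸ m2)
      cases hc : c 0 <;> cases hd : d 0 <;> simp_all
    · by_cases hc : c 0
      · simp only [hc, if_true]; exact ⟨hF', b2⟩
      · simp only [hc]; exact ⟨hF, b1⟩
  | succ r ih =>
    have e : i + (r + 1 + 1) * T = (i + T) + (r + 1) * T := by ring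
    rw [e] at hx ⊢
    obtain ⟨g, hg, hg'⟩ := ih (i + T) hx
    have key : ∀ c, ∃ F ⊆ Ico i (i + T), ∃ F' ⊆ Ico i (i + T), F ≠ F' ∧
        Blk α (a + μ) (b - μ) i (x - val α (g c) - val α F) ∧
        Blk α (a + μ) (b - μ) i (x - val α (g c) - val α F') := by
      intro c
      obtain ⟨m, -, F, hF, F', hF', m1, m2, -, b1, b2⟩ :=
        h i (i + T) le_rfl _ ((hg' c).2.mono h0 P.hμ.le)
      exact ⟨F, hF, F', hF', fun e => m1 (e ▸ m2), b1, b2⟩
    choose F hF F' hF' hne b1 b2 using key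
    set H : (Fin (r + 1 + 1) → Bool) → Finset ℕ :=
      fun c => if c 0 then F' (Fin.tail c) else F (Fin.tail c) with hH
    have hHs : ∀ c, H c ⊆ Ico i (i + T) := fun c => by
      by_cases hc : c 0 <;> simp [hH, hc, hF, hF']
    refine ⟨fun c => g (Fin.tail c) ∪ H c, ?_, fun c => ⟨?_, ?_⟩⟩
    · intro c d hcd
      simp only at hcd
      have top : ∀ c, (g (Fin.tail c) ∪ H c).filter (fun k => i + T ≤ k) = g (Fin.tail c) := by
        intro c
        ext k
        simp only [mem_filter, mem_union]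
        constructor
        · rintro ⟨h1 | h1, h2⟩
          · exact h1
          · have := mem_Ico.1 (hHs c h1); omega
        · intro h1
          exact ⟨Or.inl h1, (mem_Ico.1 ((hg' _).1 h1)).1⟩
      have bot : ∀ c, (g (Fin.tail c) ∪ H c).filter (fun k => k < i + T) = H c := by
        intro c
        ext k
        simp only [mem_filter, mem_union]
        constructor
        · rintro ⟨h1 | h1, h2⟩
          · have := mem_Ico.1 ((hg' _).1 h1); omega
          · exact h1
        · intro h1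
          exact ⟨Or.inr h1, (mem_Ico.1 (hHs c h1)).2⟩
      have e1 : Fin.tail c = Fin.tail d := hg (by rw [← top c, ← top d, hcd])
      have e2 : H c = H d := by rw [← bot c, ← bot d, hcd]
      have e3 : c 0 = d 0 := by
        have := hne (Fin.tail d)
        simp only [hH, e1] at e2
        cases hc : c 0 <;> cases hd : d 0 <;> simp only [hc, hd] at e2 ⊢
        · exact absurd (by simpa using e2) this
        · exact absurd (by simpa using e2.symm) this
      rw [← Fin.cons_self_tail c, ← Fin.cons_self_tail d, e1, e3]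
    · exact union_Ico (by omega) (by omega) (hg' _).1 (hHs c)
    · rw [val_union (disj_Ico (hg' _).1 (hHs c)), ← sub_sub]
      by_cases hc : c 0 <;> simp [hH, hc, b1, b2]

lemma val_image_add (α : ℝ) (F : Finset ℕ) (j : ℕ) :
    val α (F.image (· + j)) = α ^ j * val α F := by
  unfold val
  rw [sum_image (by intro x _ y _ h; simpa using h), mul_sum]
  exact sum_congr rfl fun k _ => by ring

/-- every interval of length `g` in a fundamental window contains a value -/
def Gap (α g : ℝ) : Prop :=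
  ∃ (k : ℕ) (r : ℝ), ∀ y, r ≤ y → y ≤ r + α ^ k → ∃ F ⊆ range k, y ≤ val α F ∧ val α F ≤ y + g

lemma geom_Ico {α : ℝ} (k n : ℕ) (h : k ≤ n) :
    (α - 1) * ∑ j ∈ Ico k n, α ^ j = α ^ n - α ^ k := by
  induction n, h using Nat.le_induction with
  | base => simp
  | succ n hn ih => rw [sum_Ico_succ_top hn, mul_add, ih]; ring

lemma gap_ext {α g r : ℝ} (h1 : 1 < α) (h2 : α ≤ 2) {k : ℕ}
    (H : ∀ y, r ≤ y → y ≤ r + α ^ k → ∃ F ⊆ range k, y ≤ val α F ∧ val α F ≤ y + g)
    {n : ℕ} (hn : k ≤ n) :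
    α ^ n ≤ α ^ k + ∑ j ∈ Ico k n, α ^ j ∧ ∀ y, r ≤ y → y ≤ r + α ^ k + ∑ j ∈ Ico k n, α ^ j →
      ∃ F ⊆ range n, y ≤ val α F ∧ val α F ≤ y + g := by
  induction n, hn using Nat.le_induction with
  | base => simpa using H
  | succ n hn ih =>
    obtain ⟨i1, i2⟩ := ih
    have hp : 0 < α ^ n := pow_pos (by linarith) n
    rw [sum_Ico_succ_top hn]
    refine ⟨by rw [pow_succ]; nlinarith, fun y hy hy' => ?_⟩
    by_cases hc : y ≤ r + α ^ k + ∑ j ∈ Ico k n, α ^ j
    · obtain ⟨F, hF, h⟩ := i2 y hy hc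
      exact ⟨F, hF.trans (range_subset_range.2 (by omega)), h⟩
    · obtain ⟨F, hF, h⟩ := i2 (y - α ^ n) (by linarith) (by linarith)
      have hn' : n ∉ F := fun h => by simpa using hF h
      refine ⟨insert n F, ?_, ?_⟩
      · rw [range_add_one]; exact insert_subset_insert _ hF
      · have : val α (insert n F) = α ^ n + val α F := sum_insert hn'
        rw [this]; constructor <;> linarith [h.1, h.2]

lemma Par.two {α a b μ g : ℝ} (P : Par α a b μ) (hg : Gap α g)
    (hw : α * g ≤ b - a - 1 - 2 * μ) : ∃ T, Two α a b μ T := by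
  obtain ⟨k, r, H⟩ := hg
  have h1 := P.h1
  have hb : 0 < b := by linarith [P.wide, P.ha, P.hμ]
  have t1 : ∀ᶠ j : ℕ in Filter.atTop, (r + b) / a ≤ α ^ j :=
    (tendsto_pow_atTop_atTop_of_one_lt h1).eventually_ge_atTop _
  have t2 : ∀ᶠ j : ℕ in Filter.atTop, (α ^ k - (α - 1) * r) / μ ≤ α ^ j :=
    (tendsto_pow_atTop_atTop_of_one_lt h1).eventually_ge_atTop _
  obtain ⟨T, hT⟩ := Filter.eventually_atTop.1 (t1.and (t2.and (Filter.eventually_ge_atTop k)))
  refine ⟨T, fun i m n him hmn x hx => ?_⟩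
  obtain ⟨j, rfl⟩ : ∃ j, n = j + (m + 1) := ⟨n - (m + 1), by omega⟩
  obtain ⟨u1, u2, u3⟩ := hT j (by omega)
  rw [div_le_iff₀ P.ha] at u1
  rw [div_le_iff₀ P.hμ] at u2
  have hp : 0 < α ^ m := pow_pos (by linarith) m
  have hq : 0 < α ^ (m + 1) := pow_pos (by linarith) _
  have hpj : 0 < α ^ j := pow_pos (by linarith) j
  have hpk : 0 < α ^ k := pow_pos (by linarith) k
  obtain ⟨x1, x2⟩ := hx
  rw [pow_add] at x1 x2
  set y := (x - (b - μ) * α ^ m) / α ^ (m + 1) with hy
  have hy' : y * α ^ (m + 1) = x - (b - μ) * α ^ m := by rw [hy]; field_simp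
  have e : α ^ (m + 1) = α ^ m * α := pow_succ _ _
  have hμ := P.hμ
  have y1 : r ≤ y := by
    rw [hy, le_div_iff₀ hq]
    have : (b - μ) * α ^ m ≤ b * α ^ (m + 1) := by rw [e]; nlinarith [mul_pos hb hp]
    nlinarith
  have y2 : y ≤ r + α ^ k + ∑ l ∈ Ico k j, α ^ l := by
    have hyb : y ≤ b * α ^ j := by
      rw [hy, div_le_iff₀ hq]
      have : 0 ≤ (b - μ) * α ^ m := by
        have : 0 ≤ b - μ := by linarith [P.wide, P.ha]
        positivity
      nlinarith
    have gs := geom_Ico (α := α) k j u3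
    have : (α - 1) * (b * α ^ j) ≤ (α - 1) * (r + α ^ k + ∑ l ∈ Ico k j, α ^ l) := by
      have := P.hi
      nlinarith
    have := le_of_mul_le_mul_left this (by linarith : 0 < α - 1)
    linarith
  obtain ⟨F, hF, f1, f2⟩ := (gap_ext h1 P.h2.le H u3).2 y y1 y2
  refine P.split him (by omega) (G := F.image (· + (m + 1))) ?_ ?_ ?_
  · intro l hl
    obtain ⟨l', hl', rfl⟩ := mem_image.1 hl
    have := mem_range.1 (hF hl')
    exact mem_Ico.2 ⟨by omega, by omega⟩
  · rw [val_image_add]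
    have : α ^ (m + 1) * val α F ≤ α ^ (m + 1) * (y + g) := by gcongr
    have : α ^ (m + 1) * g ≤ (b - a - 1 - 2 * μ) * α ^ m := by rw [e]; nlinarith
    nlinarith
  · rw [val_image_add]
    have : α ^ (m + 1) * y ≤ α ^ (m + 1) * val α F := by gcongr
    nlinarith

end Pool.Agent.P.MP_0ff3a5_nt
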