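import Pool.Agent.P.MP_0ff3a5_nt.Basic

/-! Below the golden ratio every point reaches the switch region in bounded time. -/

namespace Pool.Agent.P.MP_0ff3a5_nt
open Finset Filter

def Rch (α u v : ℝ) : ℕ → ℝ → Prop
  | 0, z => u ≤ α * z ∧ α * z ≤ v
  | j + 1, z => (u ≤ α * z ∧ α * z ≤ v) ∨ Rch α u v j (α * z) ∨ Rch α u v j (α * z - 1)

lemma Rch.of_sw {α u v z : ℝ} (h : u ≤ α * z ∧ α * z ≤ v) (j : ℕ) : Rch α u v j z := by
  cases j with
  | zero => exact h
  | succ j => exact Or.inl h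

lemma Rch.succ {α u v : ℝ} {j : ℕ} {z : ℝ} (h : Rch α u v j z) : Rch α u v (j + 1) z := by
  induction j generalizing z with
  | zero => exact Or.inl h
  | succ j ih =>
    rcases h with h | h | h
    · exact Or.inl h
    · exact Or.inr (Or.inl (ih h))
    · exact Or.inr (Or.inr (ih h))

lemma Rch.refl {α u v l : ℝ} (hl : α * l = l + 1) {j : ℕ} {z : ℝ}
    (h : Rch α (l + 1 - v) (l + 1 - u) j (l - z)) : Rch α u v j z := by
  induction j generalizing z with
  | zero => obtain ⟨h1, h2⟩ := h; constructor <;> nlinarith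
  | succ j ih =>
    rcases h with ⟨h1, h2⟩ | h | h
    · left; constructor <;> nlinarith
    · right; right; apply ih; rwa [show l - (α * z - 1) = α * (l - z) by linarith]
    · right; left; apply ih; rwa [show l - α * z = α * (l - z) - 1 by linarith]

lemma Rch.abs {α u v : ℝ} (hα : 0 < α) {j n : ℕ} (hj : j < n) {x : ℝ}
    (h : Rch α u v j (x / α ^ n)) : ∃ m, n ≤ m + 1 + j ∧ m < n ∧ ∃ G ⊆ Ico (m + 1) n,
      u * α ^ m ≤ x - val α G ∧ x - val α G ≤ v * α ^ m := by
  have sw : ∀ (n : ℕ) (x : ℝ), u ≤ α * (x / α ^ (n + 1)) ∧ α * (x / α ^ (n + 1)) ≤ v →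
      u * α ^ n ≤ x - val α ∅ ∧ x - val α ∅ ≤ v * α ^ n := by
    intro n x h
    have hp : 0 < α ^ n := pow_pos hα n
    rw [show α * (x / α ^ (n + 1)) = x / α ^ n by rw [pow_succ]; field_simp, le_div_iff₀ hp,
      div_le_iff₀ hp] at h
    simpa [val_empty] using h
  induction j generalizing n x with
  | zero =>
    obtain ⟨n, rfl⟩ : ∃ k, n = k + 1 := ⟨n - 1, by omega⟩
    exact ⟨n, le_rfl, by omega, ∅, empty_subset _, sw n x h⟩
  | succ j ih =>
    obtain ⟨n, rfl⟩ : ∃ k, n = k + 1 := ⟨n - 1, by omega⟩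
    have hp : 0 < α ^ n := pow_pos hα n
    have e : α * (x / α ^ (n + 1)) = x / α ^ n := by rw [pow_succ]; field_simp
    rcases h with h | h | h
    · exact ⟨n, by omega, by omega, ∅, empty_subset _, sw n x h⟩
    · rw [e] at h
      obtain ⟨m, m1, m2, G, hG, h⟩ := ih (by omega) h
      exact ⟨m, by omega, by omega, G, hG.trans (Ico_subset_Ico le_rfl (by omega)), h⟩
    · rw [e, show x / α ^ n - 1 = (x - α ^ n) / α ^ n by field_simp] at h
      obtain ⟨m, m1, m2, G, hG, h⟩ := ih (by omega) h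
      have hn : ({n} : Finset ℕ) ⊆ Ico n (n + 1) := by simp
      refine ⟨m, by omega, by omega, {n} ∪ G, union_Ico (by omega) (by omega) hn hG, ?_⟩
      rwa [val_union (disj_Ico hn hG), val_singleton, ← sub_sub]

lemma rch_mid {α u v η : ℝ} (h1 : 3 / 2 ≤ α) (hη : 0 < η) (hg : 8 * η ≤ α + 1 - α ^ 2)
    (hu0 : 0 < u) (hu : u ≤ 1 + 2 * η) (hv : 3 / 2 ≤ v) (k : ℕ) (z : ℝ) (z1 : u ≤ α * (α * z))
    (z2 : α * z < u) (z3 : z < k * (2 * η)) : Rch α u v (2 * k + 1) z := by
  have h2 : α ≤ 5 / 3 := by nlinarith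
  have h3 : η ≤ 1 / 32 := by nlinarith
  induction k generalizing z with
  | zero =>
    have : α * (α * z) < 0 := by
      have : z < 0 := by simpa using z3
      nlinarith [mul_pos (show 0 < α by linarith) (show 0 < α by linarith)]
    linarith
  | succ k ih =>
    by_cases hc : α * (α * z) ≤ v
    · exact Or.inr (Or.inl (Rch.of_sw ⟨z1, hc⟩ _))
    · have a1 : α * (α * (α * z) - 1) ≤ α * z - 4 * η := by
        have : (α ^ 2 - 1) * (α * z) ≤ (α ^ 2 - 1) * (1 + 2 * η) := by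
          have : 0 ≤ α ^ 2 - 1 := by nlinarith
          gcongr; linarith
        nlinarith
      have a2 : α * (α * z) - 1 ≤ z - 2 * η := by
        have : α * (α * (α * z) - 1) ≤ α * (z - 2 * η) := by nlinarith
        exact le_of_mul_le_mul_left this (by linarith)
      refine Or.inr (Or.inl (Or.inr (Or.inr (ih _ ?_ (by linarith) ?_))))
      · have : 1 / 2 ≤ α * (α * z) - 1 := by linarith
        nlinarith [mul_le_mul h1 h1 (by norm_num) (by linarith)]
      · push_cast at z3; linarith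

lemma rch_low {α u v η : ℝ} (h1 : 3 / 2 ≤ α) (hη : 0 < η) (hg : 8 * η ≤ α + 1 - α ^ 2)
    (hu0 : 0 < u) (hu : u ≤ 1 + 2 * η) (hv : 3 / 2 ≤ v) {k : ℕ} (hk : 1 ≤ k * (2 * η)) (j : ℕ)
    (z : ℝ) (z1 : u ≤ α ^ (j + 2) * z) (z2 : α * z < u) : Rch α u v (2 * k + 1 + j) z := by
  have h3 : η ≤ 1 / 32 := by nlinarith
  have mid : ∀ z, u ≤ α * (α * z) → α * z < u → Rch α u v (2 * k + 1) z := fun z z1 z2 =>
    rch_mid h1 hη hg hu0 hu hv k z z1 z2 (by nlinarith)
  induction j generalizing z with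
  | zero => exact mid z (by rw [zero_add, pow_two, mul_assoc] at z1; exact z1) z2
  | succ j ih =>
    by_cases hc : u ≤ α * (α * z)
    · have := mid z hc z2
      clear ih z1
      induction j with
      | zero => exact this.succ
      | succ j ih => exact ih.succ
    · exact Or.inr (Or.inl (ih _ (by rw [pow_succ] at z1; linarith) (not_le.1 hc)))

/-- local window parameters -/
structure Loc (α b η : ℝ) : Prop where
  h1 : 1543 / 1000 ≤ α
  hη : 0 < η
  hg : 8 * η ≤ α + 1 - α ^ 2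
  b1 : (α - 1) * (b + η) ≤ 1
  b2 : 1 ≤ (α - 1) * (b + 3 / 2 * η)

lemma Loc.bounds {α b η : ℝ} (h : Loc α b η) : α ≤ 5 / 3 ∧ η ≤ 1 / 32 ∧ 31 / 20 ≤ b ∧ b ≤ 2 := by
  obtain ⟨h1, hη, hg, b1, b2⟩ := h
  have h2 : α ≤ 81 / 50 := by nlinarith
  have h3 : η ≤ 1 / 32 := by nlinarith
  refine ⟨by linarith, h3, ?_, ?_⟩
  · by_contra hb; nlinarith
  · by_contra hb; nlinarith

lemma Loc.par {α b η : ℝ} (h : Loc α b η) : Par α η b (η / 2) := by
  obtain ⟨a1, a2, a3, a4⟩ := h.bounds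
  obtain ⟨h1, hη, hg, b1, b2⟩ := h
  exact ⟨by linarith, by linarith, hη, by linarith, by nlinarith, by nlinarith, by linarith,
    by nlinarith⟩

lemma loc_br {η : ℝ} (hη : 0 < η) : ∃ T, 1 ≤ T ∧ ∀ α b, Loc α b η → Br α η b (η / 2) T := by
  obtain ⟨k, hk⟩ := exists_nat_ge (1 / (2 * η))
  rw [div_le_iff₀ (by linarith)] at hk
  obtain ⟨j, hj⟩ := ((tendsto_pow_atTop_atTop_of_one_lt (show (1 : ℝ) < 3 / 2 by norm_num)
    ).eventually_ge_atTop (2 / η)).exists
  rw [div_le_iff₀ hη] at hj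
  refine ⟨2 * k + 1 + j + 1, by omega, fun α b h i n hin x hx => ?_⟩
  obtain ⟨a1, a2, a3, a4⟩ := h.bounds
  have P := h.par
  obtain ⟨h1, -, hg, b1, b2⟩ := h
  have hp : 0 < α ^ n := pow_pos (by linarith) n
  have hj' : 2 ≤ α ^ (j + 2) * η := by
    have : (3 / 2 : ℝ) ^ j ≤ α ^ j := by gcongr; linarith
    have : α ^ j ≤ α ^ (j + 2) := pow_le_pow_right₀ (by linarith) (by omega)
    nlinarith
  have hq : 0 < α ^ (j + 2) := pow_pos (by linarith) _
  obtain ⟨x1, x2⟩ := hx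
  rw [← le_div_iff₀ hp] at x1
  rw [← div_le_iff₀ hp] at x2
  have R : Rch α (η + η / 2 + 1) (b - η / 2) (2 * k + 1 + j) (x / α ^ n) := by
    generalize x / α ^ n = z at x1 x2
    by_cases c1 : α * z < η + η / 2 + 1
    · exact rch_low (by linarith) hη hg (by linarith) (by linarith) (by linarith) hk j z
        (by nlinarith) c1
    by_cases c2 : α * z ≤ b - η / 2
    · exact Rch.of_sw ⟨not_lt.1 c1, c2⟩ _
    have h0 : 0 < α - 1 := by linarith
    set l := 1 / (α - 1) with hl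
    have hl' : (α - 1) * l = 1 := by rw [hl]; field_simp
    have l1 : b + η ≤ l := le_of_mul_le_mul_left (by linarith) h0
    have l2 : l ≤ b + 3 / 2 * η := le_of_mul_le_mul_left (by linarith) h0
    refine Rch.refl (l := l) (by linarith) ?_
    exact rch_low (by linarith) hη hg (by linarith) (by linarith) (by linarith) hk j _
      (by nlinarith) (by nlinarith)
  obtain ⟨m, m1, m2, G, hG, g1, g2⟩ := R.abs (by linarith) (by omega)
  exact ⟨m, by omega, P.split (by omega) m2 hG g1 g2⟩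

end Pool.Agent.P.MP_0ff3a5_nt
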