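import Mathlib

/-! Measure-theoretic lemmas. -/

namespace Pool.Agent.P.MP_0ff3a5_nt
open MeasureTheory Set Filter Topology

/-- first moment bound through codes -/
lemma code_bound {V ι κ : Type} [Fintype ι] [Fintype κ] (pr : V → ℝ) (f : V → ι) (r : ℝ)
    (hf : ∀ p q, f p = f q → |pr p - pr q| ≤ r) (E : Set ℝ)
    (hE : ∀ t ∈ E, ∃ g : κ → V, (∀ c, pr (g c) = t) ∧ Function.Injective (f ∘ g)) :
    (Fintype.card κ : ENNReal) * volume E ≤ Fintype.card ι * ENNReal.ofReal (2 * r) := by
  classical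
  have hrep : ∀ c : ι, ∃ x : ℝ, ∀ p, f p = c → |pr p - x| ≤ r := by
    intro c
    by_cases h : ∃ q, f q = c
    · obtain ⟨q, hq⟩ := h
      exact ⟨pr q, fun p hp => hf p q (hp.trans hq.symm)⟩
    · exact ⟨0, fun p hp => absurd ⟨p, hp⟩ h⟩
  choose x hx using hrep
  set φ : ℝ → ENNReal := fun t => ∑ c : ι, (Icc (x c - r) (x c + r)).indicator 1 t with hφ
  have hm : Measurable φ :=
    Finset.measurable_sum _ fun c _ => measurable_one.indicator measurableSet_Icc
  have h1 : E ⊆ {t | (Fintype.card κ : ENNReal) ≤ φ t} := by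
    intro t ht
    obtain ⟨g, hg, hi⟩ := hE t ht
    simp only [mem_setOf_eq, hφ]
    calc (Fintype.card κ : ENNReal) = ∑ c ∈ Finset.univ.image (f ∘ g), 1 := by
          rw [Finset.sum_const, Finset.card_image_of_injective _ hi]; simp
      _ = ∑ c ∈ Finset.univ.image (f ∘ g), (Icc (x c - r) (x c + r)).indicator 1 t := by
          refine Finset.sum_congr rfl fun c hc => ?_
          obtain ⟨d, -, rfl⟩ := Finset.mem_image.1 hc
          have := abs_le.1 (hx _ (g d) rfl)
          rw [hg d] at this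
          rw [indicator_of_mem]
          · rfl
          · simp only [Function.comp] at this ⊢
            exact ⟨by linarith [this.1], by linarith [this.2]⟩
      _ ≤ _ := Finset.sum_le_sum_of_subset (Finset.subset_univ _)
  calc (Fintype.card κ : ENNReal) * volume E
      ≤ (Fintype.card κ : ENNReal) * volume {t | (Fintype.card κ : ENNReal) ≤ φ t} := by gcongr
    _ ≤ ∫⁻ t, φ t := mul_meas_ge_le_lintegral hm _
    _ = ∑ c : ι, volume (Icc (x c - r) (x c + r)) := by
        rw [hφ, lintegral_finset_sum _ fun c _ => measurable_one.indicator measurableSet_Icc]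
        exact Finset.sum_congr rfl fun c _ => lintegral_indicator_one measurableSet_Icc
    _ = _ := by
        simp only [Real.volume_Icc]
        rw [Finset.sum_congr rfl (g := fun _ => ENNReal.ofReal (2 * r))
          (fun c _ => by congr 1; ring)]
        simp

/-- a set with `2^j * vol E ≤ C` for all large `j` is null -/
lemma null_of_two_pow {E : Set ℝ} {C : ℝ} {j0 : ℕ}
    (h : ∀ j ≥ j0, (2 : ENNReal) ^ j * volume E ≤ ENNReal.ofReal C) : volume E = 0 := by
  by_contra h0
  have : Tendsto (fun j : ℕ => (2 : ENNReal) ^ j * volume E) atTop (𝓝 (⊤ * volume E)) :=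
    ENNReal.Tendsto.mul_const (ENNReal.tendsto_pow_atTop_nhds_top_iff.2 (by norm_num))
      (Or.inl (by simp))
  rw [ENNReal.top_mul h0] at this
  have := le_of_tendsto this (eventually_atTop.2 ⟨j0, h⟩)
  simp at this

lemma ae_residue (α : ℝ) (hα : 1 < α) (d N : ℕ) (hd : 1 ≤ d) :
    ∀ᵐ t : ℝ, ∃ n ≥ N, ⌊t * α ^ n⌋ ≡ 1 [ZMOD d] := by
  set E : Set ℝ := {t | ¬ ∃ n ≥ N, ⌊t * α ^ n⌋ ≡ 1 [ZMOD d]} with hE
  rw [ae_iff]
  change volume E = 0
  have H := Besicovitch.ae_tendsto_measure_inter_div (volume : Measure ℝ) E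
  rw [ae_iff] at H
  rw [← Measure.restrict_apply_self]
  refine measure_mono_null (fun x _ => ?_) H
  simp only [mem_setOf_eq]
  intro hx
  have hd' : (1 : ℝ) ≤ d := by exact_mod_cast hd
  have tr : Tendsto (fun n : ℕ => (d : ℝ) / α ^ n) atTop (𝓝[>] 0) := by
    refine tendsto_nhdsWithin_iff.2 ⟨?_, Eventually.of_forall fun n => ?_⟩
    · exact tendsto_const_nhds.div_atTop (tendsto_pow_atTop_atTop_of_one_lt hα)
    · have : 0 < α ^ n := pow_pos (by linarith) n
      simp only [mem_Ioi]; positivity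
  have h2 := hx.comp tr
  have h3 : ∀ᶠ n : ℕ in atTop, ((fun r => volume (E ∩ Metric.closedBall x r) /
      volume (Metric.closedBall x r)) ∘ fun n : ℕ => (d : ℝ) / α ^ n) n ≤
      ENNReal.ofReal (1 - 1 / (2 * d)) := by
    filter_upwards [eventually_ge_atTop N] with n hn
    have hp : 0 < α ^ n := pow_pos (by linarith) n
    simp only [Function.comp]
    set c : ℤ := ⌈x * α ^ n - d⌉ with hc
    set m : ℤ := c + (1 - c) % d with hm
    have hd0 : (0 : ℤ) < d := by exact_mod_cast hd
    have m1 : 0 ≤ (1 - c) % (d : ℤ) := Int.emod_nonneg _ hd0.ne'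
    have m2 : (1 - c) % (d : ℤ) < d := Int.emod_lt_of_pos _ hd0
    have m3 : m ≡ 1 [ZMOD d] := by
      rw [hm]
      have : c + (1 - c) % d ≡ c + (1 - c) [ZMOD d] := (Int.mod_modEq _ _).add_left c
      simpa using this
    have c1 : x * α ^ n - d ≤ c := Int.le_ceil _
    have c2 : (c : ℝ) < x * α ^ n - d + 1 := Int.ceil_lt_add_one _
    have m4 : (c : ℝ) ≤ m := by exact_mod_cast (by omega : c ≤ m)
    have m5 : (m : ℝ) + 1 ≤ c + d := by exact_mod_cast (by omega : m + 1 ≤ c + d)
    have sub : E ∩ Metric.closedBall x (d / α ^ n) ⊆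
        Icc (x - d / α ^ n) (m / α ^ n) ∪ Icc ((m + 1) / α ^ n) (x + d / α ^ n) := by
      rintro t ⟨t1, t2⟩
      rw [Real.closedBall_eq_Icc] at t2
      by_contra hcon
      simp only [mem_union, mem_Icc, not_or, not_and, not_le] at hcon
      have a1 := hcon.1 t2.1
      have a2 : t < (m + 1) / α ^ n := by
        by_contra h; exact absurd t2.2 (not_le.2 (hcon.2 (not_lt.1 h)))
      rw [div_lt_iff₀ hp] at a1
      rw [lt_div_iff₀ hp] at a2
      refine t1 ⟨n, hn, ?_⟩
      have : ⌊t * α ^ n⌋ = m := Int.floor_eq_iff.2 ⟨a1.le, a2⟩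
      rw [this]; exact m3
    have e1 : 0 ≤ m / α ^ n - (x - d / α ^ n) := by
      have : m / α ^ n - (x - d / α ^ n) = (m - (x * α ^ n - d)) / α ^ n := by field_simp
      rw [this]; apply div_nonneg _ hp.le; linarith
    have e2 : 0 ≤ x + d / α ^ n - (m + 1) / α ^ n := by
      have : x + d / α ^ n - (m + 1) / α ^ n = (x * α ^ n + d - (m + 1)) / α ^ n := by
        field_simp
      rw [this]; apply div_nonneg _ hp.le; linarith
    have v1 : volume (E ∩ Metric.closedBall x (d / α ^ n)) ≤
        ENNReal.ofReal ((2 * d - 1) / α ^ n) := by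
      refine (measure_mono sub).trans ((measure_union_le _ _).trans ?_)
      rw [Real.volume_Icc, Real.volume_Icc, ← ENNReal.ofReal_add e1 e2]
      apply le_of_eq; congr 1; field_simp; ring
    rw [Real.volume_closedBall]
    refine ENNReal.div_le_of_le_mul (v1.trans ?_)
    rw [← ENNReal.ofReal_mul]
    · apply le_of_eq; congr 1; field_simp
    · have : 1 / (2 * (d : ℝ)) ≤ 1 := by rw [div_le_one (by linarith)]; linarith
      linarith
  have := le_of_tendsto h2 h3
  rw [ENNReal.one_le_ofReal] at this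
  have : 0 < 1 / (2 * (d : ℝ)) := by positivity
  linarith

end Pool.Agent.P.MP_0ff3a5_nt
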