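import Pool.Agent.P.MP_0ff3a5_nt.Pattern
import Pool.Agent.P.MP_0ff3a5_nt.Meas

/-! Forcing: a separated persistent pattern determines the future of the sequence. -/

namespace Pool.Agent.P.MP_0ff3a5_nt
open Finset Filter

def Sp (α a b : ℝ) (π : Finset ℤ) (D K0 : ℕ) (t : ℝ) : Prop :=
  ∀ n ≥ K0, (∃ y, Vd α a b t π n y) ∧
    ∀ y y', Vd α a b t π n y → Vd α a b t π n y' → |y - y'| ≤ D → y = y'

def VV (α a b : ℝ) (π : Finset ℤ) (D K0 : ℕ) (T1 : ℝ) (n : ℕ) : Type :=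
  {p : ℝ × ℤ // (1 ≤ p.1 ∧ p.1 ≤ T1 ∧ Sp α a b π D K0 p.1) ∧ Vd α a b p.1 π n p.2}

def Code (α a b : ℝ) (π : Finset ℤ) (D K0 : ℕ) (T1 : ℝ) (n : ℕ) (B : ℝ) : Prop :=
  ∃ (ι : Type) (_ : Fintype ι), (Fintype.card ι : ℝ) ≤ B ∧ ∃ f : VV α a b π D K0 T1 n → ι,
    ∀ p q, f p = f q → (∀ k < n, s α p.1.1 k = s α q.1.1 k) ∧ p.1.2 = q.1.2

lemma close_of_s {α t t' : ℝ} {k : ℕ} (h : s α t k = s α t' k) :
    |t * α ^ k - t' * α ^ k| ≤ 1 := (Int.abs_sub_lt_one_of_floor_eq_floor h).le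

lemma s_next {α t : ℝ} (h1 : 1 < α) (h2 : α < 2) (k : ℕ) :
    ⌊α * s α t k⌋ ≤ s α t (k + 1) ∧ s α t (k + 1) < ⌊α * s α t k⌋ + 3 := by
  have a1 : (s α t k : ℝ) ≤ t * α ^ k := Int.floor_le _
  have a2 : t * α ^ k < s α t k + 1 := Int.lt_floor_add_one _
  constructor
  · exact Int.floor_mono (by rw [pow_succ]; nlinarith)
  · rw [s, Int.floor_lt]
    have := Int.lt_floor_add_one (α * s α t k)
    push_cast
    rw [pow_succ]; nlinarith

lemma code_base {α a b μ : ℝ} (P : Par α a b μ) (π : Finset ℤ) (D K0 : ℕ) (T1 : ℝ) (n : ℕ) :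
    ∃ B, 0 ≤ B ∧ Code α a b π D K0 T1 n B := by
  have h1 := P.h1
  have hb : 1 ≤ b := by linarith [P.wide, P.ha, P.hμ]
  set M : ℤ := ⌈b * α ^ n * T1⌉ with hM
  refine ⟨_, Nat.cast_nonneg _, (Fin n → Icc (0 : ℤ) M) × Icc (0 : ℤ) M, inferInstance, le_rfl,
    fun p => (fun k => ⟨s α p.1.1 k, ?_⟩, ⟨p.1.2, ?_⟩), ?_⟩
  · obtain ⟨⟨t, y⟩, ⟨t1, t2, -⟩, -⟩ := p
    simp only at t1 t2 ⊢
    refine mem_Icc.2 ⟨s_nonneg (by linarith) (by linarith) _, ?_⟩
    have a1 : (s α t k : ℝ) ≤ t * α ^ (k : ℕ) := Int.floor_le _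
    have a2 : α ^ (k : ℕ) ≤ α ^ n := pow_le_pow_right₀ h1.le k.2.le
    have a3 : t * α ^ (k : ℕ) ≤ T1 * α ^ n := by gcongr; linarith
    have a4 : 0 ≤ T1 * α ^ n := by have : 0 ≤ T1 := by linarith
                                   positivity
    have : (s α t k : ℝ) ≤ M := le_trans (by nlinarith) (Int.le_ceil _)
    exact_mod_cast this
  · obtain ⟨⟨t, y⟩, ⟨t1, t2, -⟩, ⟨b1, b2⟩, -⟩ := p
    simp only at t1 t2 b1 b2 ⊢
    rw [le_div_iff₀ (by linarith)] at b1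
    rw [div_le_iff₀ (by linarith)] at b2
    have a1 : (0 : ℝ) ≤ y := le_trans (by have := P.ha; positivity) b1
    have a2 : (y : ℝ) ≤ M := le_trans (b2.trans (by gcongr)) (Int.le_ceil _)
    exact mem_Icc.2 ⟨by exact_mod_cast a1, by exact_mod_cast a2⟩
  · intro p q h
    rw [Prod.mk.injEq] at h
    exact ⟨fun k hk => congrArg Subtype.val (congrFun h.1 ⟨k, hk⟩), congrArg Subtype.val h.2⟩

lemma split_sum {e : ℕ → ℤ} {F F' : Finset ℕ} {i m n : ℕ} (hF : F ⊆ Ico i n) (hF' : F' ⊆ Ico i n)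
    (m1 : m ∉ F) (m2 : m ∈ F') (hk : ∀ k, m < k → (k ∈ F ↔ k ∈ F'))
    (h0 : ∀ k, i ≤ k → k < m → e k = 0) (h : ∑ k ∈ F, e k = ∑ k ∈ F', e k) : e m = 0 := by
  rw [← sum_filter_add_sum_filter_not F (m < ·), ← sum_filter_add_sum_filter_not F' (m < ·)] at h
  have e1 : F.filter (m < ·) = F'.filter (m < ·) := by
    ext k; simp only [mem_filter]
    exact ⟨fun h => ⟨(hk k h.2).1 h.1, h.2⟩, fun h => ⟨(hk k h.2).2 h.1, h.2⟩⟩
  have e2 : ∑ k ∈ F.filter (fun k => ¬ m < k), e k = 0 := by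
    refine sum_eq_zero fun k hk => ?_
    obtain ⟨k1, k2⟩ := mem_filter.1 hk
    have : k ≠ m := fun h => m1 (h ▸ k1)
    exact h0 k (mem_Ico.1 (hF k1)).1 (by omega)
  have e3 : ∑ k ∈ F'.filter (fun k => ¬ m < k), e k = e m := by
    refine sum_eq_single_of_mem m (mem_filter.2 ⟨m2, lt_irrefl _⟩) fun k hk hne => ?_
    obtain ⟨k1, k2⟩ := mem_filter.1 hk
    exact h0 k (mem_Ico.1 (hF' k1)).1 (by omega)
  rw [e1, e2, e3] at h
  linarith

lemma code_step {α a b μ : ℝ} (P : Par α a b μ) {T L D K0 : ℕ} (h2 : Two α a b μ T) (hL : T < L)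
    (hD : 2 * L + 2 * b ≤ D) (hK : 2 * ((L : ℝ) + D) ≤ μ * α ^ K0) (hK1 : 1 ≤ K0)
    {π : Finset ℤ} {T1 : ℝ} {i : ℕ} (hi : K0 ≤ i) {B : ℝ} (hB : Code α a b π D K0 T1 i B) :
    Code α a b π D K0 T1 (i + L) (B * ((2 * b / μ + 1) * 3 ^ T * α ^ L)) := by
  obtain ⟨ι, _, hι, f, hf⟩ := hB
  have h1 := P.h1
  have hμ := P.hμ
  have hb : 1 ≤ b := by linarith [P.wide, P.ha]
  have hpi : 0 < α ^ i := pow_pos (by linarith) i
  have hpL : 1 ≤ α ^ L := one_le_pow₀ h1.le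
  have hKi : 2 * ((L : ℝ) + D) ≤ μ * α ^ i :=
    hK.trans (by gcongr; exact h1.le)
  set δ := μ / 2 * α ^ i with hδ
  have hδ0 : 0 < δ := by positivity
  set X : ℕ → ℝ := fun U => max (a * α ^ (i + L)) (U * δ) with hX
  set M : ℕ := ⌊2 * b / μ * α ^ L⌋₊ + 1 with hM
  have hU : ∀ x, Blk α a b (i + L) x → ⌊x / δ⌋₊ < M ∧ Blk α a b (i + L) (X ⌊x / δ⌋₊) ∧
      0 ≤ x - X ⌊x / δ⌋₊ ∧ x - X ⌊x / δ⌋₊ ≤ δ := by
    rintro x ⟨x1, x2⟩
    have x0 : 0 ≤ x := le_trans (by have := P.ha; positivity) x1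
    have u1 : (⌊x / δ⌋₊ : ℝ) * δ ≤ x := by
      rw [← le_div_iff₀ hδ0]; exact Nat.floor_le (by positivity)
    have u2 : x < (⌊x / δ⌋₊ + 1) * δ := by
      rw [← div_lt_iff₀ hδ0]; exact Nat.lt_floor_add_one _
    have u3 : X ⌊x / δ⌋₊ ≤ x := max_le x1 u1
    have u4 : (⌊x / δ⌋₊ : ℝ) * δ ≤ X ⌊x / δ⌋₊ := le_max_right _ _
    refine ⟨Nat.lt_succ_of_le (Nat.floor_mono ?_), ⟨le_max_left _ _, u3.trans x2⟩, by linarith,
      by linarith⟩
    rw [div_le_iff₀ hδ0]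
    refine x2.trans (le_of_eq ?_)
    rw [hδ, pow_add]; field_simp
  have hF0 : ∀ U, ∃ F, Blk α a b (i + L) (X U) →
      F ⊆ Ico i (i + L) ∧ Blk α (a + μ) (b - μ) i (X U - val α F) := by
    intro U
    by_cases h : Blk α a b (i + L) (X U)
    · obtain ⟨F, h⟩ := P.one (by omega : i < i + L) h
      exact ⟨F, fun _ => h⟩
    · exact ⟨∅, fun h' => absurd h' h⟩
  choose F0 hF0 using hF0
  have land : ∀ (t : ℝ) (y : ℤ), 1 ≤ t → Blk α a b (i + L) (y / t) → ∀ F ⊆ Ico i (i + L),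
      Blk α (a + μ) (b - μ) i (X ⌊(y / t) / δ⌋₊ - val α F) →
      ∀ v : ℤ, |v - (y - ∑ k ∈ F, s α t k)| ≤ D → Blk α a b i (v / t) := by
    intro t y ht hy F hF hb v hv
    obtain ⟨-, -, u1, u2⟩ := hU _ hy
    refine blk_of_close (by linarith) hb ?_
    have a1 := sum_s_le α t F
    have a2 := le_sum_s α t F
    have a3 : (F.card : ℝ) ≤ L := by exact_mod_cast (card_le_card hF).trans (by simp)
    have a4 : |(v : ℝ) - (y - ((∑ k ∈ F, s α t k : ℤ) : ℝ))| ≤ D := by exact_mod_cast hv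
    obtain ⟨a5, a6⟩ := abs_le.1 a4
    have a7 : (y : ℝ) = t * (y / t) := by field_simp
    have a8 : 0 ≤ t * (y / t - X ⌊(y / t) / δ⌋₊) := by positivity
    have a9 : t * (y / t - X ⌊(y / t) / δ⌋₊) ≤ t * δ := by gcongr
    have a10 : δ ≤ t * δ := le_mul_of_one_le_left hδ0.le ht
    have a11 : (0 : ℝ) ≤ L := Nat.cast_nonneg _
    have a12 : t * (μ * α ^ i) = 2 * (t * δ) := by rw [hδ]; ring
    rw [abs_le, a12]
    constructor <;> nlinarith
  have par : ∀ p : VV α a b π D K0 T1 (i + L), Vd α a b p.1.1 π i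
      (p.1.2 - ∑ k ∈ F0 ⌊(p.1.2 / p.1.1) / δ⌋₊, s α p.1.1 k) := by
    rintro ⟨⟨t, y⟩, ⟨t1, t2, t3⟩, v1, v2⟩
    obtain ⟨c1, c2⟩ := hF0 _ (hU _ v1).2.1
    exact ⟨land t y t1 v1 _ c1 c2 _ (by simp), v2.desc (by omega) c1⟩
  refine ⟨ι × Fin M × (Fin T → Fin 3), inferInstance, ?_, fun p =>
    (f ⟨(p.1.1, p.1.2 - ∑ k ∈ F0 ⌊(p.1.2 / p.1.1) / δ⌋₊, s α p.1.1 k), p.2.1, par p⟩,
      ⟨_, (hU _ p.2.2.1).1⟩, fun j =>
      ⟨(s α p.1.1 (i + L - T - 1 + j + 1) - ⌊α * s α p.1.1 (i + L - T - 1 + j)⌋).toNat, ?_⟩), ?_⟩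
  · simp only [Fintype.card_prod, Fintype.card_fin, Fintype.card_fun]
    push_cast
    have : (M : ℝ) ≤ (2 * b / μ + 1) * α ^ L := by
      rw [hM]; push_cast
      have := Nat.floor_le (show 0 ≤ 2 * b / μ * α ^ L by positivity)
      linarith
    have hB0 : 0 ≤ B := le_trans (Nat.cast_nonneg _) hι
    calc (Fintype.card ι : ℝ) * (M * 3 ^ T) ≤ B * (((2 * b / μ + 1) * α ^ L) * 3 ^ T) := by gcongr
      _ = _ := by ring
  · have := s_next (t := p.1.1) h1 P.h2 (i + L - T - 1 + j)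
    omega
  · rintro ⟨⟨t, y⟩, ⟨t1, t2, t3⟩, v1, v2⟩ ⟨⟨t', y'⟩, ⟨t1', t2', t3'⟩, v1', v2'⟩ h
    simp only [Prod.mk.injEq, Fin.mk.injEq] at h
    obtain ⟨e1, e2, e3⟩ := h
    obtain ⟨g1, g2⟩ := hf _ _ e1
    simp only at g1 g2 t1 t1' t3 v1 v2 v1' v2' ⊢
    rw [← e2] at g2
    set U := ⌊(y / t) / δ⌋₊ with hUd
    obtain ⟨c1, c2⟩ := hF0 _ (hU _ v1).2.1
    rw [← hUd] at c1 c2
    have tt : |t - t'| * α ^ i ≤ 2 := by
      obtain ⟨j, rfl⟩ : ∃ j, i = j + 1 := ⟨i - 1, by omega⟩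
      have := close_of_s (g1 j (by omega))
      have hp : 0 < α ^ j := pow_pos (by linarith) j
      rw [← sub_mul, abs_mul, abs_of_pos hp] at this
      rw [pow_succ]; nlinarith [P.h2, abs_nonneg (t - t')]
    have key : ∀ F ⊆ Ico i (i + L), Blk α (a + μ) (b - μ) i (X U - val α F) →
        y - ∑ k ∈ F, s α t k = y' - ∑ k ∈ F, s α t' k := by
      intro F hF hb'
      have cl : |(y' - ∑ k ∈ F, s α t' k) - (y - ∑ k ∈ F, s α t k)| ≤ D := by
        have a1 := sum_s_le α t F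
        have a2 := le_sum_s α t F
        have a3 := sum_s_le α t' F
        have a4 := le_sum_s α t' F
        have a5 := sum_s_le α t (F0 U)
        have a6 := le_sum_s α t (F0 U)
        have a7 := sum_s_le α t' (F0 U)
        have a8 := le_sum_s α t' (F0 U)
        have a9 : (F.card : ℝ) ≤ L := by exact_mod_cast (card_le_card hF).trans (by simp)
        have a10 : ((F0 U).card : ℝ) ≤ L := by exact_mod_cast (card_le_card c1).trans (by simp)
        have a11 : |val α (F0 U) - val α F| ≤ b * α ^ i := by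
          obtain ⟨b1, b2⟩ := hb'
          obtain ⟨b3, b4⟩ := c2
          have := P.ha
          rw [abs_le]; constructor <;> nlinarith
        have a12 : |(t - t') * (val α (F0 U) - val α F)| ≤ 2 * b := by
          rw [abs_mul]
          calc _ ≤ |t - t'| * (b * α ^ i) := by gcongr
            _ = b * (|t - t'| * α ^ i) := by ring
            _ ≤ b * 2 := by gcongr
            _ = _ := by ring
        obtain ⟨a13, a14⟩ := abs_le.1 a12
        have a15 : (y : ℝ) - ((∑ k ∈ F0 U, s α t k : ℤ) : ℝ) =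
            y' - ((∑ k ∈ F0 U, s α t' k : ℤ) : ℝ) := by exact_mod_cast g2
        have : |((y' : ℝ) - ((∑ k ∈ F, s α t' k : ℤ) : ℝ)) -
            (y - ((∑ k ∈ F, s α t k : ℤ) : ℝ))| ≤ D := by
          rw [abs_le]; constructor <;> nlinarith
        exact_mod_cast this
      refine ((t3 i hi).2 _ _ ⟨land t y t1 v1 F hF hb' _ cl, ?_⟩
        ⟨land t y t1 v1 F hF hb' _ (by simp), v2.desc (by omega) hF⟩ cl).symm
      exact (v2'.desc (by omega) hF).congr fun k hk => (g1 k hk).symm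
    have low : ∀ m, m + T < i + L → s α t m = s α t' m := by
      intro m
      induction m using Nat.strong_induction_on with
      | _ m ih =>
        intro hm
        by_cases him : m < i
        · exact g1 m him
        obtain ⟨F, hF, F', hF', m1, m2, m3, b1, b2⟩ :=
          h2 i m _ (by omega) hm _ (hU _ v1).2.1
        have k1 := key F hF b1
        have k2 := key F' hF' b2
        have := split_sum (e := fun k => s α t k - s α t' k) hF hF' m1 m2 m3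
          (fun k _ hk => sub_eq_zero.2 (ih k hk (by omega)))
          (by rw [sum_sub_distrib, sum_sub_distrib]; linarith)
        exact sub_eq_zero.1 this
    have all : ∀ m, m < i + L → s α t m = s α t' m := by
      intro m
      induction m with
      | zero => intro _; exact g1 0 (by omega)
      | succ m ih =>
        intro hm
        by_cases hc : m + 1 + T < i + L
        · exact low _ hc
        have e4 := congrArg Fin.val (congrFun e3 ⟨m - (i + L - T - 1), by omega⟩)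
        simp only at e4
        rw [show i + L - T - 1 + (m - (i + L - T - 1)) = m by omega, ← ih (by omega)] at e4
        have n1 := s_next (t := t) h1 P.h2 m
        have n2 := s_next (t := t') h1 P.h2 m
        rw [← ih (by omega)] at n2
        omega
    refine ⟨all, ?_⟩
    have : ∑ k ∈ F0 U, s α t k = ∑ k ∈ F0 U, s α t' k :=
      sum_congr rfl fun k hk => all k (mem_Ico.1 (c1 hk)).2
    linarith

end Pool.Agent.P.MP_0ff3a5_nt
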