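import Pool.Agent.P.MP_0ff3a5_nt.Trans
import Pool.Agent.P.MP_0ff3a5_nt.Branch

/-! Persistent holes in the digit sums force the base. -/

namespace Pool.Agent.P.MP_0ff3a5_nt
open Finset Filter

def Hole (α u : ℝ) (n : ℕ) (x : ℝ) : Prop := ∀ F ⊆ range n, val α F < x ∨ x + u < val α F

lemma Hole.desc {α u x : ℝ} {i n : ℕ} (h : Hole α u n x) (hin : i ≤ n) {F : Finset ℕ}
    (hF : F ⊆ Ico i n) : Hole α u i (x - val α F) := by
  intro G hG
  have hG' : G ⊆ Ico 0 i := by rwa [← range_eq_Ico]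
  have := h (F ∪ G) (by rw [range_eq_Ico]; exact union_Ico (by omega) hin hF hG')
  rw [val_union (disj_Ico hF hG')] at this
  rcases this with h | h
  · left; linarith
  · right; linarith

def HP (α b η u ε : ℝ) (n0 : ℕ) : Prop :=
  ∀ n ≥ n0, (∃ x, Blk α η b n x ∧ Hole α u n x) ∧ ∀ x, Blk α η b n x → ¬ Hole α (u + ε) n x

lemma exists_HP {α b η ε : ℝ} (h : Loc α b η) (hg : ¬ Gap α (3 / 8)) (hε : 0 < ε) :
    ∃ k n0 : ℕ, HP α b η (3 / 8 + k * ε) ε n0 := by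
  classical
  have P := h.par
  have h1 := P.h1
  have big : ∀ u, 1 ≤ u → ¬ ∃ᶠ n in atTop, ∃ x, Blk α η b n x ∧ Hole α u n x := by
    intro u hu
    rw [not_frequently]
    filter_upwards [(tendsto_pow_atTop_atTop_of_one_lt h1).eventually_ge_atTop (1 / (η / 2))]
      with n hn
    rintro ⟨x, ⟨x1, x2⟩, hx⟩
    rw [div_le_iff₀ P.hμ] at hn
    have hp : 0 < α ^ n := pow_pos (by linarith) n
    have gs := geom_Ico (α := α) 0 n (Nat.zero_le n)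
    obtain ⟨F, hF, f1, f2⟩ := (gap_ext (g := u) (r := -1) (k := 0) h1 P.h2.le (fun y y1 y2 =>
      ⟨∅, empty_subset _, by rw [val_empty]; rw [pow_zero] at y2; linarith,
        by rw [val_empty]; linarith⟩) (Nat.zero_le n)).2 x (by nlinarith [P.ha]) (by
      have : (α - 1) * (b * α ^ n) ≤ (α - 1) * ∑ l ∈ Ico 0 n, α ^ l := by
        have := P.hi
        rw [gs, pow_zero]; nlinarith
      have := le_of_mul_le_mul_left this (by linarith : 0 < α - 1)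
      rw [pow_zero]; linarith)
    rcases hx F hF with h | h <;> linarith
  have ex : ∃ k : ℕ, ¬ ∃ᶠ n in atTop, ∃ x, Blk α η b n x ∧ Hole α (3 / 8 + k * ε) n x := by
    obtain ⟨k, hk⟩ := exists_nat_ge (1 / ε)
    rw [div_le_iff₀ hε] at hk
    exact ⟨k, big _ (by linarith)⟩
  have pos : Nat.find ex ≠ 0 := by
    intro h0
    have := Nat.find_spec ex
    rw [h0] at this
    refine this (Eventually.frequently (Eventually.of_forall fun n => ?_))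
    by_contra hc
    refine hg ⟨n, η * α ^ n, fun y y1 y2 => ?_⟩
    by_contra hc'
    have hp : 0 < α ^ n := pow_pos (by linarith) n
    refine hc ⟨y, ⟨y1, by nlinarith [P.wide, P.hμ]⟩, fun F hF => ?_⟩
    by_contra hc2
    push Not at hc2
    exact hc' ⟨F, hF, hc2.1, by simpa using hc2.2⟩
  obtain ⟨k, hk⟩ := Nat.exists_eq_succ_of_ne_zero pos
  have a1 := not_not.1 (Nat.find_min ex (m := k) (by omega))
  have a2 := Nat.find_spec ex
  rw [hk, not_frequently] at a2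
  obtain ⟨n0, hn0⟩ := eventually_atTop.1 a2
  refine ⟨k, n0, fun n hn => ⟨?_, fun x hx hh => hn0 n hn ⟨x, hx, ?_⟩⟩⟩
  · obtain ⟨N, hN, x, x1, x2⟩ := frequently_atTop.1 a1 (n + 1)
    obtain ⟨F, hF, hb⟩ := P.one (by omega : n < N) x1
    exact ⟨_, hb.mono (by linarith) P.hμ.le, x2.desc (by omega) hF⟩
  · push_cast; rwa [add_mul, one_mul, ← add_assoc]

lemma rigid {α α' b η u ε v w : ℝ} {n : ℕ} (h1 : 1 ≤ α)
    (hno : ∀ x, Blk α η b n x → ¬ Hole α (u + ε) n x) (hv : Blk α (η + η / 2) (b - η / 2) n v)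
    (k1 : Hole α u n v) (k2 : Hole α' u n w) (cl : ∀ G ⊆ range n, |val α' G - val α G| ≤ ε)
    (hvw : |v - w| ≤ 3 / 16) (hu : 3 / 8 ≤ u) (hε : 0 < ε) (e1 : ε ≤ η / 2) (e2 : ε ≤ 1 / 16) :
    |v - w| ≤ 3 * ε := by
  have hp : 1 ≤ α ^ n := one_le_pow₀ h1
  obtain ⟨v1, v2⟩ := hv
  obtain ⟨a1, a2⟩ := abs_le.1 hvw
  have e3 : ε ≤ η / 2 * α ^ n := by nlinarith
  rw [abs_le]
  constructor
  · by_contra hc
    refine hno v ⟨by linarith, by linarith⟩ fun G hG => ?_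
    obtain ⟨c1, c2⟩ := abs_le.1 (cl G hG)
    rcases k1 G hG with h | h
    · exact Or.inl h
    · rcases k2 G hG with h' | h'
      · linarith
      · right; linarith
  · by_contra hc
    refine hno (v - ε) ⟨by linarith, by linarith⟩ fun G hG => ?_
    obtain ⟨c1, c2⟩ := abs_le.1 (cl G hG)
    rcases k1 G hG with h | h
    · rcases k2 G hG with h' | h'
      · left; linarith
      · linarith
    · right; linarith

lemma val_sub_pv {F F' : Finset ℕ} {d : ℕ} (h : ∀ k, d < k → (k ∈ F ↔ k ∈ F')) (x : ℝ) :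
    val x F - val x F' = pv (dc F F') (d + 1) x := val_sub h x

lemma top_iff {F F' : Finset ℕ} {i n : ℕ} (hF : F ⊆ Ico i n) (hF' : F' ⊆ Ico i n) (k : ℕ)
    (hk : n < k) : k ∈ F ↔ k ∈ F' :=
  ⟨fun h => by have := mem_Ico.1 (hF h); omega, fun h => by have := mem_Ico.1 (hF' h); omega⟩

lemma val_lip {G : Finset ℕ} {n : ℕ} (hG : G ⊆ range n) {x y : ℝ} (hx : 3 / 2 ≤ x) (hx2 : x ≤ 2)
    (hy : 3 / 2 ≤ y) (hy2 : y ≤ 2) :
    |val y G - val x G| ≤ 2 * (n + 1) * 2 ^ (n + 1) * |y - x| := by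
  have h := top_iff (range_eq_Ico n ▸ hG) (empty_subset (Ico 0 n))
  have a1 := val_sub_pv h x
  have a2 := val_sub_pv h y
  rw [val_empty, sub_zero] at a1 a2
  obtain ⟨γ, g1, g2⟩ := pv_mvt (dc G ∅) (n + 1) x y
  have b1 : 3 / 2 ≤ γ := le_trans (le_min hx hy) g1.1
  have b2 : γ ≤ 2 := le_trans g1.2 (max_le hx2 hy2)
  have c := pd_crude (dc_abs G ∅) (n + 1) b1
  rw [a1, a2, g2, abs_mul]
  gcongr
  refine c.trans ?_
  push_cast
  gcongr

lemma close_of_floor {x y δ : ℝ} (hx : 0 ≤ x) (hy : 0 ≤ y) (hδ : 0 < δ)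
    (h : ⌊x / δ⌋₊ = ⌊y / δ⌋₊) : |x - y| ≤ δ := by
  have a1 := Nat.floor_le (div_nonneg hx hδ.le)
  have a2 := Nat.floor_le (div_nonneg hy hδ.le)
  have a3 := Nat.lt_floor_add_one (x / δ)
  have a4 := Nat.lt_floor_add_one (y / δ)
  rw [h] at a1 a3
  rw [le_div_iff₀ hδ] at a1 a2
  rw [div_lt_iff₀ hδ] at a3 a4
  rw [abs_le]; constructor <;> linarith

def VH (S : ℝ → Prop) (b η u : ℝ) (n : ℕ) : Type :=
  {p : ℝ × ℝ // S p.1 ∧ Blk p.1 η b n p.2 ∧ Hole p.1 u n p.2}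

def CodeH (S : ℝ → Prop) (b η u ε ε1 : ℝ) (n0 n : ℕ) (B : ℝ) : Prop :=
  ∃ (ι : Type) (_ : Fintype ι), (Fintype.card ι : ℝ) ≤ B ∧ ∃ f : VH S b η u n → ι,
    ∀ p q, f p = f q → p.1.1 ^ n * |q.1.1 - p.1.1| ≤ ε1 ∧ ∃ W ⊆ Ico n0 n,
      Blk p.1.1 η b n0 (p.1.2 - val p.1.1 W) ∧
      |(p.1.2 - val p.1.1 W) - (q.1.2 - val q.1.1 W)| ≤ ε

lemma blk_bd {α b η x : ℝ} (h : Loc α b η) {n : ℕ} (hx : Blk α η b n x) :
    0 ≤ x ∧ x ≤ 2 * 2 ^ n := by
  obtain ⟨a1, a2, a3, a4⟩ := h.bounds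
  have := h.h1
  have := h.hη
  refine ⟨le_trans (by positivity) hx.1, hx.2.trans ?_⟩
  gcongr; linarith

lemma codeH_base {S : ℝ → Prop} {b η u ε ε1 : ℝ} (hS : ∀ α, S α → Loc α b η) (hε : 0 < ε)
    (hε1 : 0 < ε1) {n0 n : ℕ} (hn : n0 < n) : ∃ B, 0 ≤ B ∧ CodeH S b η u ε ε1 n0 n B := by
  have ch : ∀ p : VH S b η u n, ∃ W ⊆ Ico n0 n, Blk p.1.1 η b n0 (p.1.2 - val p.1.1 W) := by
    intro p
    have P := (hS _ p.2.1).par
    obtain ⟨W, hW, h⟩ := P.one hn p.2.2.1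
    exact ⟨W, hW, h.mono (by linarith [P.h1]) P.hμ.le⟩
  choose W hW hW' using ch
  have hδ : 0 < ε1 / 2 ^ n := by positivity
  refine ⟨_, Nat.cast_nonneg _, (Ico n0 n).powerset × Fin (⌊2 / (ε1 / 2 ^ n)⌋₊ + 1) ×
    Fin (⌊2 * 2 ^ n0 / ε⌋₊ + 1), inferInstance, le_rfl, fun p => (⟨W p, mem_powerset.2 (hW p)⟩,
      ⟨⌊p.1.1 / (ε1 / 2 ^ n)⌋₊, ?_⟩, ⟨⌊(p.1.2 - val p.1.1 (W p)) / ε⌋₊, ?_⟩), fun p q h => ?_⟩
  · refine Nat.lt_succ_of_le (Nat.floor_mono ?_)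
    gcongr
    linarith [(hS _ p.2.1).bounds.1]
  · refine Nat.lt_succ_of_le (Nat.floor_mono ?_)
    gcongr
    exact (blk_bd (hS _ p.2.1) (hW' p)).2
  · simp only [Prod.mk.injEq, Fin.mk.injEq, Subtype.mk.injEq] at h
    obtain ⟨e1, e2, e3⟩ := h
    have p1 := (hS _ p.2.1).h1
    have p2 := (hS _ p.2.1).bounds.1
    have q1 := (hS _ q.2.1).h1
    have c1 := close_of_floor (by linarith) (by linarith) hδ e2
    have c2 := close_of_floor (blk_bd (hS _ p.2.1) (hW' p)).1 (blk_bd (hS _ q.2.1) (hW' q)).1 hε e3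
    refine ⟨?_, W p, hW p, hW' p, by rwa [← e1] at c2⟩
    rw [abs_sub_comm, le_div_iff₀ (by positivity)] at c1
    have : p.1.1 ^ n ≤ 2 ^ n := by gcongr; linarith
    nlinarith [abs_nonneg (q.1.1 - p.1.1)]

lemma codeH_step {S : ℝ → Prop} {b η u ε ε1 α0 α1 : ℝ} {n0 T L i : ℕ}
    (hS : ∀ α, S α → α0 ≤ α ∧ α ≤ α1 ∧ Loc α b η ∧ HP α b η u ε n0 ∧ Br α η b (η / 2) T)
    (h0 : Loc α0 b η) (hα1 : 1 ≤ α1) (hW : 8 * (2 * (L + 2) * 2 ^ (L + 2)) * (α1 - α0) ≤ η)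
    (hu : 3 / 8 ≤ u) (hε : 0 < ε) (e1 : ε ≤ η / 2) (e2 : ε ≤ 1 / 16)
    (e3 : 2 ^ (L + 1) * ε1 ≤ 1 / 200) (e4 : 12000 * 2 ^ T * ε ≤ ε1) (hTL : T < L)
    (i1 : n0 ≤ i) (i2 : 4 ≤ i)
    (i3 : 2000 * (((i : ℝ) + L + 1) * (2 * 2 ^ n0 + 4 * (i + L + 1))) ≤ (3 / 2) ^ i)
    (i4 : 2 * (n0 + 1) * 2 ^ (n0 + 1) ≤ ε * (3 / 2) ^ i) {B : ℝ}
    (hB : CodeH S b η u ε ε1 n0 i B) :
    CodeH S b η u ε ε1 n0 (i + L) (B * ((16 / η + 1) * α1 ^ L)) := by
  obtain ⟨ι, _, hι, f, hf⟩ := hB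
  have hη := h0.hη
  have hpL : 1 ≤ α1 ^ L := one_le_pow₀ hα1
  set δ := η / 8 / α1 ^ L with hδ
  have hδ0 : 0 < δ := by positivity
  set Z : ℕ → ℝ := fun U => max η (U * δ) with hZ
  set M : ℕ := ⌊16 / η * α1 ^ L⌋₊ + 1 with hM
  obtain ⟨b1, b2, b3, b4⟩ := h0.bounds
  have hU : ∀ z, η ≤ z → z ≤ b → ⌊z / δ⌋₊ < M ∧ Z ⌊z / δ⌋₊ ≤ z ∧ z - Z ⌊z / δ⌋₊ ≤ δ := by
    intro z x1 x2
    have u1 : (⌊z / δ⌋₊ : ℝ) * δ ≤ z := by
      rw [← le_div_iff₀ hδ0]; exact Nat.floor_le (by have : 0 ≤ z := by linarith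
                                                     positivity)
    have u2 : z < (⌊z / δ⌋₊ + 1) * δ := by
      rw [← div_lt_iff₀ hδ0]; exact Nat.lt_floor_add_one _
    have u4 : (⌊z / δ⌋₊ : ℝ) * δ ≤ Z ⌊z / δ⌋₊ := le_max_right _ _
    refine ⟨Nat.lt_succ_of_le (Nat.floor_mono ?_), max_le x1 u1, by linarith⟩
    rw [div_le_iff₀ hδ0]
    refine (x2.trans b4).trans (le_of_eq ?_)
    rw [hδ]; field_simp; norm_num
  have hF0 : ∀ U, ∃ F ⊆ Ico 0 L, Z U ≤ b →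
      Blk α0 (η + η / 2) (b - η / 2) 0 (Z U * α0 ^ L - val α0 F) := by
    intro U
    by_cases h : Z U ≤ b
    · have hp : 0 ≤ α0 ^ L := pow_nonneg (by linarith [h0.h1]) _
      obtain ⟨F, hF, h'⟩ := h0.par.one (by omega : 0 < L) (x := Z U * α0 ^ L)
        ⟨by gcongr; exact le_max_left _ _, by gcongr⟩
      exact ⟨F, hF, fun _ => h'⟩
    · exact ⟨∅, empty_subset _, fun h' => absurd h' h⟩
  choose F0 hF0 hF0' using hF0
  have sh : ∀ U, (F0 U).image (· + i) ⊆ Ico i (i + L) := by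
    intro U l hl
    obtain ⟨l', hl', rfl⟩ := mem_image.1 hl
    have := mem_Ico.1 (hF0 U hl')
    exact mem_Ico.2 ⟨by omega, by omega⟩
  have zb : ∀ p : VH S b η u (i + L), η ≤ p.1.2 / p.1.1 ^ (i + L) ∧ p.1.2 / p.1.1 ^ (i + L) ≤ b := by
    intro p
    have hp : 0 < p.1.1 ^ (i + L) := pow_pos (by linarith [(hS _ p.2.1).2.2.1.h1]) _
    rw [le_div_iff₀ hp, div_le_iff₀ hp]; exact p.2.2.1
  have par : ∀ p : VH S b η u (i + L), Blk p.1.1 η b i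
      (p.1.2 - val p.1.1 ((F0 ⌊p.1.2 / p.1.1 ^ (i + L) / δ⌋₊).image (· + i))) := by
    intro p
    obtain ⟨z1, z2⟩ := zb p
    obtain ⟨⟨α, x⟩, s1, s2, s3⟩ := p
    simp only at z1 z2 s1 s2 s3 ⊢
    obtain ⟨c1, c2, c3, -⟩ := hS α s1
    have c4 := c3.h1
    have c5 := c3.bounds.1
    have c6 := h0.h1
    set z := x / α ^ (i + L) with hz
    have hx : x = α ^ i * (z * α ^ L) := by rw [hz, pow_add]; field_simp
    obtain ⟨-, u1, u2⟩ := hU z z1 z2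
    obtain ⟨g1, g2⟩ := hF0' _ (u1.trans z2)
    have l1 := val_lip (n := L + 1) (x := α0) (y := α) (G := F0 ⌊z / δ⌋₊) (by
      rw [range_eq_Ico]; exact (hF0 _).trans (Ico_subset_Ico le_rfl (by omega)))
      (by linarith) (by linarith) (by linarith) (by linarith)
    have l2 := val_lip (n := L + 1) (x := α0) (y := α) (G := {L}) (by simp)
      (by linarith) (by linarith) (by linarith) (by linarith)
    rw [val_singleton, val_singleton] at l2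
    have l3 : 2 * (((L + 1 : ℕ) : ℝ) + 1) * 2 ^ (L + 1 + 1) * |α - α0| ≤ η / 8 := by
      rw [abs_of_nonneg (by linarith)]
      push_cast
      have : 2 * ((L : ℝ) + 1 + 1) * 2 ^ (L + 1 + 1) * (α - α0) ≤
          2 * (L + 2) * 2 ^ (L + 2) * (α1 - α0) := by
        rw [show (L : ℝ) + 1 + 1 = L + 2 by ring]; gcongr
      linarith
    obtain ⟨l4, l5⟩ := abs_le.1 (l1.trans l3)
    obtain ⟨l6, l7⟩ := abs_le.1 (l2.trans l3)
    have l8 : 0 ≤ (z - Z ⌊z / δ⌋₊) * α ^ L := mul_nonneg (by linarith) (by positivity)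
    have l9 : (z - Z ⌊z / δ⌋₊) * α ^ L ≤ η / 8 := by
      calc _ ≤ δ * α1 ^ L := by gcongr
        _ = _ := by rw [hδ]; field_simp
    have l10 : η ≤ Z ⌊z / δ⌋₊ := le_max_left _ _
    have l11 : |Z ⌊z / δ⌋₊ * (α ^ L - α0 ^ L)| ≤ 2 * (η / 8) := by
      rw [abs_mul, abs_of_pos (by linarith)]
      gcongr
      · linarith
      · exact l2.trans l3
    obtain ⟨l12, l13⟩ := abs_le.1 l11
    rw [pow_zero, mul_one] at g1 g2
    have hp : 0 < α ^ i := by positivity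
    rw [val_image_add, hx, ← mul_sub]
    constructor
    · rw [mul_comm]; gcongr; linarith
    · rw [mul_comm b]; gcongr; linarith
  refine ⟨ι × Fin M, inferInstance, ?_, fun p =>
    (f ⟨(p.1.1, p.1.2 - val p.1.1 ((F0 ⌊p.1.2 / p.1.1 ^ (i + L) / δ⌋₊).image (· + i))), p.2.1,
      par p, p.2.2.2.desc (by omega) (sh _)⟩, ⟨_, (hU _ (zb p).1 (zb p).2).1⟩), ?_⟩
  · simp only [Fintype.card_prod, Fintype.card_fin]
    push_cast
    have : (M : ℝ) ≤ (16 / η + 1) * α1 ^ L := by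
      rw [hM]; push_cast
      have := Nat.floor_le (show 0 ≤ 16 / η * α1 ^ L by positivity)
      linarith
    have hB0 : 0 ≤ B := le_trans (Nat.cast_nonneg _) hι
    gcongr
  rintro ⟨⟨α, x⟩, s1, s2, s3⟩ ⟨⟨α', x'⟩, s1', s2', s3'⟩ h
  simp only [Prod.mk.injEq, Fin.mk.injEq] at h
  obtain ⟨h1, h2⟩ := h
  obtain ⟨g1, W, hW1, hW2, hW3⟩ := hf _ _ h1
  simp only at g1 hW2 hW3 s1 s2 s3 s1' s2' s3' ⊢
  rw [← h2] at hW3
  set G := (F0 ⌊x / α ^ (i + L) / δ⌋₊).image (· + i) with hG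
  have hG1 : G ⊆ Ico i (i + L) := sh _
  have hGW : G ∪ W ⊆ Ico n0 (i + L) := union_Ico i1 (by omega) hG1 hW1
  rw [sub_sub, ← val_union (disj_Ico hG1 hW1)] at hW2
  rw [sub_sub x, sub_sub x', ← val_union (disj_Ico hG1 hW1), ← val_union (disj_Ico hG1 hW1)] at hW3
  refine ⟨?_, G ∪ W, hGW, hW2, hW3⟩
  obtain ⟨-, -, c3, c4, c5⟩ := hS α s1
  obtain ⟨-, -, c3', -⟩ := hS α' s1'
  have d1 := c3.h1
  have d2 := c3.bounds.1
  have d3 := c3'.h1
  have d4 := c3'.bounds.1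
  have hd : 0 ≤ |α' - α| := abs_nonneg _
  have t1 : (3 / 2 : ℝ) ^ i ≤ α ^ i := by gcongr; linarith
  have t2 : (1 : ℝ) ≤ 2 ^ (L + 1) := one_le_pow₀ (by norm_num)
  have t3 : (1 : ℝ) ≤ 2 ^ n0 := one_le_pow₀ (by norm_num)
  have hε1 : 0 ≤ ε1 := le_trans (by positivity) e4
  have t4 : (3 / 2 : ℝ) ^ i * |α' - α| ≤ 1 := by nlinarith
  have hN : (1 : ℝ) ≤ i + L + 1 := by
    have : (0 : ℝ) ≤ i := Nat.cast_nonneg _
    have : (0 : ℝ) ≤ L := Nat.cast_nonneg _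
    linarith
  have facts : ∀ k : ℕ, i ≤ k → k ≤ i + L + 1 → k * |α' - α| ≤ 1 / 2 ∧
      α ^ k * |α' - α| ≤ 1 / 200 ∧ 2000 * (k * (2 * 2 ^ n0 + 4 * (k : ℝ))) ≤ α ^ k := by
    intro k k1 k2
    have k3 : (k : ℝ) ≤ i + L + 1 := by exact_mod_cast k2
    refine ⟨?_, ?_, ?_⟩
    · have : 2 * (k : ℝ) ≤ (3 / 2) ^ i := by nlinarith
      nlinarith
    · have : α ^ k ≤ 2 ^ (L + 1) * α ^ i := by
        calc α ^ k ≤ α ^ (L + 1 + i) := pow_le_pow_right₀ (by linarith) (by omega)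
          _ = α ^ (L + 1) * α ^ i := pow_add _ _ _
          _ ≤ _ := by gcongr; linarith
      calc _ ≤ 2 ^ (L + 1) * α ^ i * |α' - α| := by gcongr
        _ = 2 ^ (L + 1) * (α ^ i * |α' - α|) := by ring
        _ ≤ 2 ^ (L + 1) * ε1 := by gcongr
        _ ≤ _ := e3
    · calc _ ≤ 2000 * (((i : ℝ) + L + 1) * (2 * 2 ^ n0 + 4 * (i + L + 1))) := by gcongr
        _ ≤ α ^ i := i3.trans t1
        _ ≤ _ := pow_le_pow_right₀ (by linarith) k1
  have cl : ∀ G ⊆ range n0, |val α' G - val α G| ≤ ε := by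
    intro G hG
    refine (val_lip hG (by linarith) (by linarith) (by linarith) (by linarith)).trans ?_
    calc _ ≤ ε * (3 / 2) ^ i * |α' - α| := by gcongr
      _ = ε * ((3 / 2) ^ i * |α' - α|) := by ring
      _ ≤ ε * 1 := by gcongr
      _ = ε := mul_one _
  have P := c3.par
  have key : ∀ F ⊆ Ico n0 (i + L), Blk α (η + η / 2) (b - η / 2) n0 (x - val α F) →
      |(x - val α F) - (x' - val α' F)| ≤ 3 * ε := by
    intro F hF hb
    refine rigid (by linarith) (c4 n0 le_rfl).2 hb (s3.desc (by omega) hF) (s3'.desc (by omega) hF)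
      cl ?_ hu hε e1 e2
    obtain ⟨f1, f2, f3⟩ := facts (i + L + 1) (by omega) le_rfl
    have v1 := val_sub_pv (top_iff hGW hF) α
    have v2 := val_sub_pv (top_iff hGW hF) α'
    have v3 := blk_bd c3 hW2
    have v4 := blk_bd c3 (hb.mono (by linarith) P.hμ.le)
    have := pv_lip (dc_abs (G ∪ W) F) (n := i + L + 1) (x := α) (y := α') (B := 2 * 2 ^ n0)
      (by linarith) (by linarith) (by linarith) (by linarith)
      (by rw [← v1, abs_le]; constructor <;> linarith) f1 (by linarith)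
      (by
        have : 0 ≤ ((i + L + 1 : ℕ) : ℝ) * (2 * 2 ^ n0 + 4 * ((i + L + 1 : ℕ) : ℝ)) := by positivity
        linarith)
    rw [← v1, ← v2] at this
    obtain ⟨w1, w2⟩ := abs_le.1 this
    obtain ⟨w3, w4⟩ := abs_le.1 hW3
    rw [abs_le]; constructor <;> linarith
  obtain ⟨m, hm, F, hF, F', hF', m1, m2, m3, k1, k2⟩ := c5 n0 (i + L) (by omega) x s2
  have hm' := (mem_Ico.1 (hF' m2)).2
  obtain ⟨f1, f2, f3⟩ := facts (m + 1) (by omega) (by omega)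
  have m4 : ∀ k, m < k → (k ∈ F' ↔ k ∈ F) := fun k hk => (m3 k hk).symm
  have v1 := val_sub_pv m4 α
  have v2 := val_sub_pv m4 α'
  have v3 := blk_bd c3 (k1.mono (by linarith) P.hμ.le)
  have v4 := blk_bd c3 (k2.mono (by linarith) P.hμ.le)
  have tr := pv_trans (dc_abs F' F) (m := m) (by omega) (by simp [dc, m1, m2]) (x := α) (y := α')
    (B := 2 * 2 ^ n0) d1 (by linarith) d3 (by linarith)
    (by rw [← v1, abs_le]; constructor <;> linarith) f1 (by linarith) f3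
  rw [← v1, ← v2] at tr
  obtain ⟨w1, w2⟩ := abs_le.1 (key F hF k1)
  obtain ⟨w3, w4⟩ := abs_le.1 (key F' hF' k2)
  have w5 : |val α' F' - val α' F - (val α F' - val α F)| ≤ 6 * ε := by
    rw [abs_le]; constructor <;> linarith
  have w6 : α ^ (i + L) ≤ 2 ^ T * α ^ (m + 1) := by
    calc α ^ (i + L) ≤ α ^ (T + (m + 1)) := pow_le_pow_right₀ (by linarith) (by omega)
      _ = α ^ T * α ^ (m + 1) := pow_add _ _ _
      _ ≤ _ := by gcongr; linarith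
  calc _ ≤ 2 ^ T * α ^ (m + 1) * |α' - α| := by gcongr
    _ = 2 ^ T * (α ^ (m + 1) * |α' - α|) := by ring
    _ ≤ 2 ^ T * (12000 * ε) := mul_le_mul_of_nonneg_left (by linarith) (by positivity)
    _ ≤ ε1 := by linarith

end Pool.Agent.P.MP_0ff3a5_nt
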