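import Pool.Agent.P.MP_0ff3a5_nt.PartA

/-! Exponential separation for rational and for almost every base. -/

namespace Pool.Agent.P.MP_0ff3a5_nt
open Finset Filter MeasureTheory Polynomial

def dc (F F' : Finset ℕ) (k : ℕ) : ℤ := (if k ∈ F then 1 else 0) - (if k ∈ F' then 1 else 0)

lemma dc_abs (F F' : Finset ℕ) (k : ℕ) : |dc F F' k| ≤ 1 := by
  unfold dc; split_ifs <;> simp

lemma val_sub {F F' : Finset ℕ} {d : ℕ} (h : ∀ k, d < k → (k ∈ F ↔ k ∈ F')) (x : ℝ) :
    val x F - val x F' = ∑ k ∈ range (d + 1), (dc F F' k : ℝ) * x ^ k := by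
  have e : ∀ G : Finset ℕ, val x G = val x (G.filter (d < ·)) +
      ∑ k ∈ range (d + 1), (if k ∈ G then 1 else 0 : ℝ) * x ^ k := by
    intro G
    rw [val, ← sum_filter_add_sum_filter_not G (d < ·), val]
    congr 1
    simp only [ite_mul, one_mul, zero_mul]
    rw [← sum_filter]
    refine sum_congr ?_ fun _ _ => rfl
    ext k; simp only [mem_filter, mem_range]
    constructor
    · rintro ⟨h1, h2⟩; exact ⟨by omega, h1⟩
    · rintro ⟨h1, h2⟩; exact ⟨h2, by omega⟩
  have e1 : F.filter (d < ·) = F'.filter (d < ·) := by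
    ext k; simp only [mem_filter]
    exact ⟨fun g => ⟨(h k g.2).1 g.1, g.2⟩, fun g => ⟨(h k g.2).2 g.1, g.2⟩⟩
  rw [e F, e F', e1, add_sub_add_left_eq_sub, ← sum_sub_distrib]
  refine sum_congr rfl fun k _ => ?_
  unfold dc; split_ifs <;> simp

lemma top_coeff {F F' : Finset ℕ} {m : ℕ} (hF : F ⊆ range m) (hF' : F' ⊆ range m) (hne : F ≠ F') :
    ∃ d < m, |dc F F' d| = 1 ∧ ∀ k, d < k → (k ∈ F ↔ k ∈ F') := by
  have hn : ((range m).filter fun k => ¬ (k ∈ F ↔ k ∈ F')).Nonempty := by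
    by_contra h
    refine hne (Finset.ext fun k => ?_)
    by_contra hk
    refine h ⟨k, mem_filter.2 ⟨?_, hk⟩⟩
    by_cases h1 : k ∈ F
    · exact hF h1
    · exact hF' (by tauto)
  obtain ⟨d, hd, hmax⟩ := exists_max_image _ id hn
  obtain ⟨d1, d2⟩ := mem_filter.1 hd
  refine ⟨d, mem_range.1 d1, ?_, fun k hk => ?_⟩
  · unfold dc; split_ifs <;> simp_all
  · by_contra h
    have : k ∈ range m := by
      by_cases h1 : k ∈ F
      · exact hF h1
      · exact hF' (by tauto)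
    have := hmax k (mem_filter.2 ⟨this, h⟩)
    simp only [id] at this; omega

lemma sep_rat (α : ℚ) (h1 : 1 < α) (h2 : α < 2) : ∃ A, Sep α A 0 := by
  have h1' : (1 : ℝ) < α := by exact_mod_cast h1
  obtain ⟨A, hA⟩ := ((tendsto_pow_atTop_atTop_of_one_lt h1').eventually_ge_atTop (α.den : ℝ)).exists
  refine ⟨A, fun m _ F hF F' hF' hne => ?_⟩
  obtain ⟨d, hd, c1, c2⟩ := top_coeff hF hF' hne
  rw [val_sub c2]
  set N : ℤ := ∑ k ∈ range (d + 1), dc F F' k * α.num ^ k * (α.den : ℤ) ^ (d - k) with hN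
  have hq : (0 : ℝ) < α.den := by exact_mod_cast α.den_pos
  have hα : (α : ℝ) * α.den = α.num := by exact_mod_cast Rat.mul_den_eq_num α
  have e : (∑ k ∈ range (d + 1), (dc F F' k : ℝ) * (α : ℝ) ^ k) * (α.den : ℝ) ^ d = N := by
    rw [hN, sum_mul]; push_cast
    refine sum_congr rfl fun k hk => ?_
    have := mem_range.1 hk
    rw [← hα, mul_pow, mul_assoc, mul_assoc, mul_assoc, ← pow_add, show k + (d - k) = d by omega]
  have hN0 : N ≠ 0 := by
    intro h0
    rw [hN, sum_range_succ, Nat.sub_self, pow_zero, mul_one] at h0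
    have d1 : (α.den : ℤ) ∣ ∑ k ∈ range d, dc F F' k * α.num ^ k * (α.den : ℤ) ^ (d - k) :=
      dvd_sum fun k hk => Dvd.dvd.mul_left (dvd_pow_self _ (by have := mem_range.1 hk; omega)) _
    have d2 : (α.den : ℤ) ∣ dc F F' d * α.num ^ d := by
      rw [eq_neg_of_add_eq_zero_right h0]; exact d1.neg_right
    have d3 : (α.den : ℤ) ∣ α.num ^ d := by
      rcases abs_eq (zero_le_one) |>.1 c1 with h | h <;> rw [h] at d2 <;> simpa using d2
    have co : IsCoprime (α.den : ℤ) (α.num ^ d) :=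
      (Int.isCoprime_iff_gcd_eq_one.2 (by
        rw [Int.gcd_comm]; simpa [Int.gcd] using α.reduced)).pow_right
    have u := Int.isUnit_iff.1 (co.isUnit_of_dvd' dvd_rfl d3)
    have hden : α.den = 1 := by omega
    have := (Rat.den_eq_one_iff α).1 hden
    rw [← this] at h1 h2
    have a1 : 1 < α.num := by exact_mod_cast h1
    have a2 : α.num < 2 := by exact_mod_cast h2
    omega
  have b1 : (1 : ℝ) ≤ |(N : ℝ)| := by exact_mod_cast Int.one_le_abs hN0
  rw [← e, abs_mul, abs_of_pos (pow_pos hq d)] at b1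
  refine b1.trans ?_
  gcongr
  calc (α.den : ℝ) ^ d ≤ ((α : ℝ) ^ A) ^ d := by gcongr
    _ ≤ ((α : ℝ) ^ A) ^ m := pow_le_pow_right₀ (one_le_pow₀ h1'.le) hd.le
    _ = _ := (pow_mul _ _ _).symm

lemma prod_low {x : ℂ} {κ r τ : ℝ} (hκ : 0 ≤ κ) (hκ1 : κ ≤ 1) (hr : 0 ≤ r)
    (hs : ∀ w : ℂ, ‖w‖ ≤ τ → κ ≤ ‖x - w‖) (R : Multiset ℂ)
    (hR : ∀ w ∈ R, τ < ‖w‖ → r ≤ ‖x - w‖) :
    κ ^ R.card * r ^ (R.filter (τ < ‖·‖)).card ≤ ‖(R.map (x - ·)).prod‖ := by
  induction R using Multiset.induction_on with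
  | empty => simp
  | cons w R ih =>
    have ih := ih fun v hv => hR v (Multiset.mem_cons_of_mem hv)
    rw [Multiset.map_cons, Multiset.prod_cons, norm_mul, Multiset.card_cons]
    by_cases h : τ < ‖w‖
    · rw [Multiset.filter_cons_of_pos (p := fun x : ℂ => τ < ‖x‖) _ h, Multiset.card_cons]
      have := hR w (Multiset.mem_cons_self _ _) h
      calc _ = (κ * r) * (κ ^ R.card * r ^ (R.filter (τ < ‖·‖)).card) := by ring
        _ ≤ _ := by gcongr; nlinarith
    · rw [Multiset.filter_cons_of_neg (p := fun x : ℂ => τ < ‖x‖) _ h]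
      have := hs w (not_lt.1 h)
      calc _ = κ * (κ ^ R.card * r ^ (R.filter (τ < ‖·‖)).card) := by ring
        _ ≤ _ := by gcongr

lemma prod_big {τ : ℝ} (hτ : 0 ≤ τ) (R : Multiset ℂ) :
    τ ^ (R.filter (τ < ‖·‖)).card ≤ (R.map fun a => max 1 ‖a‖).prod := by
  induction R using Multiset.induction_on with
  | empty => simp
  | cons w R ih =>
    rw [Multiset.map_cons, Multiset.prod_cons]
    by_cases h : τ < ‖w‖
    · rw [Multiset.filter_cons_of_pos (p := fun x : ℂ => τ < ‖x‖) _ h, Multiset.card_cons, pow_succ']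
      gcongr
      exact h.le.trans (le_max_right _ _)
    · rw [Multiset.filter_cons_of_neg (p := fun x : ℂ => τ < ‖x‖) _ h]
      exact ih.trans (le_mul_of_one_le_left ((pow_nonneg hτ _).trans ih) (le_max_left _ _))

lemma bad_cover {α0 : ℝ} (h0 : 1 < α0) (h02 : α0 ≤ 2) : ∃ ρ > 0, ∃ k : ℕ, ∀ (m d : ℕ) (c : ℕ → ℤ),
    d ≤ m → (∀ j, |c j| ≤ 1) → |c d| = 1 →
    volume {α : ℝ | α0 ≤ α ∧ |∑ j ∈ range (d + 1), (c j : ℝ) * α ^ j| < ρ ^ m} ≤
      ENNReal.ofReal (k * (4 * (1 / 5) ^ m)) := by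
  set β := (1 + α0) / 2 with hβ
  have β1 : 1 < β := by linarith
  have β2 : β ≤ 2 := by linarith
  have x1 : 1 < α0 / β := by rw [lt_div_iff₀ (by linarith)]; linarith
  have x2 : α0 / β ≤ 2 := by rw [div_le_iff₀ (by linarith)]; linarith
  set τ := (1 + α0 / β) / 2 with hτ
  have τ1 : 1 < τ := by linarith
  set κ := α0 / β - τ with hκ
  have κ0 : 0 < κ := by linarith
  have κ1 : κ ≤ 1 := by linarith
  obtain ⟨k, hk⟩ := ((tendsto_pow_atTop_atTop_of_one_lt τ1).eventually_gt_atTop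
    (β / (β - 1))).exists
  refine ⟨κ * (1 / 5) ^ k, by positivity, k, fun m d c hd c1 c2 => ?_⟩
  set p : ℂ[X] := ∑ j ∈ range (d + 1), monomial j ((c j * β ^ j / β ^ d : ℝ) : ℂ) with hp
  have hβd : 0 < β ^ d := by positivity
  have co : ∀ j, p.coeff j = if j < d + 1 then ((c j * β ^ j / β ^ d : ℝ) : ℂ) else 0 := by
    intro j
    simp only [hp, finsetSum_coeff, coeff_monomial, sum_ite_eq', mem_range]
  have cd : ‖p.coeff d‖ = 1 := by
    rw [co, if_pos (by omega), mul_div_assoc, div_self hβd.ne', mul_one, Complex.norm_real,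
      Real.norm_eq_abs]
    exact_mod_cast c2
  have deg : p.natDegree = d := by
    refine natDegree_eq_of_le_of_coeff_ne_zero (natDegree_le_iff_coeff_eq_zero.2 fun j hj => ?_) ?_
    · rw [co, if_neg (by omega)]
    · intro h; rw [h] at cd; simp at cd
  have lc : ‖p.leadingCoeff‖ = 1 := by rw [leadingCoeff, deg, cd]
  have card : p.roots.card = d := by rw [← deg]; exact (IsAlgClosed.splits p).natDegree_eq_card_roots.symm
  have big : (p.roots.filter (τ < ‖·‖)).card ≤ k := by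
    have a1 := prod_big (τ := τ) (by linarith) p.roots
    have a2 := mahlerMeasure_eq_leadingCoeff_mul_prod_roots p
    have a3 := mahlerMeasure_le_sum_norm_coeff p
    rw [lc, one_mul] at a2
    rw [sum_over_range _ (by simp), deg] at a3
    have a4 : ∑ j ∈ range (d + 1), ‖p.coeff j‖ ≤ β / (β - 1) := by
      calc _ ≤ ∑ j ∈ range (d + 1), β ^ j / β ^ d := by
            refine sum_le_sum fun j hj => ?_
            rw [co, if_pos (mem_range.1 hj), Complex.norm_real, Real.norm_eq_abs, mul_div_assoc,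
              abs_mul, abs_of_pos (by positivity : 0 < β ^ j / β ^ d)]
            have : |(c j : ℝ)| ≤ 1 := by exact_mod_cast c1 j
            exact mul_le_of_le_one_left (by positivity) this
        _ ≤ _ := by
            rw [← sum_div, div_le_div_iff₀ hβd (by linarith), geom_sum_mul, pow_succ]
            linarith
    have : τ ^ (p.roots.filter (τ < ‖·‖)).card < τ ^ k := by linarith
    exact ((pow_lt_pow_iff_right₀ τ1).1 this).le
  have sub : {α : ℝ | α0 ≤ α ∧ |∑ j ∈ range (d + 1), (c j : ℝ) * α ^ j| < (κ * (1 / 5) ^ k) ^ m} ⊆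
      ⋃ w ∈ (p.roots.filter (τ < ‖·‖)).toFinset, Metric.ball (β * w.re) (2 * (1 / 5) ^ m) := by
    rintro α ⟨a1, a2⟩
    by_contra hcon
    simp only [Set.mem_iUnion, not_exists, Multiset.mem_toFinset, Multiset.mem_filter,
      Metric.mem_ball, Real.dist_eq, not_lt] at hcon
    have xa : α0 / β ≤ α / β := by gcongr
    have low := prod_low (x := ((α / β : ℝ) : ℂ)) (τ := τ) (r := (1 / 5) ^ m) κ0.le κ1
      (by positivity) (fun w hw => by
        have := norm_sub_norm_le ((α / β : ℝ) : ℂ) w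
        rw [Complex.norm_real, Real.norm_eq_abs, abs_of_pos (by linarith)] at this
        linarith) p.roots (fun w hw hb => by
        have b1 := hcon w ⟨hw, hb⟩
        have b2 := Complex.abs_re_le_norm (((α / β : ℝ) : ℂ) - w)
        rw [Complex.sub_re, Complex.ofReal_re] at b2
        have b3 : α - β * w.re = β * (α / β - w.re) := by field_simp
        rw [b3, abs_mul, abs_of_pos (by linarith : 0 < β)] at b1
        nlinarith [abs_nonneg (α / β - w.re)])
    have ev := (IsAlgClosed.splits p).eval_eq_prod_roots ((α / β : ℝ) : ℂ)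
    have ev2 : p.eval ((α / β : ℝ) : ℂ) =
        (((∑ j ∈ range (d + 1), (c j : ℝ) * α ^ j) / β ^ d : ℝ) : ℂ) := by
      rw [hp, eval_finsetSum, sum_div, Complex.ofReal_sum]
      refine sum_congr rfl fun j _ => ?_
      rw [eval_monomial, ← Complex.ofReal_pow, ← Complex.ofReal_mul]
      congr 1
      have : β ^ j ≠ 0 := by positivity
      rw [div_pow α β]; field_simp
    have n1 := congrArg norm ev
    rw [norm_mul, lc, one_mul, ev2, Complex.norm_real, Real.norm_eq_abs, abs_div,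
      abs_of_pos hβd] at n1
    rw [← n1, card] at low
    have n2 : |∑ j ∈ range (d + 1), (c j : ℝ) * α ^ j| / β ^ d ≤
        |∑ j ∈ range (d + 1), (c j : ℝ) * α ^ j| :=
      div_le_self (abs_nonneg _) (one_le_pow₀ β1.le)
    have n3 : (κ * (1 / 5) ^ k) ^ m ≤
        κ ^ d * ((1 / 5) ^ m) ^ (p.roots.filter (τ < ‖·‖)).card := by
      rw [mul_pow, ← pow_mul, mul_comm k m, pow_mul]
      have : κ ^ m ≤ κ ^ d := pow_le_pow_of_le_one κ0.le κ1 hd
      have : (((1 : ℝ) / 5) ^ m) ^ k ≤ ((1 / 5) ^ m) ^ (p.roots.filter (τ < ‖·‖)).card :=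
        pow_le_pow_of_le_one (by positivity) (pow_le_one₀ (by norm_num) (by norm_num)) big
      gcongr
    linarith
  refine (measure_mono sub).trans ((measure_biUnion_finset_le _ _).trans ?_)
  simp only [Real.volume_ball, sum_const, nsmul_eq_mul]
  rw [ENNReal.ofReal_mul (Nat.cast_nonneg k), ENNReal.ofReal_natCast,
    show (2 : ℝ) * (2 * (1 / 5) ^ m) = 4 * (1 / 5) ^ m by ring]
  gcongr
  exact_mod_cast (Multiset.toFinset_card_le _).trans big

lemma ae_sep0 {α0 : ℝ} (h0 : 1 < α0) (h02 : α0 ≤ 2) :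
    ∀ᵐ α : ℝ, α0 ≤ α → ∃ A m0, Sep α A m0 := by
  obtain ⟨ρ, hρ, k, hk⟩ := bad_cover h0 h02
  set S : ℕ → Set ℝ := fun m => ⋃ p ∈ (range m).powerset ×ˢ (range m).powerset,
    {α : ℝ | α0 ≤ α ∧ p.1 ≠ p.2 ∧ |val α p.1 - val α p.2| < ρ ^ m} with hS
  have v : ∀ m, volume (S m) ≤ ENNReal.ofReal (4 * k * (4 / 5) ^ m) := by
    intro m
    refine (measure_biUnion_finset_le _ _).trans ?_
    refine (sum_le_card_nsmul _ _ (ENNReal.ofReal (k * (4 * (1 / 5) ^ m))) fun p hp => ?_).trans ?_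
    · obtain ⟨p1, p2⟩ := mem_product.1 hp
      by_cases hne : p.1 = p.2
      · simp [hne]
      obtain ⟨d, hd, c1, c2⟩ := top_coeff (mem_powerset.1 p1) (mem_powerset.1 p2) hne
      refine le_trans (measure_mono fun α hα => ?_) (hk m d _ hd.le (dc_abs p.1 p.2) c1)
      exact ⟨hα.1, by rw [← val_sub c2]; exact hα.2.2⟩
    · rw [card_product, card_powerset, card_range, nsmul_eq_mul, ← ENNReal.ofReal_natCast,
        ← ENNReal.ofReal_mul (Nat.cast_nonneg _)]
      apply le_of_eq; congr 1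
      push_cast
      rw [← mul_pow, show (4 : ℝ) / 5 = (2 * 2) * (1 / 5) by norm_num, mul_pow (2 * 2 : ℝ)]
      ring
  have sm : Summable fun m : ℕ => 4 * (k : ℝ) * (4 / 5) ^ m :=
    (summable_geometric_of_lt_one (by norm_num) (by norm_num)).mul_left _
  have fin : ∑' m, volume (S m) ≠ ⊤ :=
    ne_top_of_le_ne_top sm.tsum_ofReal_ne_top (ENNReal.tsum_le_tsum v)
  filter_upwards [ae_eventually_notMem fin] with α hα h
  obtain ⟨m0, hm⟩ := eventually_atTop.1 hα
  obtain ⟨A, hA⟩ := ((tendsto_pow_atTop_atTop_of_one_lt (h0.trans_le h)).eventually_ge_atTop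
    (1 / ρ)).exists
  refine ⟨A, m0, fun m hm0 F hF F' hF' hne => ?_⟩
  have := hm m hm0
  simp only [hS, Set.mem_iUnion, not_exists] at this
  have h1 := this (F, F') (mem_product.2 ⟨mem_powerset.2 hF, mem_powerset.2 hF'⟩)
  have h2 : ρ ^ m ≤ |val α F - val α F'| := not_lt.1 fun h' => h1 ⟨h, hne, h'⟩
  rw [div_le_iff₀ hρ] at hA
  calc (1 : ℝ) ≤ (α ^ A * ρ) ^ m := one_le_pow₀ hA
    _ = ρ ^ m * α ^ (A * m) := by rw [mul_pow, pow_mul]; ring
    _ ≤ _ := by gcongr; exact pow_nonneg (by linarith) _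

lemma ae_sep : ∀ᵐ α : ℝ, 1 < α → ∃ A m0, Sep α A m0 := by
  have : ∀ n : ℕ, ∀ᵐ α : ℝ, 1 + 1 / ((n : ℝ) + 1) ≤ α → ∃ A m0, Sep α A m0 := fun n =>
    ae_sep0 (by have := Nat.one_div_pos_of_nat (α := ℝ) (n := n); linarith) (by
      have : 1 / ((n : ℝ) + 1) ≤ 1 := by
        rw [div_le_one (by positivity)]; linarith [(Nat.cast_nonneg n : (0 : ℝ) ≤ n)]
      linarith)
  filter_upwards [ae_all_iff.2 this] with α h h1
  obtain ⟨n, hn⟩ := exists_nat_one_div_lt (show 0 < α - 1 by linarith)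
  exact h n (by linarith)

end Pool.Agent.P.MP_0ff3a5_nt
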