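import Pool.Agent.P.MP_0ff3a5_nt.Seq
import Pool.Agent.P.MP_0ff3a5_nt.SepAE
import Pool.Agent.P.MP_0ff3a5_nt.Cert

/-! Almost every `t` is good when the digit sums of `α` have no exact overlaps. -/

namespace Pool.Agent.P.MP_0ff3a5_nt
open Finset Filter MeasureTheory

lemma min_gap {α : ℝ} (hα : 0 < α) (hN : ∀ F F' : Finset ℕ, F ≠ F' → val α F ≠ val α F') (m : ℕ) :
    ∃ Δ > 0, ∀ K, ∀ F ⊆ Ico K (K + m), ∀ F' ⊆ Ico K (K + m), F ≠ F' →
      Δ * α ^ K ≤ |val α F - val α F'| := by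
  have : ∃ Δ > 0, ∀ p ∈ (range m).powerset ×ˢ (range m).powerset, p.1 ≠ p.2 →
      Δ ≤ |val α p.1 - val α p.2| := by
    generalize (range m).powerset ×ˢ (range m).powerset = S
    induction S using Finset.induction_on with
    | empty => exact ⟨1, one_pos, by simp⟩
    | insert p S _ ih =>
      obtain ⟨Δ, h0, h⟩ := ih
      by_cases hp : p.1 = p.2
      · exact ⟨Δ, h0, fun q hq hne => by
          rcases mem_insert.1 hq with rfl | hq
          exacts [absurd hp hne, h q hq hne]⟩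
      · refine ⟨min Δ |val α p.1 - val α p.2|, lt_min h0 (abs_pos.2 (sub_ne_zero.2 (hN _ _ hp))),
          fun q hq hne => ?_⟩
        rcases mem_insert.1 hq with rfl | hq
        exacts [min_le_right _ _, (min_le_left _ _).trans (h q hq hne)]
  obtain ⟨Δ, h0, h⟩ := this
  refine ⟨Δ, h0, fun K F hF F' hF' hne => ?_⟩
  obtain ⟨a1, a2⟩ := unshift hF
  obtain ⟨b1, b2⟩ := unshift hF'
  have := h (F.image (· - K), F'.image (· - K))
    (mem_product.2 ⟨mem_powerset.2 a1, mem_powerset.2 b1⟩)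
    (fun e => hne (by
      have e' : F.image (· - K) = F'.image (· - K) := e
      rw [← a2, ← b2, e']))
  have hp : 0 < α ^ K := pow_pos hα K
  rw [← a2, ← b2, val_image_add, val_image_add, ← mul_sub, abs_mul, abs_of_pos hp, mul_comm]
  exact mul_le_mul_of_nonneg_left this hp.le

lemma null_Sp' {α a b μ : ℝ} (P : Par α a b μ) {T : ℕ} (h2 : Two α a b μ T)
    (hN : ∀ F F' : Finset ℕ, F ≠ F' → val α F ≠ val α F') :
    ∃ D K1 : ℕ, ∀ (π : Finset ℤ) (K0 : ℕ), K1 ≤ K0 → ∀ T1 : ℝ,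
      volume {t | 1 ≤ t ∧ t ≤ T1 ∧ Sp α a b π D K0 t} = 0 := by
  have h1 := P.h1
  have h2' := P.h2
  have hμ := P.hμ
  set D := 2 * (T + 1) * (2 ^ (T + 1) + 1) with hD
  have tt := tendsto_pow_atTop_atTop_of_one_lt h1
  have c1 : 0 < μ * (α - 1) := mul_pos hμ (by linarith)
  have c2 : 0 < (2 - α) * μ := mul_pos (by linarith) hμ
  obtain ⟨K1, hK1⟩ := eventually_atTop.1
    (((tt.const_mul_atTop hμ).eventually_ge_atTop ((T : ℝ) + 1 + D)).and
    (((tt.const_mul_atTop c1).eventually_ge_atTop 8).and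
    (((tt.const_mul_atTop c2).eventually_ge_atTop 2).and (eventually_ge_atTop 1))))
  refine ⟨D, K1, fun π K0 hK0 T1 => ?_⟩
  obtain ⟨k0, k1, k2, k3⟩ := hK1 K0 hK0
  obtain ⟨B, hB0, hB⟩ := code_seq P h2 le_rfl k0 k3 k1 k2 π T1
  refine null_of_real (measure_ne_top_of_subset (s := Set.Icc 1 T1) (fun t ht => ⟨ht.1, ht.2.1⟩)
    (by simp)) (C := B * (2 * α)) ?_
  filter_upwards [eventually_ge_atTop 1] with r' hr'
  obtain ⟨r, rfl⟩ : ∃ r, r' = r + 1 := ⟨r' - 1, by omega⟩
  set m := (r + 1) * (T + 1) with hm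
  obtain ⟨Δ, hΔ, hG⟩ := min_gap (by linarith) hN m
  obtain ⟨j, j1, j2, j3⟩ := ((eventually_gt_atTop T).and
    (((tt.const_mul_atTop hΔ).eventually_gt_atTop (m : ℝ)).and
    ((tt.const_mul_atTop hμ).eventually_ge_atTop (m : ℝ)))).exists
  set K := K0 + j with hKd
  have hjK : α ^ j ≤ α ^ K := pow_le_pow_right₀ h1.le (by omega)
  obtain ⟨ι, _, hι, f, hf⟩ := hB j j1
  obtain ⟨K', hK''⟩ : ∃ K', K = K' + 1 := ⟨K - 1, by omega⟩
  have hp : 0 < α ^ K' := pow_pos (by linarith) _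
  have main := code_bound_real (κ := Fin (r + 1) → Bool) (fun p : VV α a b π D K0 T1 K => p.1.1) f
    (r := 1 / α ^ K') (by positivity) (fun p q e => by
      have := close_of_s ((hf p q e).1 K' (by omega))
      rwa [← sub_mul, abs_mul, abs_of_pos hp, ← le_div_iff₀ hp] at this)
    {t | 1 ≤ t ∧ t ≤ T1 ∧ Sp α a b π D K0 t} (by
      rintro t ht
      obtain ⟨y, hy⟩ := (ht.2.2 (K + m) (by omega)).1
      obtain ⟨g, hg, hg'⟩ := h2.br.many P r K hy.1
      have hc : ((K + m - K : ℕ) : ℝ) ≤ μ * α ^ K := by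
        rw [Nat.add_sub_cancel_left]; nlinarith
      refine ⟨fun c => ⟨(t, y - ∑ k ∈ g c, s α t k), ht,
        hy.desc ht.1 (by omega) (hg' c).1 hc (hg' c).2⟩, fun _ => rfl, fun c d e => hg ?_⟩
      by_contra hne
      have e1 := (hf _ _ e).2
      simp only at e1
      have e2 : ((∑ k ∈ g c, s α t k : ℤ) : ℝ) = ((∑ k ∈ g d, s α t k : ℤ) : ℝ) := by
        exact_mod_cast (by linarith : ∑ k ∈ g c, s α t k = ∑ k ∈ g d, s α t k)
      have a1 := sum_s_le α t (g c)
      have a2 := le_sum_s α t (g c)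
      have a3 := sum_s_le α t (g d)
      have a4 := le_sum_s α t (g d)
      have a5 : ((g c).card : ℝ) ≤ m := by
        exact_mod_cast (card_le_card (hg' c).1).trans (by simp [hm])
      have a6 : ((g d).card : ℝ) ≤ m := by
        exact_mod_cast (card_le_card (hg' d).1).trans (by simp [hm])
      have a7 : |t * (val α (g c) - val α (g d))| ≤ m := by
        rw [abs_le]; constructor <;> nlinarith
      have a8 : |val α (g c) - val α (g d)| ≤ m := by
        rw [abs_mul, abs_of_pos (by linarith [ht.1] : 0 < t)] at a7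
        nlinarith [ht.1, abs_nonneg (val α (g c) - val α (g d))]
      have a9 := hG K _ (hg' c).1 _ (hg' d).1 hne
      nlinarith)
  simp only [Fintype.card_fun, Fintype.card_bool, Fintype.card_fin] at main
  push_cast at main
  refine main.trans ?_
  have b2 : α ^ j ≤ α ^ K' * α := by rw [← pow_succ, ← hK'']; exact hjK
  calc _ ≤ B * α ^ j * (2 * (1 / α ^ K')) := by gcongr
    _ = B * (2 * (α ^ j / α ^ K')) := by ring
    _ ≤ _ := by
      gcongr
      rw [div_le_iff₀ hp]; linarith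

theorem partA' {α a b μ : ℝ} (P : Par α a b μ) {T : ℕ} (h2 : Two α a b μ T)
    (hN : ∀ F F' : Finset ℕ, F ≠ F' → val α F ≠ val α F') : ∀ᵐ t : ℝ, 0 < t → Good t α := by
  have h1 := P.h1
  obtain ⟨D, K1, hD⟩ := null_Sp' P h2 hN
  have a1 : ∀ᵐ t : ℝ, ∀ d : ℕ, 1 ≤ d → ∀ N, ∃ n ≥ N, s α t n ≡ 1 [ZMOD d] := by
    refine ae_all_iff.2 fun d => ?_
    by_cases hd : 1 ≤ d
    · filter_upwards [ae_all_iff.2 fun N => ae_residue α h1 d N hd] with t ht _ using ht
    · exact Eventually.of_forall fun t h => absurd h hd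
  have a2 : ∀ᵐ t : ℝ, ∀ (π : Finset ℤ) (K T1 : ℕ),
      ¬ (1 ≤ t ∧ t ≤ T1 ∧ Sp α a b π D (K1 + K) t) := by
    refine ae_all_iff.2 fun π => ae_all_iff.2 fun K => ae_all_iff.2 fun T1 => ?_
    rw [ae_iff]
    simpa using hD π (K1 + K) (by omega) T1
  have a3 : ∀ᵐ t : ℝ, 1 ≤ t → 2 ≤ (2 - α) * (t - 1) → IC α t := by
    filter_upwards [a1, a2] with t t1 t2 ht1 ht
    by_contra hc
    obtain ⟨π, hπ⟩ := pattern P ht1 ht t1 hc D
    obtain ⟨K, hK⟩ := eventually_atTop.1 hπ
    exact t2 π K ⌈t⌉₊ ⟨ht1, Nat.le_ceil _, fun n hn => hK n (by omega)⟩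
  have a4 : ∀ᵐ t : ℝ, ∀ N : ℕ, 1 ≤ t * α ^ N → 2 ≤ (2 - α) * (t * α ^ N - 1) →
      IC α (t * α ^ N) := by
    refine ae_all_iff.2 fun N => ?_
    have hp : α ^ N ≠ 0 := (pow_pos (by linarith) N).ne'
    have q : Measure.QuasiMeasurePreserving (fun t : ℝ => t * α ^ N) volume volume :=
      ⟨by fun_prop, by rw [Real.map_volume_mul_right hp]; exact Measure.smul_absolutelyContinuous⟩
    exact q.ae a3
  filter_upwards [a4] with t ht ht0
  have tt : Tendsto (fun N : ℕ => t * α ^ N) atTop atTop :=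
    (tendsto_pow_atTop_atTop_of_one_lt h1).const_mul_atTop ht0
  obtain ⟨N, n1, n2⟩ := ((tt.eventually_ge_atTop (2 / (2 - α) + 1)).and
    (tt.eventually_ge_atTop (1 / (α - 1)))).exists
  have h2' : 0 < 2 - α := by linarith [P.h2]
  rw [div_le_iff₀ (by linarith)] at n2
  have n3 : 2 / (2 - α) ≤ t * α ^ N - 1 := by linarith
  have n4 : 0 < 2 / (2 - α) := by positivity
  rw [div_le_iff₀ h2'] at n3
  exact good_of_IC h1 N (by linarith) (ht N (by linarith) (by linarith))

open Polynomial in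
lemma no_overlap {α : ℝ} (h : ∀ p : ℤ[X], p ≠ 0 → (∀ i, |p.coeff i| ≤ 1) → aeval α p ≠ 0)
    (F F' : Finset ℕ) (hne : F ≠ F') : val α F ≠ val α F' := by
  obtain ⟨d, -, c1, c2⟩ := top_coeff (m := (F ∪ F').sup id + 1)
    (fun k hk => mem_range.2 (Nat.lt_succ_of_le (le_sup (f := id) (mem_union_left F' hk))))
    (fun k hk => mem_range.2 (Nat.lt_succ_of_le (le_sup (f := id) (mem_union_right F hk)))) hne
  have co : ∀ i, (∑ k ∈ range (d + 1), monomial k (dc F F' k) : ℤ[X]).coeff i =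
      if i ∈ range (d + 1) then dc F F' i else 0 := by
    intro i
    simp only [finsetSum_coeff, coeff_monomial]
    exact sum_ite_eq' _ _ _
  have := h (∑ k ∈ range (d + 1), monomial k (dc F F' k)) (fun e => by
      have := co d
      rw [e, if_pos (self_mem_range_succ d), coeff_zero] at this
      rw [← this] at c1; simp at c1) (fun i => by
      rw [co]; split_ifs
      exacts [dc_abs _ _ _, by simp])
  rw [← sub_ne_zero, val_sub c2]
  simpa [aeval_monomial] using this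

end Pool.Agent.P.MP_0ff3a5_nt
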