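import Pool.Agent.P.MP_0ff3a5_nt.Force

/-! Almost every `t` is good when `α` has the splitting and separation properties. -/

namespace Pool.Agent.P.MP_0ff3a5_nt
open Finset Filter MeasureTheory

/-- exponential separation of digit sums -/
def Sep (α : ℝ) (A m0 : ℕ) : Prop :=
  ∀ m ≥ m0, ∀ F ⊆ range m, ∀ F' ⊆ range m, F ≠ F' → 1 ≤ |val α F - val α F'| * α ^ (A * m)

lemma unshift {F : Finset ℕ} {K m : ℕ} (hF : F ⊆ Ico K (K + m)) :
    F.image (· - K) ⊆ range m ∧ (F.image (· - K)).image (· + K) = F := by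
  constructor
  · intro k hk
    obtain ⟨l, hl, rfl⟩ := mem_image.1 hk
    have := mem_Ico.1 (hF hl)
    exact mem_range.2 (by omega)
  · rw [image_image]
    refine (image_congr (g := id) fun k hk => ?_).trans image_id
    have := mem_Ico.1 (hF hk)
    simp only [Function.comp, id]; omega

lemma Sep.shift {α : ℝ} (hα : 0 < α) {A m0 : ℕ} (h : Sep α A m0) {K m : ℕ} (hm : m0 ≤ m)
    {F F' : Finset ℕ} (hF : F ⊆ Ico K (K + m)) (hF' : F' ⊆ Ico K (K + m)) (hne : F ≠ F') :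
    α ^ K ≤ |val α F - val α F'| * α ^ (A * m) := by
  obtain ⟨a1, a2⟩ := unshift hF
  obtain ⟨b1, b2⟩ := unshift hF'
  have := h m hm _ a1 _ b1 (fun e => hne (by rw [← a2, ← b2, e]))
  have hp : 0 < α ^ K := pow_pos hα K
  rw [← a2, ← b2, val_image_add, val_image_add, ← mul_sub, abs_mul, abs_of_pos hp, mul_assoc]
  exact le_mul_of_one_le_right hp.le this

lemma code_bound_real {V ι κ : Type} [Fintype ι] [Fintype κ] (pr : V → ℝ) (f : V → ι) {r : ℝ}
    (hr : 0 ≤ r) (hf : ∀ p q, f p = f q → |pr p - pr q| ≤ r) (E : Set ℝ)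
    (hE : ∀ t ∈ E, ∃ g : κ → V, (∀ c, pr (g c) = t) ∧ Function.Injective (f ∘ g)) :
    (Fintype.card κ : ℝ) * (volume E).toReal ≤ Fintype.card ι * (2 * r) := by
  have := ENNReal.toReal_mono (ENNReal.mul_ne_top (by simp) ENNReal.ofReal_ne_top)
    (code_bound pr f r hf E hE)
  rwa [ENNReal.toReal_mul, ENNReal.toReal_mul, ENNReal.toReal_ofReal (show 0 ≤ 2 * r by linarith),
    ENNReal.toReal_natCast, ENNReal.toReal_natCast] at this

lemma null_of_real {E : Set ℝ} (hE : volume E ≠ ⊤) {C : ℝ}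
    (h : ∀ᶠ j : ℕ in atTop, (2 : ℝ) ^ j * (volume E).toReal ≤ C) : volume E = 0 := by
  by_contra h0
  have hv : 0 < (volume E).toReal := ENNReal.toReal_pos h0 hE
  have : Tendsto (fun j : ℕ => (2 : ℝ) ^ j * (volume E).toReal) atTop atTop :=
    (tendsto_pow_atTop_atTop_of_one_lt one_lt_two).atTop_mul_const hv
  obtain ⟨j, h1, h2⟩ := (h.and (this.eventually_gt_atTop C)).exists
  linarith

lemma ev_lin_lt {α c : ℝ} (h1 : 1 < α) (hc : 0 < c) : ∀ᶠ n : ℕ in atTop, (n : ℝ) < c * α ^ n := by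
  filter_upwards [(tendsto_pow_const_div_const_pow_of_one_lt 1 h1).eventually_lt_const hc] with n h
  rwa [pow_one, div_lt_iff₀ (pow_pos (by linarith) n)] at h

lemma null_Sp {α a b μ : ℝ} (P : Par α a b μ) {T A m0 : ℕ} (h2 : Two α a b μ T)
    (hS : Sep α A m0) : ∃ D K1 : ℕ, ∀ (π : Finset ℤ) (K0 : ℕ), K1 ≤ K0 → ∀ T1 : ℝ,
      volume {t | 1 ≤ t ∧ t ≤ T1 ∧ Sp α a b π D K0 t} = 0 := by
  have h1 := P.h1
  have hμ := P.hμ
  have hb : 1 ≤ b := by linarith [P.wide, P.ha]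
  set C : ℝ := (2 * b / μ + 1) * 3 ^ T with hC
  have hC0 : 0 < C := by positivity
  obtain ⟨h, hh, hh1⟩ := (((tendsto_pow_atTop_atTop_of_one_lt (one_lt_two (α := ℝ))).eventually_ge_atTop
    (2 * C)).and (eventually_ge_atTop 1)).exists
  set L := (A + 1) * (h * (T + 1)) with hL
  have hTL : T < L := by
    have : T + 1 ≤ h * (T + 1) := Nat.le_mul_of_pos_left _ hh1
    have : h * (T + 1) ≤ L := Nat.le_mul_of_pos_left _ (by omega)
    omega
  set D := ⌈2 * (L : ℝ) + 2 * b⌉₊ with hD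
  obtain ⟨K1, hK, hK1⟩ := (((tendsto_pow_atTop_atTop_of_one_lt h1).eventually_ge_atTop
    (2 * ((L : ℝ) + D) / μ)).and (eventually_ge_atTop 1)).exists
  refine ⟨D, K1, fun π K0 hK0 T1 => ?_⟩
  rw [div_le_iff₀ hμ] at hK
  have hK' : 2 * ((L : ℝ) + D) ≤ μ * α ^ K0 := by
    have : α ^ K1 ≤ α ^ K0 := pow_le_pow_right₀ h1.le hK0
    nlinarith
  obtain ⟨B, hB0, hB⟩ := code_base P π D K0 T1 K0
  have codes : ∀ j : ℕ, Code α a b π D K0 T1 (K0 + j * L) (B * (C * α ^ L) ^ j) := by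
    intro j
    induction j with
    | zero => simpa using hB
    | succ j ih =>
      have := code_step P h2 hTL (Nat.le_ceil _) hK' (by omega) (by omega) ih
      rwa [show K0 + j * L + L = K0 + (j + 1) * L by ring, mul_assoc, ← pow_succ] at this
  refine null_of_real (measure_ne_top_of_subset (s := Set.Icc 1 T1) (fun t ht => ⟨ht.1, ht.2.1⟩)
    (by simp)) (C := B * (2 * α)) ?_
  obtain ⟨N, hN⟩ := eventually_atTop.1 ((ev_lin_lt h1 hμ).and (ev_lin_lt h1 one_pos))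
  filter_upwards [eventually_ge_atTop (N + m0 + 1)] with j hj
  obtain ⟨r, hr⟩ : ∃ r, j * h = r + 1 := ⟨j * h - 1, by
    have : 1 ≤ j * h := Nat.mul_pos (by omega) hh1
    omega⟩
  set m := (r + 1) * (T + 1) with hm
  have hjm : j ≤ m := by
    have : j ≤ j * h := Nat.le_mul_of_pos_right _ hh1
    have : r + 1 ≤ m := Nat.le_mul_of_pos_right _ (by omega)
    omega
  have hLm : j * L = A * m + m := by rw [hm, ← hr, hL]; ring
  set K := K0 + j * L with hKd
  obtain ⟨ι, _, hι, f, hf⟩ := codes j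
  obtain ⟨K', hK''⟩ : ∃ K', K = K' + 1 := ⟨K - 1, by omega⟩
  have hp : 0 < α ^ K' := pow_pos (by linarith) _
  have main := code_bound_real (κ := Fin (r + 1) → Bool) (fun p : VV α a b π D K0 T1 K => p.1.1) f
    (r := 1 / α ^ K') (by positivity) (fun p q e => by
      have := close_of_s ((hf p q e).1 K' (by omega))
      rwa [← sub_mul, abs_mul, abs_of_pos hp, ← le_div_iff₀ hp] at this)
    {t | 1 ≤ t ∧ t ≤ T1 ∧ Sp α a b π D K0 t} (by
      rintro t ht
      obtain ⟨y, hy⟩ := (ht.2.2 (K + m) (by omega)).1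
      obtain ⟨g, hg, hg'⟩ := h2.br.many P r K hy.1
      have hc : ((K + m - K : ℕ) : ℝ) ≤ μ * α ^ K := by
        have : ((K + m - K : ℕ) : ℝ) ≤ K := by exact_mod_cast (by omega : K + m - K ≤ K)
        linarith [(hN K (by omega)).1]
      refine ⟨fun c => ⟨(t, y - ∑ k ∈ g c, s α t k), ht,
        hy.desc ht.1 (by omega) (hg' c).1 hc (hg' c).2⟩, fun _ => rfl, fun c d e => hg ?_⟩
      by_contra hne
      have e1 := (hf _ _ e).2
      simp only at e1
      have e2 : ((∑ k ∈ g c, s α t k : ℤ) : ℝ) = ((∑ k ∈ g d, s α t k : ℤ) : ℝ) := by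
        exact_mod_cast (by linarith : ∑ k ∈ g c, s α t k = ∑ k ∈ g d, s α t k)
      have a1 := sum_s_le α t (g c)
      have a2 := le_sum_s α t (g c)
      have a3 := sum_s_le α t (g d)
      have a4 := le_sum_s α t (g d)
      have a5 : ((g c).card : ℝ) ≤ m := by
        exact_mod_cast (card_le_card (hg' c).1).trans (by simp [hm])
      have a6 : ((g d).card : ℝ) ≤ m := by
        exact_mod_cast (card_le_card (hg' d).1).trans (by simp [hm])
      have a7 : |t * (val α (g c) - val α (g d))| ≤ m := by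
        rw [abs_le]; constructor <;> nlinarith
      have a8 : |val α (g c) - val α (g d)| ≤ m := by
        rw [abs_mul, abs_of_pos (by linarith [ht.1] : 0 < t)] at a7
        nlinarith [ht.1, abs_nonneg (val α (g c) - val α (g d))]
      have a9 := hS.shift (by linarith) (by omega : m0 ≤ m) (hg' c).1 (hg' d).1 hne
      have a10 : α ^ (A * m) * α ^ m ≤ α ^ K := by
        rw [← pow_add]; exact pow_le_pow_right₀ h1.le (by omega)
      have a11 := (hN m (by omega)).2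
      have a12 : 0 < α ^ (A * m) := pow_pos (by linarith) _
      nlinarith)
  simp only [Fintype.card_fun, Fintype.card_bool, Fintype.card_fin, ← hr] at main
  push_cast at main
  set v := (volume {t | 1 ≤ t ∧ t ≤ T1 ∧ Sp α a b π D K0 t}).toReal
  have hv : 0 ≤ v := ENNReal.toReal_nonneg
  have b1 : (2 * C) ^ j ≤ (2 : ℝ) ^ (j * h) := by
    rw [mul_comm j h, pow_mul]; gcongr
  have b2 : (α ^ L) ^ j ≤ α ^ K' * α := by
    rw [← pow_mul, ← pow_succ, ← hK'']; exact pow_le_pow_right₀ h1.le (by rw [mul_comm]; omega)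
  have b3 : (Fintype.card ι : ℝ) * (2 * (1 / α ^ K')) ≤ C ^ j * (B * (2 * α)) := by
    calc _ ≤ B * (C * α ^ L) ^ j * (2 * (1 / α ^ K')) := by gcongr
      _ = C ^ j * (B * (2 * ((α ^ L) ^ j / α ^ K'))) := by rw [mul_pow]; ring
      _ ≤ _ := by
        gcongr
        rw [div_le_iff₀ hp]; linarith
  have b4 : C ^ j * (2 ^ j * v) ≤ C ^ j * (B * (2 * α)) := by
    calc _ = (2 * C) ^ j * v := by rw [mul_pow 2 C]; ring
      _ ≤ 2 ^ (j * h) * v := by gcongr
      _ ≤ _ := main.trans b3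
  exact le_of_mul_le_mul_left b4 (by positivity)

/-- completeness of the set of values -/
def Good (t α : ℝ) : Prop :=
  ∃ N : ℤ, ∀ m ≥ N, ∃ F : Finset ℤ, (∀ x ∈ F, ∃ n : ℕ, x = ⌊t * α ^ n⌋) ∧ ∑ x ∈ F, x = m

lemma good_of_IC {α t : ℝ} (h1 : 1 < α) (N : ℕ) (ht : 1 ≤ (α - 1) * (t * α ^ N))
    (h : IC α (t * α ^ N)) : Good t α := by
  obtain ⟨M, hM⟩ := h
  refine ⟨M, fun m hm => ?_⟩
  obtain ⟨F, hF⟩ := hM m hm
  have mono : StrictMono (s α (t * α ^ N)) := by
    refine strictMono_nat_of_lt_succ fun n => ?_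
    have a3 : 1 ≤ α ^ n := one_le_pow₀ h1.le
    have : s α (t * α ^ N) n + 1 ≤ s α (t * α ^ N) (n + 1) := by
      rw [s, s, ← Int.floor_add_one]
      exact Int.floor_mono (by rw [pow_succ]; nlinarith)
    omega
  refine ⟨F.image (s α (t * α ^ N)), fun x hx => ?_, ?_⟩
  · obtain ⟨k, -, rfl⟩ := mem_image.1 hx
    exact ⟨N + k, by rw [s, pow_add, mul_assoc]⟩
  · rw [sum_image fun x _ y _ e => mono.injective e, hF]

theorem partA {α a b μ : ℝ} (P : Par α a b μ) {T A m0 : ℕ} (h2 : Two α a b μ T)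
    (hS : Sep α A m0) : ∀ᵐ t : ℝ, 0 < t → Good t α := by
  have h1 := P.h1
  obtain ⟨D, K1, hD⟩ := null_Sp P h2 hS
  have a1 : ∀ᵐ t : ℝ, ∀ d : ℕ, 1 ≤ d → ∀ N, ∃ n ≥ N, s α t n ≡ 1 [ZMOD d] := by
    refine ae_all_iff.2 fun d => ?_
    by_cases hd : 1 ≤ d
    · filter_upwards [ae_all_iff.2 fun N => ae_residue α h1 d N hd] with t ht _ using ht
    · exact Eventually.of_forall fun t h => absurd h hd
  have a2 : ∀ᵐ t : ℝ, ∀ (π : Finset ℤ) (K T1 : ℕ),
      ¬ (1 ≤ t ∧ t ≤ T1 ∧ Sp α a b π D (K1 + K) t) := by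
    refine ae_all_iff.2 fun π => ae_all_iff.2 fun K => ae_all_iff.2 fun T1 => ?_
    rw [ae_iff]
    simpa using hD π (K1 + K) (by omega) T1
  have a3 : ∀ᵐ t : ℝ, 1 ≤ t → 2 ≤ (2 - α) * (t - 1) → IC α t := by
    filter_upwards [a1, a2] with t t1 t2 ht1 ht
    by_contra hc
    obtain ⟨π, hπ⟩ := pattern P ht1 ht t1 hc D
    obtain ⟨K, hK⟩ := eventually_atTop.1 hπ
    exact t2 π K ⌈t⌉₊ ⟨ht1, Nat.le_ceil _, fun n hn => hK n (by omega)⟩
  have a4 : ∀ᵐ t : ℝ, ∀ N : ℕ, 1 ≤ t * α ^ N → 2 ≤ (2 - α) * (t * α ^ N - 1) →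
      IC α (t * α ^ N) := by
    refine ae_all_iff.2 fun N => ?_
    have hp : α ^ N ≠ 0 := (pow_pos (by linarith) N).ne'
    have q : Measure.QuasiMeasurePreserving (fun t : ℝ => t * α ^ N) volume volume :=
      ⟨by fun_prop, by rw [Real.map_volume_mul_right hp]; exact Measure.smul_absolutelyContinuous⟩
    exact q.ae a3
  filter_upwards [a4] with t ht ht0
  have tt : Tendsto (fun N : ℕ => t * α ^ N) atTop atTop :=
    (tendsto_pow_atTop_atTop_of_one_lt h1).const_mul_atTop ht0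
  obtain ⟨N, n1, n2⟩ := ((tt.eventually_ge_atTop (2 / (2 - α) + 1)).and
    (tt.eventually_ge_atTop (1 / (α - 1)))).exists
  have h2' : 0 < 2 - α := by linarith [P.h2]
  rw [div_le_iff₀ (by linarith)] at n2
  have n3 : 2 / (2 - α) ≤ t * α ^ N - 1 := by linarith
  have n4 : 0 < 2 / (2 - α) := by positivity
  rw [div_le_iff₀ h2'] at n3
  exact good_of_IC h1 N (by linarith) (ht N (by linarith) (by linarith))

end Pool.Agent.P.MP_0ff3a5_nt
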