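import Pool.Agent.P.MP_0ff3a5_nt.Basic

/-! Integer side: missing numbers and separated persistent patterns. -/

namespace Pool.Agent.P.MP_0ff3a5_nt
open Finset Filter

noncomputable def s (α t : ℝ) (n : ℕ) : ℤ := ⌊t * α ^ n⌋

def Miss (u : ℕ → ℤ) (K : ℕ) (y : ℤ) : Prop := ∀ F ⊆ range K, ∑ k ∈ F, u k ≠ y

def MP (u : ℕ → ℤ) (π : Finset ℤ) (K : ℕ) (y : ℤ) : Prop := ∀ p ∈ π, Miss u K (y + p)

def Vd (α a b t : ℝ) (π : Finset ℤ) (n : ℕ) (y : ℤ) : Prop :=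
  Blk α a b n (y / t) ∧ MP (s α t) π n y

/-- completeness with index sets -/
def IC (α t : ℝ) : Prop := ∃ N : ℤ, ∀ m ≥ N, ∃ F : Finset ℕ, ∑ k ∈ F, s α t k = m

lemma MP.desc {u : ℕ → ℤ} {π : Finset ℤ} {i n : ℕ} {y : ℤ} (h : MP u π n y) (hin : i ≤ n)
    {F : Finset ℕ} (hF : F ⊆ Ico i n) : MP u π i (y - ∑ k ∈ F, u k) := by
  intro p hp G hG e
  have hG' : G ⊆ Ico 0 i := by rwa [← range_eq_Ico]
  refine h p hp (F ∪ G) ?_ ?_
  · rw [range_eq_Ico]; exact union_Ico (by omega) hin hF hG'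
  · rw [sum_union (disj_Ico hF hG'), e]; ring

lemma MP.congr {u u' : ℕ → ℤ} {π : Finset ℤ} {i : ℕ} {y : ℤ} (h : MP u π i y)
    (e : ∀ k < i, u k = u' k) : MP u' π i y := by
  intro p hp G hG
  rw [← sum_congr rfl fun k hk => e k (mem_range.1 (hG hk))]
  exact h p hp G hG

lemma sum_s_le (α t : ℝ) (F : Finset ℕ) : ((∑ k ∈ F, s α t k : ℤ) : ℝ) ≤ t * val α F := by
  rw [val, mul_sum]; push_cast
  exact sum_le_sum fun k _ => Int.floor_le _

lemma le_sum_s (α t : ℝ) (F : Finset ℕ) :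
    t * val α F - F.card ≤ ((∑ k ∈ F, s α t k : ℤ) : ℝ) := by
  rw [val, mul_sum, card_eq_sum_ones]; push_cast
  rw [← sum_sub_distrib]
  exact sum_le_sum fun k _ => (Int.sub_one_lt_floor _).le

lemma blk_of_close {α a b μ t w v : ℝ} {i : ℕ} (ht : 0 < t) (h : Blk α (a + μ) (b - μ) i w)
    (hv : |v - t * w| ≤ t * (μ * α ^ i)) : Blk α a b i (v / t) := by
  obtain ⟨h1, h2⟩ := h
  obtain ⟨h3, h4⟩ := abs_le.1 hv
  constructor
  · rw [le_div_iff₀ ht]; nlinarith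
  · rw [div_le_iff₀ ht]; nlinarith

lemma Vd.desc {α a b μ t : ℝ} {π : Finset ℤ} {i n : ℕ} {y : ℤ} (ht : 1 ≤ t) (h : Vd α a b t π n y)
    (hin : i ≤ n) {F : Finset ℕ} (hF : F ⊆ Ico i n) (hc : ((n - i : ℕ) : ℝ) ≤ μ * α ^ i)
    (hb : Blk α (a + μ) (b - μ) i (y / t - val α F)) :
    Vd α a b t π i (y - ∑ k ∈ F, s α t k) := by
  refine ⟨blk_of_close (by linarith) hb ?_, h.2.desc hin hF⟩
  have h1 := sum_s_le α t F
  have h2 := le_sum_s α t F
  have h3 : (F.card : ℝ) ≤ (n - i : ℕ) := by exact_mod_cast (card_le_card hF).trans (by simp)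
  have h4 : t * (y / t - val α F) = y - t * val α F := by field_simp
  have h5 : (0 : ℝ) ≤ (n - i : ℕ) := Nat.cast_nonneg _
  rw [h4, Int.cast_sub, abs_le]
  constructor <;> nlinarith

def Pers (α a b t : ℝ) (π : Finset ℤ) : Prop := ∃ᶠ n in atTop, ∃ y, Vd α a b t π n y

lemma Pers.all {α a b μ t : ℝ} (P : Par α a b μ) (ht : 1 ≤ t) {π : Finset ℤ}
    (h : Pers α a b t π) : ∀ᶠ n in atTop, ∃ y, Vd α a b t π n y := by
  have t1 : ∀ᶠ j : ℕ in atTop, 1 / μ ≤ α ^ j :=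
    (tendsto_pow_atTop_atTop_of_one_lt P.h1).eventually_ge_atTop _
  obtain ⟨K, hK⟩ := eventually_atTop.1 t1
  filter_upwards [eventually_ge_atTop K] with i hi
  obtain ⟨n, hn, hy⟩ := frequently_atTop.1 h i
  induction n, hn using Nat.le_induction with
  | base => exact hy
  | succ n hn ih =>
    obtain ⟨y, hy⟩ := hy
    obtain ⟨F, hF, hb⟩ := P.step n hy.1
    refine ih ⟨_, hy.desc ht (by omega) hF ?_ hb⟩
    have := hK n (by omega)
    rw [div_le_iff₀ P.hμ] at this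
    simp only [add_tsub_cancel_left, Nat.cast_one]; linarith

lemma Par.cover {α a b μ : ℝ} (P : Par α a b μ) (K : ℕ) {x : ℝ} (hx : a * α ^ K ≤ x) :
    ∃ n ≥ K, Blk α a b n x := by
  classical
  have h1 := P.h1
  have ex : ∃ j, x < a * α ^ (K + j + 1) := by
    obtain ⟨j, hj⟩ := ((tendsto_pow_atTop_atTop_of_one_lt h1).eventually_gt_atTop (x / a)).exists
    rw [div_lt_iff₀ P.ha] at hj
    have : α ^ j ≤ α ^ (K + j + 1) := pow_le_pow_right₀ h1.le (by omega)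
    exact ⟨j, by nlinarith [P.ha]⟩
  refine ⟨K + Nat.find ex, by omega, ?_, ?_⟩
  · rcases Nat.eq_zero_or_pos (Nat.find ex) with h | h
    · rw [h]; exact hx
    · have := Nat.find_min ex (m := Nat.find ex - 1) (by omega)
      rw [show K + (Nat.find ex - 1) + 1 = K + Nat.find ex by omega] at this
      exact not_lt.1 this
  · have := Nat.find_spec ex
    rw [pow_succ] at this
    have hp : 0 < α ^ (K + Nat.find ex) := pow_pos (by linarith) _
    nlinarith [P.mul]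

lemma pers_zero {α a b μ t : ℝ} (P : Par α a b μ) (ht : 1 ≤ t) (h : ¬ IC α t) :
    Pers α a b t {0} := by
  by_contra hc
  rw [Pers, not_frequently] at hc
  obtain ⟨K, hK⟩ := eventually_atTop.1 hc
  refine h ⟨⌈a * α ^ K * t⌉, fun m hm => ?_⟩
  have : a * α ^ K ≤ m / t := by
    rw [le_div_iff₀ (by linarith)]
    exact (Int.le_ceil _).trans (by exact_mod_cast hm)
  obtain ⟨n, hn, hb⟩ := P.cover K this
  by_contra hF
  refine hK n hn ⟨m, hb, fun p hp F _ e => hF ⟨F, ?_⟩⟩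
  rw [mem_singleton.1 hp] at e; simpa using e

lemma synd {u : ℕ → ℤ} (h0 : ∀ n, 0 ≤ u n) (h2 : ∀ n, u (n + 1) ≤ 2 * u n) (N K : ℕ)
    (hK : N ≤ K) : u K ≤ u N + ∑ k ∈ Ico N K, u k ∧
      ∀ y, 0 ≤ y → y ≤ u N + ∑ k ∈ Ico N K, u k →
      ∃ F ⊆ Ico N K, 0 ≤ y - ∑ k ∈ F, u k ∧ y - ∑ k ∈ F, u k ≤ u N := by
  induction K, hK using Nat.le_induction with
  | base => exact ⟨by simp, fun y h1 h2 => ⟨∅, by simp, by simpa using h1, by simpa using h2⟩⟩
  | succ K hK ih =>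
    obtain ⟨i1, i2⟩ := ih
    rw [sum_Ico_succ_top hK]
    refine ⟨by linarith [h2 K], fun y y1 y2 => ?_⟩
    by_cases hc : y ≤ u N + ∑ k ∈ Ico N K, u k
    · obtain ⟨F, hF, h⟩ := i2 y y1 hc
      exact ⟨F, hF.trans (Ico_subset_Ico le_rfl (by omega)), h⟩
    · obtain ⟨F, hF, h⟩ := i2 (y - u K) (by linarith) (by linarith)
      have hn : K ∉ F := fun h => by simpa using hF h
      refine ⟨insert K F, ?_, ?_⟩
      · intro k hk
        rcases mem_insert.1 hk with rfl | hk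
        · exact mem_Ico.2 ⟨hK, by omega⟩
        · have := mem_Ico.1 (hF hk); exact mem_Ico.2 ⟨by omega, by omega⟩
      · rw [sum_insert hn]; constructor <;> linarith [h.1, h.2]

lemma s_nonneg {α t : ℝ} (hα : 0 ≤ α) (ht : 0 ≤ t) (n : ℕ) : 0 ≤ s α t n :=
  Int.floor_nonneg.2 (by positivity)

lemma s_double {α t : ℝ} (h1 : 1 < α) (h2 : α < 2) (ht1 : 1 ≤ t) (ht : 2 ≤ (2 - α) * (t - 1))
    (n : ℕ) : s α t (n + 1) ≤ 2 * s α t n := by
  have a1 : (s α t (n + 1) : ℝ) ≤ t * α ^ (n + 1) := Int.floor_le _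
  have a2 : t * α ^ n < s α t n + 1 := Int.lt_floor_add_one _
  have a3 : 1 ≤ α ^ n := one_le_pow₀ h1.le
  have a4 : t - 1 ≤ s α t n := by nlinarith
  have : (s α t (n + 1) : ℝ) ≤ 2 * s α t n := by rw [pow_succ] at a1; nlinarith
  exact_mod_cast this

lemma no_ap {α a b μ t : ℝ} (P : Par α a b μ) (ht1 : 1 ≤ t) (ht : 2 ≤ (2 - α) * (t - 1))
    {d : ℕ} (hd : 1 ≤ d) (hres : ∀ N, ∃ n ≥ N, s α t n ≡ 1 [ZMOD d]) :
    ∃ L : ℕ, ∀ π : Finset ℤ, (∀ k : ℕ, k ≤ L → (k * d : ℤ) ∈ π) → ¬ Pers α a b t π := by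
  have h1 := P.h1
  have h0 : ∀ n, 0 ≤ s α t n := s_nonneg (by linarith) (by linarith)
  have hinf : {n | s α t n ≡ 1 [ZMOD d]}.Infinite :=
    Nat.frequently_atTop_iff_infinite.1 (frequently_atTop.2 hres)
  obtain ⟨R, hR, hRc⟩ := hinf.exists_subset_card_eq d
  obtain ⟨N, hN⟩ := R.exists_nat_subset_range
  refine ⟨(s α t N + ∑ k ∈ R, s α t k).toNat, fun π hπ => ?_⟩
  rw [Pers, not_frequently]
  have t0 : Tendsto (fun n : ℕ => (n : ℝ) ^ 1 / α ^ n) atTop (nhds 0) :=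
    tendsto_pow_const_div_const_pow_of_one_lt 1 h1
  have hμ := P.hμ
  have t1 : ∀ᶠ n : ℕ in atTop, (n : ℝ) ^ 1 / α ^ n < μ / 2 := t0.eventually_lt_const (by linarith)
  have t2 : ∀ᶠ j : ℕ in atTop, 2 * α ^ N / μ ≤ α ^ j :=
    (tendsto_pow_atTop_atTop_of_one_lt h1).eventually_ge_atTop _
  filter_upwards [t1, t2, eventually_ge_atTop N] with K k1 k2 k3
  rintro ⟨y, ⟨b1, b2⟩, hm⟩
  have hp : 0 < α ^ K := pow_pos (by linarith) K
  rw [pow_one, div_lt_iff₀ hp] at k1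
  rw [div_le_iff₀ hμ] at k2
  rw [le_div_iff₀ (by linarith)] at b1
  rw [div_le_iff₀ (by linarith)] at b2
  have y0 : 0 ≤ y := by
    have : (0 : ℝ) ≤ y := le_trans (by have := P.ha; positivity) b1
    exact_mod_cast this
  have y1 : y ≤ ∑ k ∈ Ico N K, s α t k := by
    have e1 := le_sum_s α t (Ico N K)
    have e2 := geom_Ico (α := α) N K k3
    have e3 : ((Ico N K).card : ℝ) ≤ K := by exact_mod_cast (by simp : (Ico N K).card ≤ K)
    have e4 : (α - 1) * (b * α ^ K * t) ≤ (α - 1) * (t * val α (Ico N K) - K) := by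
      have : (α - 1) * (t * val α (Ico N K)) = t * (α ^ K - α ^ N) := by
        rw [← e2, val]; ring
      have h5 : (α - 1) * b * (α ^ K * t) ≤ (1 - μ) * (α ^ K * t) := by
        have := P.hi; gcongr
      have h6 : (α - 1) * K ≤ K := by
        have : (0 : ℝ) ≤ K := Nat.cast_nonneg _
        nlinarith [P.h2]
      have h7 : α ^ N * t ≤ μ / 2 * α ^ K * t := by gcongr; linarith
      have h8 : μ / 2 * α ^ K ≤ μ / 2 * α ^ K * t := by
        have : 0 ≤ μ / 2 * α ^ K := by positivity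
        nlinarith
      nlinarith
    have e5 := le_of_mul_le_mul_left e4 (by linarith)
    have : (y : ℝ) ≤ ((∑ k ∈ Ico N K, s α t k : ℤ) : ℝ) := by linarith
    exact_mod_cast this
  obtain ⟨F, hF, f1, f2⟩ := (synd h0 (s_double h1 P.h2 ht1 ht) N K k3).2 (y + s α t N)
    (by linarith [h0 N]) (by linarith)
  set r := ∑ k ∈ F, s α t k - y with hr
  have hd0 : (0 : ℤ) < d := by exact_mod_cast hd
  have j1 : 0 ≤ (-r) % (d : ℤ) := Int.emod_nonneg _ hd0.ne'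
  have j2 : (-r) % (d : ℤ) < d := Int.emod_lt_of_pos _ hd0
  obtain ⟨G, hG, hGc⟩ := exists_subset_card_eq (s := R) (n := ((-r) % (d : ℤ)).toNat) (by omega)
  have g1 : ∑ k ∈ G, s α t k ≡ ∑ k ∈ G, (1 : ℤ) [ZMOD d] :=
    Int.ModEq.sum fun k hk => hR (hG hk)
  have g2 : ∑ k ∈ G, (1 : ℤ) = (-r) % (d : ℤ) := by
    rw [sum_const, hGc]; simp only [nsmul_eq_mul, mul_one]; omega
  have g3 : r + ∑ k ∈ G, s α t k ≡ 0 [ZMOD d] := by
    have : r + ∑ k ∈ G, s α t k ≡ r + -r [ZMOD d] :=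
      (g1.trans (g2 ▸ Int.mod_modEq _ _)).add_left r
    simpa using this
  obtain ⟨c, hc⟩ := (Int.modEq_zero_iff_dvd.1 g3)
  have g4 : 0 ≤ ∑ k ∈ G, s α t k := sum_nonneg fun k _ => h0 k
  have g5 : ∑ k ∈ G, s α t k ≤ ∑ k ∈ R, s α t k :=
    sum_le_sum_of_subset_of_nonneg hG fun k _ _ => h0 k
  have c0 : 0 ≤ c := by
    by_contra h
    have : (d : ℤ) * c < 0 := mul_neg_of_pos_of_neg hd0 (not_le.1 h)
    omega
  have c1 : c ≤ s α t N + ∑ k ∈ R, s α t k := by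
    have : c ≤ (d : ℤ) * c := le_mul_of_one_le_left c0 (by omega)
    omega
  have hG' : G ⊆ Ico 0 N := by rw [← range_eq_Ico]; exact hG.trans hN
  refine hm _ (hπ c.toNat (by omega)) (F ∪ G) ?_ ?_
  · rw [range_eq_Ico]; exact union_Ico (by omega) k3 hF hG'
  · rw [sum_union (disj_Ico hF hG'), Int.toNat_of_nonneg c0]; linarith

lemma pattern {α a b μ t : ℝ} (P : Par α a b μ) (ht1 : 1 ≤ t) (ht : 2 ≤ (2 - α) * (t - 1))
    (hres : ∀ d : ℕ, 1 ≤ d → ∀ N, ∃ n ≥ N, s α t n ≡ 1 [ZMOD d]) (h : ¬ IC α t) (D : ℕ) :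
    ∃ π : Finset ℤ, ∀ᶠ n in atTop, (∃ y, Vd α a b t π n y) ∧
      ∀ y y', Vd α a b t π n y → Vd α a b t π n y' → |y - y'| ≤ D → y = y' := by
  classical
  by_contra hc
  have step : ∀ π, Pers α a b t π → ∃ d ∈ Icc 1 D,
      Pers α a b t (π ∪ π.image (· + (d : ℤ))) := by
    intro π hπ
    by_contra hn
    push Not at hn
    refine hc ⟨π, (hπ.all P ht1).and ?_⟩
    have : ∀ᶠ n in atTop, ∀ d ∈ Icc 1 D, ¬ ∃ y, Vd α a b t (π ∪ π.image (· + (d : ℤ))) n y :=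
      (eventually_all_finset _).2 fun d hd => not_frequently.1 (hn d hd)
    filter_upwards [this] with n hn'
    have key : ∀ y y', Vd α a b t π n y → Vd α a b t π n y' → y' - y ≤ D → ¬ y < y' := by
      intro y y' v v' l1 l2
      refine hn' (y' - y).toNat (mem_Icc.2 ⟨by omega, by omega⟩) ⟨y, v.1, fun p hp => ?_⟩
      rcases mem_union.1 hp with hp | hp
      · exact v.2 p hp
      · obtain ⟨q, hq, rfl⟩ := mem_image.1 hp
        have := v'.2 q hq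
        rwa [show y + (q + ((y' - y).toNat : ℤ)) = y' + q by omega]
    intro y y' v v' l
    obtain ⟨l1, l2⟩ := abs_le.1 l
    have := key y y' v v' (by omega)
    have := key y' y v' v (by omega)
    omega
  have ind : ∀ r : ℕ, ∃ π, Pers α a b t π ∧ ∃ c : ℕ → ℕ, ∑ d ∈ Icc 1 D, c d = r ∧
      ∀ d k : ℕ, k ≤ c d → (k * d : ℤ) ∈ π := by
    intro r
    induction r with
    | zero => exact ⟨{0}, pers_zero P ht1 h, fun _ => 0, by simp, by simp⟩
    | succ r ih =>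
      obtain ⟨π, hπ, c, c1, c2⟩ := ih
      obtain ⟨d, hd, hp⟩ := step π hπ
      refine ⟨_, hp, fun e => c e + if e = d then 1 else 0, ?_, fun e k hk => ?_⟩
      · rw [sum_add_distrib, c1]; simp [hd]
      · by_cases h1 : k ≤ c e
        · exact mem_union_left _ (c2 e k h1)
        · have he : e = d := by
            by_contra he; simp [he] at hk; omega
          subst he
          simp only [if_true] at hk
          refine mem_union_right _ (mem_image.2 ⟨_, c2 e (c e) le_rfl, ?_⟩)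
          rw [show k = c e + 1 by omega]; push_cast; ring
  have ap : ∀ d : ℕ, ∃ L : ℕ, 1 ≤ d → ∀ π : Finset ℤ, (∀ k : ℕ, k ≤ L → (k * d : ℤ) ∈ π) →
      ¬ Pers α a b t π := by
    intro d
    by_cases hd : 1 ≤ d
    · obtain ⟨L, hL⟩ := no_ap P ht1 ht hd (hres d hd)
      exact ⟨L, fun _ => hL⟩
    · exact ⟨0, fun h => absurd h hd⟩
  choose L hL using ap
  obtain ⟨π, hπ, c, c1, c2⟩ := ind (∑ d ∈ Icc 1 D, L d + 1)
  obtain ⟨d, hd, hlt⟩ := exists_lt_of_sum_lt (s := Icc 1 D) (f := L) (g := c) (by omega)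
  exact hL d (mem_Icc.1 hd).1 π (fun k hk => c2 d k (by omega)) hπ

end Pool.Agent.P.MP_0ff3a5_nt
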