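import Pool.Agent.P.MP_0ff3a5_nt.PartA

/-! Sequential forcing: a bounded first moment, so that only the absence of exact overlaps
is needed. -/

namespace Pool.Agent.P.MP_0ff3a5_nt
open Finset Filter MeasureTheory

/-- all nodes of the descent along `W` stay in the bulk -/
def Path (α a b t : ℝ) (K n : ℕ) (y : ℤ) (W : Finset ℕ) : Prop :=
  W ⊆ Ico K n ∧ ∀ k, K ≤ k → k ≤ n →
    Blk α a b k (((y - ∑ j ∈ W.filter (k ≤ ·), s α t j : ℤ) : ℝ) / t)

lemma Path.zero {α a b t : ℝ} {K n : ℕ} {y : ℤ} {W : Finset ℕ} (h : Path α a b t K n y W)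
    (hy : Blk α a b (n + 1) (y / t)) : Path α a b t K (n + 1) y W := by
  refine ⟨h.1.trans (Ico_subset_Ico le_rfl (by omega)), fun k k1 k2 => ?_⟩
  by_cases hk : k ≤ n
  · exact h.2 k k1 hk
  · have : W.filter (k ≤ ·) = ∅ :=
      filter_eq_empty_iff.2 fun j hj => by have := mem_Ico.1 (h.1 hj); omega
    rw [this, show k = n + 1 by omega]; simpa using hy

lemma Path.one {α a b t : ℝ} {K n : ℕ} (hK : K ≤ n) {y : ℤ} {W : Finset ℕ}
    (h : Path α a b t K n (y - s α t n) W) (hy : Blk α a b (n + 1) (y / t)) :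
    Path α a b t K (n + 1) y (insert n W) := by
  have hn : n ∉ W := fun h' => by simpa using h.1 h'
  refine ⟨fun j hj => ?_, fun k k1 k2 => ?_⟩
  · rcases mem_insert.1 hj with rfl | hj
    · exact mem_Ico.2 ⟨hK, by omega⟩
    · have := mem_Ico.1 (h.1 hj); exact mem_Ico.2 ⟨by omega, by omega⟩
  by_cases hk : k ≤ n
  · rw [filter_insert, if_pos hk, sum_insert (fun h' => hn (mem_filter.1 h').1), ← sub_sub]
    exact h.2 k k1 hk
  · have : (insert n W).filter (k ≤ ·) = ∅ := filter_eq_empty_iff.2 fun j hj => by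
      rcases mem_insert.1 hj with rfl | hj
      · omega
      · have := mem_Ico.1 (h.1 hj); omega
    rw [this, show k = n + 1 by omega]; simpa using hy

lemma strings {α a b μ : ℝ} (P : Par α a b μ) {K : ℕ} (k1 : 8 ≤ μ * (α - 1) * α ^ K)
    (k2 : 2 ≤ (2 - α) * μ * α ^ K) (j : ℕ) : ∀ l c : ℝ, μ / 4 ≤ l → l ≤ μ →
    ∃ 𝒲 : Finset (Finset ℕ), (𝒲.card : ℝ) ≤ 4 / μ * (2 * α ^ j - 1) * l ∧
      ∀ (t : ℝ) (y : ℤ), 1 ≤ t → Blk α a b (K + j) (y / t) → c * α ^ (K + j) ≤ y / t →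
        y / t ≤ (c + l) * α ^ (K + j) → ∃ W ∈ 𝒲, Path α a b t K (K + j) y W := by
  classical
  have h1 := P.h1
  have h2 := P.h2
  have hμ := P.hμ
  induction j with
  | zero =>
    intro l c l1 _
    refine ⟨{∅}, ?_, fun t y _ hy _ _ => ⟨∅, mem_singleton_self _, empty_subset _, fun k a1 a2 => ?_⟩⟩
    · rw [card_singleton, pow_zero, div_mul_eq_mul_div, div_mul_eq_mul_div, le_div_iff₀ hμ]
      push_cast; linarith
    · rw [show k = K + 0 by omega]; simpa using hy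
  | succ j ih =>
    have hp : 0 < α ^ (K + j) := pow_pos (by linarith) _
    have hj : 1 ≤ α ^ j := one_le_pow₀ h1.le
    have hK : 0 < α ^ K := pow_pos (by linarith) _
    set e := 1 / α ^ (K + j) with he
    have e0 : 0 < e := by positivity
    have e1 : e * α ^ (K + j) = 1 := by rw [he]; field_simp
    have e2 : e * α ^ j * α ^ K = 1 := by rw [← e1, pow_add]; ring
    have e3 : e * α ^ K ≤ 1 := by nlinarith [mul_pos e0 hK]
    have e4 : e ≤ (2 - α) * μ / 2 := by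
      have : e * α ^ K ≤ (2 - α) * μ / 2 * α ^ K := by linarith
      exact le_of_mul_le_mul_right this hK
    have e5 : 8 * (e * α ^ j) ≤ μ * (α - 1) := by
      have : 8 * (e * α ^ j) * α ^ K ≤ μ * (α - 1) * α ^ K := by linarith
      exact le_of_mul_le_mul_right this hK
    have small : ∀ l c : ℝ, μ / 4 ≤ l → l ≤ μ / 2 →
        ∃ 𝒲 : Finset (Finset ℕ), (𝒲.card : ℝ) ≤ 4 / μ * (2 * α ^ (j + 1) - 1) * l ∧
        ∀ (t : ℝ) (y : ℤ), 1 ≤ t → Blk α a b (K + (j + 1)) (y / t) →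
          c * α ^ (K + (j + 1)) ≤ y / t → y / t ≤ (c + l) * α ^ (K + (j + 1)) →
          ∃ W ∈ 𝒲, Path α a b t K (K + (j + 1)) y W := by
      intro l c l1 l2
      have b1 : μ / 4 ≤ α * l + e := by nlinarith
      have b2 : α * l + e ≤ μ := by nlinarith
      have b3 : 4 / μ * (2 * α ^ j - 1) * (α * l + e) ≤ 4 / μ * (2 * α ^ (j + 1) - 1) * l := by
        rw [mul_assoc, mul_assoc]
        exact mul_le_mul_of_nonneg_left (by rw [pow_succ]; nlinarith) (by positivity)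
      by_cases hc : α * (c + l) ≤ b
      · obtain ⟨𝒲, w1, w2⟩ := ih (α * l + e) (α * c) b1 b2
        refine ⟨𝒲, w1.trans b3, fun t y t1 hy c1 c2 => ?_⟩
        rw [← add_assoc, pow_succ] at c1 c2
        have y1 := hy.1
        rw [← add_assoc, pow_succ] at y1
        obtain ⟨W, hW, hP⟩ := w2 t y t1 ⟨by nlinarith [mul_pos P.ha hp], by nlinarith⟩
          (by linarith) (by nlinarith)
        exact ⟨W, hW, hP.zero hy⟩
      · obtain ⟨𝒲, w1, w2⟩ := ih (α * l + e) (α * c - 1) b1 b2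
        refine ⟨𝒲.image (insert (K + j)), le_trans (by exact_mod_cast card_image_le)
          (w1.trans b3), fun t y t1 hy c1 c2 => ?_⟩
        rw [← add_assoc, pow_succ] at c1 c2
        have y2 := hy.2
        rw [← add_assoc, pow_succ] at y2
        have a1 : (s α t (K + j) : ℝ) ≤ t * α ^ (K + j) := Int.floor_le _
        have a2 : t * α ^ (K + j) < s α t (K + j) + 1 := Int.lt_floor_add_one _
        have t0 : 0 < t := by linarith
        have a3 : y / t - α ^ (K + j) ≤ ((y - s α t (K + j) : ℤ) : ℝ) / t := by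
          rw [le_div_iff₀ t0, sub_mul, div_mul_cancel₀ _ t0.ne']; push_cast; linarith
        have a4 : ((y - s α t (K + j) : ℤ) : ℝ) / t ≤ y / t - α ^ (K + j) + 1 := by
          rw [div_le_iff₀ t0, add_mul, sub_mul, div_mul_cancel₀ _ t0.ne']; push_cast; linarith
        have w := P.wide
        have hi := P.hi
        have a5 : 1 ≤ μ * α ^ (K + j) := by nlinarith
        obtain ⟨W, hW, hP⟩ := w2 t (y - s α t (K + j)) t1 ⟨by nlinarith, by nlinarith⟩
          (by linarith) (by nlinarith)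
        exact ⟨_, mem_image_of_mem _ hW, hP.one (by omega) hy⟩
    intro l c l1 l2
    by_cases hl : l ≤ μ / 2
    · exact small l c l1 hl
    obtain ⟨𝒲, w1, w2⟩ := small (l / 2) c (by linarith) (by linarith)
    obtain ⟨𝒲', w1', w2'⟩ := small (l / 2) (c + l / 2) (by linarith) (by linarith)
    refine ⟨𝒲 ∪ 𝒲', ?_, fun t y t1 hy c1 c2 => ?_⟩
    · have : ((𝒲 ∪ 𝒲').card : ℝ) ≤ 𝒲.card + 𝒲'.card := by exact_mod_cast card_union_le _ _
      linarith
    · by_cases hc : y / t ≤ (c + l / 2) * α ^ (K + (j + 1))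
      · obtain ⟨W, hW, hP⟩ := w2 t y t1 hy c1 hc
        exact ⟨W, mem_union_left _ hW, hP⟩
      · obtain ⟨W, hW, hP⟩ := w2' t y t1 hy (not_le.1 hc).le (by rwa [add_assoc, add_halves])
        exact ⟨W, mem_union_right _ hW, hP⟩

lemma strings_all {α a b μ : ℝ} (P : Par α a b μ) {K : ℕ} (k1 : 8 ≤ μ * (α - 1) * α ^ K)
    (k2 : 2 ≤ (2 - α) * μ * α ^ K) (j : ℕ) :
    ∃ 𝒲 : Finset (Finset ℕ), (𝒲.card : ℝ) ≤ (b / μ + 1) * 8 * α ^ j ∧
      ∀ (t : ℝ) (y : ℤ), 1 ≤ t → Blk α a b (K + j) (y / t) →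
        ∃ W ∈ 𝒲, Path α a b t K (K + j) y W := by
  classical
  have hμ := P.hμ
  have h1 := P.h1
  have hb : 1 ≤ b := by linarith [P.wide, P.ha]
  choose 𝒲 w1 w2 using fun c : ℝ => strings P k1 k2 j μ c (by linarith) le_rfl
  have hp : 0 < α ^ (K + j) := pow_pos (by linarith) _
  refine ⟨(range (⌊b / μ⌋₊ + 1)).biUnion fun i => 𝒲 (i * μ), ?_, fun t y t1 hy => ?_⟩
  · have a1 : ∀ c, ((𝒲 c).card : ℝ) ≤ 8 * α ^ j := fun c => (w1 c).trans (by
      rw [show 4 / μ * (2 * α ^ j - 1) * μ = 4 * (2 * α ^ j - 1) by field_simp]; linarith)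
    calc _ ≤ ((∑ i ∈ range (⌊b / μ⌋₊ + 1), (𝒲 (i * μ)).card : ℕ) : ℝ) := by
          exact_mod_cast card_biUnion_le
      _ ≤ ∑ i ∈ range (⌊b / μ⌋₊ + 1), 8 * α ^ j := by
          push_cast; exact sum_le_sum fun i _ => a1 _
      _ = (⌊b / μ⌋₊ + 1) * 8 * α ^ j := by simp; ring
      _ ≤ _ := by gcongr; exact Nat.floor_le (by positivity)
  · have hδ : 0 < μ * α ^ (K + j) := by positivity
    have x0 : 0 ≤ y / t := le_trans (by have := P.ha; positivity) hy.1
    have u1 := Nat.floor_le (div_nonneg x0 hδ.le)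
    have u2 := Nat.lt_floor_add_one (y / t / (μ * α ^ (K + j)))
    rw [le_div_iff₀ hδ] at u1
    rw [div_lt_iff₀ hδ] at u2
    obtain ⟨W, hW, hP⟩ := w2 (⌊y / t / (μ * α ^ (K + j))⌋₊ * μ) t y t1 hy (by linarith)
      (by linarith)
    refine ⟨W, mem_biUnion.2 ⟨_, mem_range.2 (Nat.lt_succ_of_le (Nat.floor_mono ?_)), hW⟩, hP⟩
    rw [div_le_div_iff₀ hδ hμ]; nlinarith [hy.2]

lemma s_close {α t t' : ℝ} (h1 : 1 < α) (h2 : α < 2) {m k T : ℕ} (h : s α t m = s α t' m)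
    (hk : m ≤ k) (hk' : k ≤ m + T + 1) : |s α t k - s α t' k| ≤ 2 ^ (T + 1) + 1 := by
  obtain ⟨i, rfl⟩ := Nat.exists_eq_add_of_le hk
  have a1 := close_of_s h
  have a2 : |t * α ^ (m + i) - t' * α ^ (m + i)| ≤ 2 ^ (T + 1) := by
    rw [show t * α ^ (m + i) - t' * α ^ (m + i) = (t * α ^ m - t' * α ^ m) * α ^ i by ring, abs_mul,
      abs_of_pos (by positivity : 0 < α ^ i)]
    calc _ ≤ 1 * (2 : ℝ) ^ i := by gcongr
      _ ≤ _ := by rw [one_mul]; exact pow_le_pow_right₀ (by norm_num) (by omega)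
  obtain ⟨a3, a4⟩ := abs_le.1 a2
  have b1 : (s α t (m + i) : ℝ) ≤ t * α ^ (m + i) := Int.floor_le _
  have b2 : t * α ^ (m + i) < s α t (m + i) + 1 := Int.lt_floor_add_one _
  have b3 : (s α t' (m + i) : ℝ) ≤ t' * α ^ (m + i) := Int.floor_le _
  have b4 : t' * α ^ (m + i) < s α t' (m + i) + 1 := Int.lt_floor_add_one _
  have : |(s α t (m + i) : ℝ) - s α t' (m + i)| ≤ 2 ^ (T + 1) + 1 := by
    rw [abs_le]; constructor <;> linarith
  exact_mod_cast this

lemma force {α a b μ : ℝ} (P : Par α a b μ) {T D K n : ℕ} (h2 : Two α a b μ T)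
    (hD : 2 * (T + 1) * (2 ^ (T + 1) + 1) ≤ D) (hK : (T : ℝ) + 1 + D ≤ μ * α ^ K) (hK1 : 1 ≤ K)
    {π : Finset ℤ} {t t' : ℝ} {y y' : ℤ} {W : Finset ℕ} (t1 : 1 ≤ t) (t3 : Sp α a b π D K t)
    (hW : Path α a b t K n y W) (v : MP (s α t) π n y) (v' : MP (s α t') π n y')
    (g1 : ∀ k < K, s α t k = s α t' k)
    (g2 : y - ∑ k ∈ W, s α t k = y' - ∑ k ∈ W, s α t' k) :
    ∀ m, m + T < n → s α t m = s α t' m := by
  have h1 := P.h1
  intro m
  induction m using Nat.strong_induction_on with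
  | _ m ih =>
  intro hm
  by_cases him : m < K
  · exact g1 m him
  have low : ∀ k < m, s α t k = s α t' k := fun k hk => ih k hk (by omega)
  set N := m + T + 1 with hN
  set U := W.filter (N ≤ ·) with hU
  have hU1 : U ⊆ Ico N n := fun k hk =>
    mem_Ico.2 ⟨(mem_filter.1 hk).2, (mem_Ico.1 (hW.1 (mem_filter.1 hk).1)).2⟩
  set e : ℕ → ℤ := fun k => s α t k - s α t' k with he
  have bd : ∀ G : Finset ℕ, (∀ k ∈ G, k < N) → |∑ k ∈ G, e k| ≤ (T + 1) * (2 ^ (T + 1) + 1) := by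
    intro G hG
    rw [← sum_filter_add_sum_filter_not G (m ≤ ·),
      sum_eq_zero (s := G.filter fun k => ¬ m ≤ k) fun k hk =>
        sub_eq_zero.2 (low k (not_le.1 (mem_filter.1 hk).2)), add_zero]
    refine (abs_sum_le_sum_abs _ _).trans ((sum_le_card_nsmul _ _ (2 ^ (T + 1) + 1)
      fun k hk => ?_).trans ?_)
    · obtain ⟨a1, a2⟩ := mem_filter.1 hk
      have := hG k a1
      exact s_close h1 P.h2 (low (m - 1) (by omega)) (by omega) (by omega)
    · have : (G.filter (m ≤ ·)).card ≤ T + 1 :=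
        (card_le_card (t := Ico m N) fun k hk =>
          mem_Ico.2 ⟨(mem_filter.1 hk).2, hG k (mem_filter.1 hk).1⟩).trans (by simp; omega)
      rw [nsmul_eq_mul]
      gcongr
      exact_mod_cast this
  have g3 : (y - ∑ k ∈ U, s α t k) - (y' - ∑ k ∈ U, s α t' k) =
      ∑ k ∈ W.filter (fun k => ¬ N ≤ k), e k := by
    rw [← sum_filter_add_sum_filter_not W (N ≤ ·), ← sum_filter_add_sum_filter_not W (N ≤ ·)
      (s α t')] at g2
    rw [sum_sub_distrib]; linarith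
  have hm' : (T : ℝ) + 1 + D ≤ μ * α ^ m := hK.trans (by have := P.hμ; gcongr; exacts [h1.le, by omega])
  have key : ∀ F ⊆ Ico m N, Blk α (a + μ) (b - μ) m
      (((y - ∑ k ∈ U, s α t k : ℤ) : ℝ) / t - val α F) →
      (y - ∑ k ∈ U, s α t k) - ∑ k ∈ F, s α t k = (y' - ∑ k ∈ U, s α t' k) - ∑ k ∈ F, s α t' k := by
    intro F hF hb
    have land : ∀ z : ℤ, |z - ((y - ∑ k ∈ U, s α t k) - ∑ k ∈ F, s α t k)| ≤ D →
        Blk α a b m (z / t) := by
      intro z hz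
      refine blk_of_close (by linarith) hb ?_
      have a1 := sum_s_le α t F
      have a2 := le_sum_s α t F
      have a3 : (F.card : ℝ) ≤ T + 1 := by
        exact_mod_cast (card_le_card hF).trans (by simp; omega)
      have a4 : |(z : ℝ) - (((y - ∑ k ∈ U, s α t k : ℤ) : ℝ) - ((∑ k ∈ F, s α t k : ℤ) : ℝ))| ≤ D := by
        exact_mod_cast hz
      obtain ⟨a5, a6⟩ := abs_le.1 a4
      have a7 : μ * α ^ m ≤ t * (μ * α ^ m) :=
        le_mul_of_one_le_left (by have := P.hμ; positivity) t1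
      have a8 : (0 : ℝ) ≤ T := Nat.cast_nonneg _
      rw [mul_sub, mul_div_cancel₀ _ (by linarith : t ≠ 0), abs_le]
      constructor <;> linarith
    have cl : |((y' - ∑ k ∈ U, s α t' k) - ∑ k ∈ F, s α t' k) -
        ((y - ∑ k ∈ U, s α t k) - ∑ k ∈ F, s α t k)| ≤ D := by
      obtain ⟨a1, a2⟩ := abs_le.1 (bd F fun k hk => (mem_Ico.1 (hF hk)).2)
      obtain ⟨a3, a4⟩ := abs_le.1 (bd (W.filter fun k => ¬ N ≤ k)
        fun k hk => not_le.1 (mem_filter.1 hk).2)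
      rw [sum_sub_distrib] at a1 a2
      have : (2 * (T + 1) * (2 ^ (T + 1) + 1) : ℤ) ≤ D := by exact_mod_cast hD
      rw [abs_le]; constructor <;> linarith
    refine ((t3 m (by omega)).2 _ _ ⟨land _ cl, ?_⟩ ⟨land _ (by simp),
      (v.desc (by omega) hU1).desc (by omega) hF⟩ cl).symm
    exact ((v'.desc (by omega) hU1).desc (by omega) hF).congr fun k hk => (low k hk).symm
  obtain ⟨F, hF, F', hF', m1, m2, m3, b1, b2⟩ :=
    h2 m m N le_rfl (by omega) _ (hW.2 N (by omega) (by omega))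
  have k1 := key F hF b1
  have k2 := key F' hF' b2
  exact sub_eq_zero.1 (split_sum (e := e) hF hF' m1 m2 m3 (fun k _ hk => by omega)
    (by rw [sum_sub_distrib, sum_sub_distrib]; linarith))

lemma code_seq {α a b μ : ℝ} (P : Par α a b μ) {T D K : ℕ} (h2 : Two α a b μ T)
    (hD : 2 * (T + 1) * (2 ^ (T + 1) + 1) ≤ D) (hK : (T : ℝ) + 1 + D ≤ μ * α ^ K) (hK1 : 1 ≤ K)
    (k1 : 8 ≤ μ * (α - 1) * α ^ K) (k2 : 2 ≤ (2 - α) * μ * α ^ K) (π : Finset ℤ) (T1 : ℝ) :
    ∃ B, 0 ≤ B ∧ ∀ j, T < j → Code α a b π D K T1 (K + j) (B * α ^ j) := by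
  obtain ⟨B, hB0, ι, _, hι, f, hf⟩ := code_base P π D K T1 K
  have h1 := P.h1
  have hμ := P.hμ
  have hb : 1 ≤ b := by linarith [P.wide, P.ha]
  refine ⟨B * ((b / μ + 1) * 8) * 3 ^ T, by positivity, fun j hj => ?_⟩
  obtain ⟨𝒲, w1, w2⟩ := strings_all P k1 k2 j
  choose W hW hP using fun p : VV α a b π D K T1 (K + j) => w2 p.1.1 p.1.2 p.2.1.1 p.2.2.1
  have par : ∀ p : VV α a b π D K T1 (K + j),
      Vd α a b p.1.1 π K (p.1.2 - ∑ k ∈ W p, s α p.1.1 k) := by
    intro p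
    refine ⟨?_, p.2.2.2.desc (by omega) (hP p).1⟩
    have := (hP p).2 K le_rfl (by omega)
    rwa [filter_true_of_mem fun k hk => (mem_Ico.1 ((hP p).1 hk)).1] at this
  refine ⟨ι × 𝒲 × (Fin T → Fin 3), inferInstance, ?_, fun p =>
    (f ⟨(p.1.1, p.1.2 - ∑ k ∈ W p, s α p.1.1 k), p.2.1, par p⟩, ⟨W p, hW p⟩, fun i =>
      ⟨(s α p.1.1 (K + j - T - 1 + i + 1) - ⌊α * s α p.1.1 (K + j - T - 1 + i)⌋).toNat, ?_⟩), ?_⟩
  · simp only [Fintype.card_prod, Fintype.card_fin, Fintype.card_fun, Fintype.card_coe]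
    push_cast
    calc (Fintype.card ι : ℝ) * (𝒲.card * 3 ^ T) ≤ B * (((b / μ + 1) * 8 * α ^ j) * 3 ^ T) := by
          gcongr
      _ = _ := by ring
  · have := s_next (t := p.1.1) h1 P.h2 (K + j - T - 1 + i)
    omega
  · intro p q h
    simp only [Prod.mk.injEq, Subtype.mk.injEq] at h
    obtain ⟨e1, e2, e3⟩ := h
    obtain ⟨g1, g2⟩ := hf _ _ e1
    simp only at g1 g2
    rw [← e2] at g2
    have low := force P h2 hD hK hK1 p.2.1.1 p.2.1.2.2 (hP p) p.2.2.2 q.2.2.2 g1 g2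
    have all : ∀ m, m < K + j → s α p.1.1 m = s α q.1.1 m := by
      intro m
      induction m with
      | zero => intro _; exact g1 0 (by omega)
      | succ m ih =>
        intro hm
        by_cases hc : m + 1 + T < K + j
        · exact low _ hc
        have e4 := congrArg Fin.val (congrFun e3 ⟨m - (K + j - T - 1), by omega⟩)
        simp only at e4
        rw [show K + j - T - 1 + (m - (K + j - T - 1)) = m by omega, ← ih (by omega)] at e4
        have n1 := s_next (t := p.1.1) h1 P.h2 m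
        have n2 := s_next (t := q.1.1) h1 P.h2 m
        rw [← ih (by omega)] at n2
        omega
    refine ⟨all, ?_⟩
    have : ∑ k ∈ W p, s α p.1.1 k = ∑ k ∈ W p, s α q.1.1 k :=
      sum_congr rfl fun k hk => all k (mem_Ico.1 ((hP p).1 hk)).2
    linarith

end Pool.Agent.P.MP_0ff3a5_nt
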