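import Pool.Agent.P.MP_0ff3a5_nt.SepAE

/-! Lipschitz and transversality estimates for polynomials with coefficients `-1, 0, 1`. -/

namespace Pool.Agent.P.MP_0ff3a5_nt
open Finset

noncomputable def pv (c : ℕ → ℤ) (n : ℕ) (x : ℝ) : ℝ := ∑ k ∈ range n, (c k : ℝ) * x ^ k

noncomputable def pd (c : ℕ → ℤ) (n : ℕ) (x : ℝ) : ℝ :=
  ∑ k ∈ range n, (c k : ℝ) * (k * x ^ (k - 1))

lemma pv_deriv (c : ℕ → ℤ) (n : ℕ) (x : ℝ) : HasDerivAt (pv c n) (pd c n x) x :=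
  HasDerivAt.fun_sum fun k _ => (hasDerivAt_pow k x).const_mul _

lemma pv_mvt (c : ℕ → ℤ) (n : ℕ) (x y : ℝ) :
    ∃ γ ∈ Set.uIcc x y, pv c n y - pv c n x = pd c n γ * (y - x) := by
  have hc : Continuous (pv c n) := continuous_iff_continuousAt.2 fun x => (pv_deriv c n x).continuousAt
  rcases lt_trichotomy x y with h | rfl | h
  · obtain ⟨γ, g1, g2⟩ := exists_hasDerivAt_eq_slope (pv c n) (pd c n) h hc.continuousOn
      fun x _ => pv_deriv c n x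
    exact ⟨γ, Set.Icc_subset_uIcc (Set.Ioo_subset_Icc_self g1), by
      rw [g2, div_mul_cancel₀ _ (by linarith)]⟩
  · exact ⟨x, Set.left_mem_uIcc, by simp⟩
  · obtain ⟨γ, g1, g2⟩ := exists_hasDerivAt_eq_slope (pv c n) (pd c n) h hc.continuousOn
      fun x _ => pv_deriv c n x
    refine ⟨γ, Set.Icc_subset_uIcc' (Set.Ioo_subset_Icc_self g1), ?_⟩
    rw [g2]; have : x - y ≠ 0 := by linarith [sub_pos.2 h, (sub_pos.2 h).ne']
    field_simp; ring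

lemma mul_pd (c : ℕ → ℤ) (n : ℕ) (x r : ℝ) :
    x * pd c n x - r * pv c n x = ∑ k ∈ range n, (c k : ℝ) * ((k - r) * x ^ k) := by
  rw [pd, pv, mul_sum, mul_sum, ← sum_sub_distrib]
  refine sum_congr rfl fun k _ => ?_
  cases k with
  | zero => simp; ring
  | succ k => rw [Nat.add_sub_cancel, pow_succ]; ring

lemma wsum (x : ℝ) (n : ℕ) :
    (x - 1) ^ 2 * ∑ k ∈ range n, ((n : ℝ) - k) * x ^ k = x ^ (n + 1) - (n + 1) * x + n := by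
  induction n with
  | zero => simp
  | succ n ih =>
    have e : ∑ k ∈ range (n + 1), (((n + 1 : ℕ) : ℝ) - k) * x ^ k =
        ∑ k ∈ range n, ((n : ℝ) - k) * x ^ k + ∑ k ∈ range (n + 1), x ^ k := by
      rw [sum_range_succ, sum_range_succ, ← add_assoc, ← sum_add_distrib]
      push_cast
      congr 1
      · exact sum_congr rfl fun k _ => by ring
      · ring
    have g := geom_sum_mul x (n + 1)
    rw [e, mul_add, ih]
    have : (x - 1) ^ 2 * ∑ k ∈ range (n + 1), x ^ k = (x - 1) * (x ^ (n + 1) - 1) := by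
      rw [← g]; ring
    rw [this]; push_cast; ring

lemma wsum_le {x : ℝ} (hx : 1 ≤ x) (n : ℕ) :
    (x - 1) ^ 2 * ∑ k ∈ range n, ((n : ℝ) - k) * x ^ k ≤ x ^ (n + 1) := by
  rw [wsum]; have : (0 : ℝ) ≤ n := Nat.cast_nonneg _
  nlinarith

lemma abs_c_mul {c : ℤ} (h : |c| ≤ 1) (z : ℝ) : |(c : ℝ) * z| ≤ |z| := by
  rw [abs_mul]
  have : |(c : ℝ)| ≤ 1 := by exact_mod_cast h
  exact mul_le_of_le_one_left (abs_nonneg _) this

lemma pd_crude {c : ℕ → ℤ} (hc : ∀ k, |c k| ≤ 1) (n : ℕ) {x : ℝ} (hx : 3 / 2 ≤ x) :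
    |pd c n x| ≤ 2 * n * x ^ n := by
  have g := geom_sum_mul x n
  have g0 : 0 ≤ ∑ k ∈ range n, x ^ k := sum_nonneg fun k _ => by positivity
  calc _ ≤ ∑ k ∈ range n, (n : ℝ) * x ^ k := by
        refine (abs_sum_le_sum_abs _ _).trans (sum_le_sum fun k hk => (abs_c_mul (hc k) _).trans ?_)
        rw [abs_of_nonneg (by positivity)]
        have : (k : ℝ) ≤ n := by exact_mod_cast (mem_range.1 hk).le
        have : x ^ (k - 1) ≤ x ^ k := pow_le_pow_right₀ (by linarith) (by omega)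
        gcongr
    _ = n * ∑ k ∈ range n, x ^ k := (mul_sum _ _ _).symm
    _ ≤ n * (2 * x ^ n) := by gcongr; nlinarith
    _ = _ := by ring

lemma pd_sharp {c : ℕ → ℤ} (hc : ∀ k, |c k| ≤ 1) (n : ℕ) {x : ℝ} (hx : 3 / 2 ≤ x) (h2 : x ≤ 2) :
    |pd c n x| ≤ n * |pv c n x| + 8 * x ^ n := by
  have a1 : |x * pd c n x - n * pv c n x| ≤ ∑ k ∈ range n, ((n : ℝ) - k) * x ^ k := by
    rw [mul_pd]
    refine (abs_sum_le_sum_abs _ _).trans (sum_le_sum fun k hk => (abs_c_mul (hc k) _).trans ?_)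
    have : (k : ℝ) ≤ n := by exact_mod_cast (mem_range.1 hk).le
    rw [abs_mul, abs_sub_comm, abs_of_nonneg (by linarith), abs_of_nonneg (by positivity)]
  have a2 := wsum_le (x := x) (by linarith) n
  have a3 : 0 ≤ ∑ k ∈ range n, ((n : ℝ) - k) * x ^ k := (abs_nonneg _).trans a1
  have a4 : 1 / 4 ≤ (x - 1) ^ 2 := by nlinarith
  have a5 : 0 < x ^ n := by positivity
  have a6 : ∑ k ∈ range n, ((n : ℝ) - k) * x ^ k ≤ 8 * x ^ n := by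
    rw [pow_succ x n] at a2; nlinarith
  have a7 := abs_sub_abs_le_abs_sub (x * pd c n x) (n * pv c n x)
  rw [abs_mul, abs_mul, abs_of_pos (by linarith : 0 < x), Nat.abs_cast] at a7
  nlinarith [abs_nonneg (pd c n x)]

lemma pd_trans {c : ℕ → ℤ} (hc : ∀ k, |c k| ≤ 1) (j : ℕ) (h1 : c (j + 4) = 1) {x : ℝ}
    (hx : 1543 / 1000 ≤ x) :
    7 / 100 * x ^ (j + 1) ≤ x * pd c (j + 5) x - j * pv c (j + 5) x := by
  rw [mul_pd, sum_range_succ, sum_range_succ, sum_range_succ, sum_range_succ, sum_range_succ, h1]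
  have a1 : |∑ k ∈ range j, (c k : ℝ) * ((k - j) * x ^ k)| ≤
      ∑ k ∈ range j, ((j : ℝ) - k) * x ^ k := by
    refine (abs_sum_le_sum_abs _ _).trans (sum_le_sum fun k hk => (abs_c_mul (hc k) _).trans ?_)
    have : (k : ℝ) ≤ j := by exact_mod_cast (mem_range.1 hk).le
    rw [abs_mul, abs_sub_comm, abs_of_nonneg (by linarith), abs_of_nonneg (by positivity)]
  have a2 := wsum_le (x := x) (by linarith) j
  have b1 := abs_c_mul (hc (j + 1)) (x ^ (j + 1))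
  have b2 := abs_c_mul (hc (j + 2)) (2 * x ^ (j + 2))
  have b3 := abs_c_mul (hc (j + 3)) (3 * x ^ (j + 3))
  rw [abs_of_pos (by positivity : 0 < x ^ (j + 1))] at b1
  rw [abs_of_pos (by positivity : 0 < 2 * x ^ (j + 2))] at b2
  rw [abs_of_pos (by positivity : 0 < 3 * x ^ (j + 3))] at b3
  have hp : 0 < x ^ (j + 1) := by positivity
  have k1 : 1 ≤ (x - 1) ^ 2 * (4 * x ^ 3 - 3 * x ^ 2 - 2 * x - 1 - 7 / 100) := by
    obtain ⟨e, rfl⟩ : ∃ e, x = 1543 / 1000 + e := ⟨x - 1543 / 1000, by ring⟩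
    have he : 0 ≤ e := by linarith
    have : 0 ≤ e ^ 2 := by positivity
    have : 0 ≤ e ^ 3 := by positivity
    have : 0 ≤ e ^ 4 := by positivity
    have : 0 ≤ e ^ 5 := by positivity
    nlinarith
  have k2 : ∑ k ∈ range j, ((j : ℝ) - k) * x ^ k ≤
      (4 * x ^ 3 - 3 * x ^ 2 - 2 * x - 1 - 7 / 100) * x ^ (j + 1) := by
    have h0 : 0 < (x - 1) ^ 2 := by nlinarith
    refine le_of_mul_le_mul_left (a2.trans ?_) h0
    nlinarith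
  have e2 : x ^ (j + 2) = x ^ (j + 1) * x := by ring
  have e3 : x ^ (j + 3) = x ^ (j + 1) * x ^ 2 := by ring
  have e4 : x ^ (j + 4) = x ^ (j + 1) * x ^ 3 := by ring
  push_cast
  simp only [add_sub_cancel_left, sub_self, zero_mul, mul_zero, one_mul, add_zero]
  linarith [(abs_le.1 a1).1, (abs_le.1 b1).1, (abs_le.1 b2).1, (abs_le.1 b3).1]

lemma seg_pow {x γ : ℝ} (hx : 1 ≤ x) (hγ : 1 ≤ γ) {n : ℕ} (h : n * |γ - x| ≤ 1 / 2) :
    γ ^ n ≤ 2 * x ^ n := by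
  have hγ0 : 0 < γ := by linarith
  have a0 : 0 ≤ x / γ := by positivity
  have a1 := one_add_mul_le_pow (a := x / γ - 1) (by linarith) n
  rw [add_sub_cancel, div_pow, le_div_iff₀ (by positivity)] at a1
  have a2 : -|γ - x| ≤ x / γ - 1 := by
    rw [le_sub_iff_add_le, le_div_iff₀ hγ0]
    nlinarith [le_abs_self (γ - x), abs_nonneg (γ - x)]
  have a3 : (n : ℝ) * -|γ - x| ≤ n * (x / γ - 1) := by gcongr
  have : 0 < γ ^ n := by positivity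
  nlinarith

lemma seg_facts {c : ℕ → ℤ} (hc : ∀ k, |c k| ≤ 1) {n : ℕ} {x y B l : ℝ} (hl : 3 / 2 ≤ l)
    (hx : l ≤ x) (hx2 : x ≤ 2) (hy : l ≤ y) (hy2 : y ≤ 2) (hB : |pv c n x| ≤ B)
    (h1 : n * |y - x| ≤ 1 / 2) (h2 : x ^ n * |y - x| ≤ 1) {γ : ℝ} (hγ : γ ∈ Set.uIcc x y) :
    l ≤ γ ∧ γ ≤ 2 ∧ γ ^ n ≤ 2 * x ^ n ∧ x ^ n ≤ 2 * γ ^ n ∧ |pv c n γ| ≤ B + 4 * n := by
  have base : ∀ γ ∈ Set.uIcc x y, l ≤ γ ∧ γ ≤ 2 ∧ γ ^ n ≤ 2 * x ^ n ∧ x ^ n ≤ 2 * γ ^ n := by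
    intro γ hγ
    have a1 : l ≤ γ := le_trans (le_min hx hy) hγ.1
    have a2 : γ ≤ 2 := le_trans hγ.2 (max_le hx2 hy2)
    have a3 : n * |γ - x| ≤ 1 / 2 :=
      le_trans (mul_le_mul_of_nonneg_left (Set.abs_sub_left_of_mem_uIcc hγ) (Nat.cast_nonneg _)) h1
    exact ⟨a1, a2, seg_pow (by linarith) (by linarith) a3,
      seg_pow (by linarith) (by linarith) (by rwa [abs_sub_comm])⟩
  obtain ⟨b1, b2, b3, b4⟩ := base γ hγ
  refine ⟨b1, b2, b3, b4, ?_⟩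
  obtain ⟨δ, d1, d2⟩ := pv_mvt c n x γ
  obtain ⟨c1, -, c3, -⟩ := base δ (Set.uIcc_subset_uIcc_left hγ d1)
  have e1 := pd_crude hc n (x := δ) (by linarith)
  have e2 : |γ - x| ≤ |y - x| := Set.abs_sub_left_of_mem_uIcc hγ
  have e3 : |pv c n γ - pv c n x| ≤ 4 * n := by
    rw [d2, abs_mul]
    have : 0 ≤ x ^ n := pow_nonneg (by linarith) _
    calc _ ≤ (2 * n * (2 * x ^ n)) * |y - x| := by
          gcongr
          exact e1.trans (by gcongr)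
      _ = 4 * n * (x ^ n * |y - x|) := by ring
      _ ≤ 4 * n * 1 := by gcongr
      _ = _ := by ring
  linarith [abs_sub_abs_le_abs_sub (pv c n γ) (pv c n x)]

lemma pv_lip {c : ℕ → ℤ} (hc : ∀ k, |c k| ≤ 1) {n : ℕ} {x y B : ℝ}
    (hx : 3 / 2 ≤ x) (hx2 : x ≤ 2) (hy : 3 / 2 ≤ y) (hy2 : y ≤ 2) (hB : |pv c n x| ≤ B)
    (h1 : n * |y - x| ≤ 1 / 2) (h2 : x ^ n * |y - x| ≤ 1) (h3 : n * (B + 4 * n) ≤ x ^ n) :
    |pv c n y - pv c n x| ≤ 17 * (x ^ n * |y - x|) := by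
  obtain ⟨γ, g1, g2⟩ := pv_mvt c n x y
  obtain ⟨b1, b2, b3, -, b5⟩ := seg_facts hc le_rfl hx hx2 hy hy2 hB h1 h2 g1
  have e1 := pd_sharp hc n b1 b2
  have e2 : (n : ℝ) * |pv c n γ| ≤ n * (B + 4 * n) := by gcongr
  rw [g2, abs_mul, ← mul_assoc]
  gcongr
  linarith

lemma pv_trans {c : ℕ → ℤ} (hc : ∀ k, |c k| ≤ 1) {m : ℕ} (hm : 4 ≤ m) (h0 : c m = 1) {x y B : ℝ}
    (hx : 1543 / 1000 ≤ x) (hx2 : x ≤ 2) (hy : 1543 / 1000 ≤ y) (hy2 : y ≤ 2)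
    (hB : |pv c (m + 1) x| ≤ B) (h1 : (m + 1 : ℕ) * |y - x| ≤ 1 / 2)
    (h2 : x ^ (m + 1) * |y - x| ≤ 1) (h3 : 2000 * ((m + 1 : ℕ) * (B + 4 * (m + 1 : ℕ))) ≤ x ^ (m + 1)) :
    x ^ (m + 1) * |y - x| ≤ 2000 * |pv c (m + 1) y - pv c (m + 1) x| := by
  obtain ⟨j, rfl⟩ : ∃ j, m = j + 4 := ⟨m - 4, by omega⟩
  obtain ⟨γ, g1, g2⟩ := pv_mvt c (j + 4 + 1) x y
  obtain ⟨b1, b2, -, b4, b5⟩ := seg_facts hc (by norm_num) hx hx2 hy hy2 hB h1 h2 g1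
  have e1 := pd_trans hc j h0 b1
  have e2 : (j : ℝ) * |pv c (j + 5) γ| ≤ (j + 4 + 1 : ℕ) * (B + 4 * (j + 4 + 1 : ℕ)) := by
    have : (j : ℝ) ≤ (j + 4 + 1 : ℕ) := by exact_mod_cast (by omega : j ≤ j + 4 + 1)
    gcongr
  have e3 : (j : ℝ) * -|pv c (j + 5) γ| ≤ j * pv c (j + 5) γ := by gcongr; exact neg_abs_le _
  have hp : 0 < γ ^ (j + 1) := by positivity
  have e4 : γ ^ (j + 4 + 1) ≤ 16 * γ ^ (j + 1) := by
    have : γ ^ 4 ≤ 2 ^ 4 := by gcongr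
    rw [show γ ^ (j + 4 + 1) = γ ^ 4 * γ ^ (j + 1) by ring]; nlinarith
  have e5 : x ^ (j + 4 + 1) ≤ 1000 * (γ * pd c (j + 5) γ) := by linarith
  have hq : 0 < x ^ (j + 4 + 1) := by positivity
  have e6 : x ^ (j + 4 + 1) ≤ 2000 * |pd c (j + 5) γ| := by
    have : γ * pd c (j + 5) γ ≤ 2 * |pd c (j + 5) γ| := by
      nlinarith [le_abs_self (pd c (j + 5) γ), abs_nonneg (pd c (j + 5) γ)]
    linarith
  rw [g2, abs_mul, ← mul_assoc]
  gcongr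

end Pool.Agent.P.MP_0ff3a5_nt
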